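import Pool.Agent.MP_402458_gt.Defs
import Pool.Agent.MP_402458_gt.ODE

section

/-! Definitions for the example on a surface. -/

set_option maxSynthPendingDepth 3

open Set Filter Topology
open scoped ContDiff

namespace Pool.Agent.MP_402458_gt.Sf

/-- fields of bilinear forms -/
abbrev Met (E : Type) [NormedAddCommGroup E] [NormedSpace ℝ E] : Type := E → E →L[ℝ] E →L[ℝ] ℝ

section general
variable {E : Type} [NormedAddCommGroup E] [NormedSpace ℝ E]

/-- smooth, symmetric and uniformly positive -/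
structure Nice (g : Met E) : Prop where
  sm : ContDiff ℝ ∞ g
  sy : ∀ x v w, g x v w = g x w v
  co : ∃ C : ℝ, 0 < C ∧ ∀ x v, ‖v‖ ^ 2 ≤ C * g x v v

/-- unit speed geodesics -/
def UG (g : Met E) (γ : ℝ → E) : Prop :=
  IsGeodesic g γ ∧ ∀ t, g (γ t) (deriv γ t) (deriv γ t) = 1

/-- functions that decrease at rate at most one -/
def Cal (g : Met E) (U : E → ℝ) : Prop :=
  Continuous U ∧ ∀ x, ∀ ε : ℝ, 0 < ε →
    ∀ᶠ y in 𝓝 x, U x - U y ≤ √(g x (y - x) (y - x)) + ε * ‖y - x‖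

/-- a separating tangent cut point is a limit of non-separating ones -/
def Bad (g : Met E) (p : E) : Prop :=
  ∃ u ∈ tangentSeparatingSet g p, ∃ w : ℕ → E,
    (∀ k, w k ∈ tangentCutLocus g p \ tangentSeparatingSet g p) ∧ Tendsto w atTop (𝓝 u) ∧
      Tendsto (fun k => expMap g p (w k)) atTop (𝓝 (expMap g p u))

end general

/-- the plane -/
abbrev P2 : Type := ℝ × ℝ

/-- the first coordinate -/
noncomputable abbrev fX : P2 →L[ℝ] ℝ := ContinuousLinearMap.fst ℝ ℝ ℝ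

/-- the second coordinate -/
noncomputable abbrev fY : P2 →L[ℝ] ℝ := ContinuousLinearMap.snd ℝ ℝ ℝ

/-- the symmetric form with coefficients `A`, `B`, `C` -/
noncomputable def mk3 (A B C : ℝ) : P2 →L[ℝ] P2 →L[ℝ] ℝ :=
  A • fX.smulRight fX + B • (fX.smulRight fY + fY.smulRight fX) + C • fY.smulRight fY

/-- the Euclidean norm -/
noncomputable def nr (x : P2) : ℝ := √(x.1 ^ 2 + x.2 ^ 2)

/-- the smooth step -/
noncomputable def H (t : ℝ) : ℝ := Real.smoothTransition t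

/-- its derivative -/
noncomputable def h (t : ℝ) : ℝ := deriv Real.smoothTransition t

/-! ### the lens -/

/-- the width of the fan -/
noncomputable def bb (X : ℝ) : ℝ := X + H (X - 3) * (7 - 2 * X)

/-- its derivative -/
noncomputable def bd (X : ℝ) : ℝ := 1 - 2 * H (X - 3) + h (X - 3) * (7 - 2 * X)

/-- a sign that changes in the lens -/
noncomputable def eta (X : ℝ) : ℝ := 1 - 2 * H (X - 3)

/-- the distance from the nearer focus -/
noncomputable def rr (x : P2) : ℝ := √(bb x.1 ^ 2 + x.2 ^ 2)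

/-- the distance from the origin in the unperturbed lens -/
noncomputable def D0 (x : P2) : ℝ := eta x.1 * rr x + 20 * H (x.1 - 3)

/-- derivative in the first variable -/
noncomputable def D0x (x : P2) : ℝ :=
  h (x.1 - 3) * (20 - 2 * rr x) + eta x.1 * bb x.1 * bd x.1 / rr x

/-- derivative in the second variable -/
noncomputable def D0y (x : P2) : ℝ := eta x.1 * x.2 / rr x

/-- a wall far from the fan -/
noncomputable def nu (x : P2) : ℝ := H (x.1 - 2) * H (5 - x.1) * H (x.2 ^ 2 - 25)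

open Classical in
/-- the unperturbed metric -/
noncomputable def g0 (x : P2) : P2 →L[ℝ] P2 →L[ℝ] ℝ :=
  if 2 < x.1 ∧ x.1 < 5 then
    mk3 (D0x x ^ 2 + (x.2 * bd x.1 / rr x) ^ 2 + nu x)
      (D0x x * D0y x - x.2 * bd x.1 / rr x * (bb x.1 / rr x))
      (D0y x ^ 2 + (bb x.1 / rr x) ^ 2 + nu x)
  else mk3 1 0 1

/-- the secant of the angle with slope `m` -/
noncomputable def SS (m : ℝ) : ℝ := √(1 + m ^ 2)

/-- the curves of the fan -/
noncomputable def cm (m X : ℝ) : P2 := (X, m * bb X)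

/-- their velocity -/
noncomputable def cd (m X : ℝ) : P2 := (1, m * bd X)

/-- arc length along the fan -/
noncomputable def t0 (m X : ℝ) : ℝ := eta X * bb X * SS m + 20 * H (X - 3)

/-- its derivative -/
noncomputable def t0d (m X : ℝ) : ℝ :=
  SS m * eta X ^ 2 + h (X - 3) * (20 - SS m * (2 * bb X - eta X * (7 - 2 * X)))

/-! ### one bump, in coordinates adapted to its ray -/

/-- the shifted coordinate -/
noncomputable def JJ (s ξ : ℝ) : ℝ := ξ - s * H (2 - ξ)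

/-- the distance from the new focus -/
noncomputable def Ds (ε s : ℝ) (y : P2) : ℝ :=
  √(JJ s y.1 ^ 2 + y.2 ^ 2) + (1 - ε) * s * H (2 - y.1)

/-- derivative in the first variable -/
noncomputable def Dsx (ε s : ℝ) (y : P2) : ℝ :=
  JJ s y.1 * (1 + s * h (2 - y.1)) / √(JJ s y.1 ^ 2 + y.2 ^ 2) - (1 - ε) * s * h (2 - y.1)

/-- derivative in the second variable -/
noncomputable def Dsy (s : ℝ) (y : P2) : ℝ := y.2 / √(JJ s y.1 ^ 2 + y.2 ^ 2)

/-- the normalised distance from the ray -/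
noncomputable def sg (ε s : ℝ) (y : P2) : ℝ := (1 - ε) / ε * (√(1 + (y.2 / JJ s y.1) ^ 2) - 1)

/-- the profile of the bump -/
noncomputable def be (σ : ℝ) : ℝ := (1 - σ + σ ^ 2) * H (2 - σ)

/-- the stretching factor -/
noncomputable def Fb (ε s : ℝ) (y : P2) : ℝ := 1 + h (2 - y.1) * (ε * s) * be (sg ε s y)

/-- admissible parameters -/
structure Par (ε s : ℝ) : Prop where
  e0 : 0 < ε
  e1 : ε ≤ 1 / 400
  s0 : 0 < s
  s1 : s ≤ 1 / 2
  s2 : ∀ t, s * h t ≤ 1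

/-! ### all bumps -/

/-- the coordinate along the ray of slope `m` -/
noncomputable def lX (m : ℝ) : P2 →L[ℝ] ℝ := (SS m)⁻¹ • (fX + m • fY)

/-- the coordinate across the ray -/
noncomputable def lY (m : ℝ) : P2 →L[ℝ] ℝ := (SS m)⁻¹ • (fY - m • fX)

/-- the rotation -/
noncomputable def rot (m : ℝ) : P2 →L[ℝ] P2 := (lX m).prod (lY m)

/-- the width parameter -/
noncomputable def ep (m : ℝ) : ℝ := m ^ 2 / 400

/-- the coefficient of the bump on the ray of slope `m` -/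
noncomputable def Bm (m s : ℝ) (x : P2) : ℝ := Fb (ep m) s (rot m x) ^ 2 - 1

/-- a cone around the ray -/
def Cone (m : ℝ) : Set P2 := {x | 0 < x.1 ∧ 4 / 5 * m * x.1 ≤ x.2 ∧ x.2 ≤ 6 / 5 * m * x.1}

/-- the metric `g` has the bump of size `s` on the ray of slope `m` -/
structure Ray (g : Met P2) (m s : ℝ) : Prop where
  m0 : 0 < m
  m1 : m ≤ 1 / 2
  par : Par (ep m) s
  low : ∀ x v, g0 x v v + Bm m s x * lX m v ^ 2 ≤ g x v v
  eqc : ∀ x ∈ Cone m, ∀ v w, g x v w = g0 x v w + Bm m s x * (lX m v * lX m w)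

/-- the metric `g` is a perturbation of the lens -/
structure Base (g : Met P2) : Prop where
  nice : Nice g
  low : ∀ x v, g0 x v v ≤ g x v v
  eq0 : ∀ x : P2, x.2 ≤ 0 ∨ x.1 ≤ 0 ∨ 3 ≤ x.1 ∨ nr x ≤ 1 → g x = g0 x

open Classical in
/-- the calibration for the ray of slope `m` -/
noncomputable def Dk (m s : ℝ) (x : P2) : ℝ :=
  if x.1 ≤ 3 then min (D0 x) (Ds (ep m) s (rot m x)) else D0 x

/-- arc length along the ray with the bump -/
noncomputable def tk (m s X : ℝ) : ℝ := t0 m X - ep m * s * H (2 - SS m * X)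

/-- its derivative -/
noncomputable def tkd (m s X : ℝ) : ℝ := t0d m X + ep m * s * SS m * h (2 - SS m * X)

/-- the base point -/
def pp : P2 := (7, 0)

end Pool.Agent.MP_402458_gt.Sf

end

section

/-! Elementary facts. -/

set_option maxSynthPendingDepth 3

open Set Filter Topology
open scoped ContDiff

namespace Pool.Agent.MP_402458_gt.Sf

@[simp] lemma mk3_apply (A B C : ℝ) (v w : P2) :
    mk3 A B C v w = A * (v.1 * w.1) + B * (v.1 * w.2 + v.2 * w.1) + C * (v.2 * w.2) := by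
  simp [mk3, mul_add]

lemma contDiffAt_mk3 {F : Type} [NormedAddCommGroup F] [NormedSpace ℝ F] {n : WithTop ℕ∞}
    {A B C : F → ℝ} {x : F} (hA : ContDiffAt ℝ n A x) (hB : ContDiffAt ℝ n B x)
    (hC : ContDiffAt ℝ n C x) : ContDiffAt ℝ n (fun y => mk3 (A y) (B y) (C y)) x :=
  ((hA.smul contDiffAt_const).add (hB.smul contDiffAt_const)).add (hC.smul contDiffAt_const)

@[fun_prop] lemma H_contDiff : ContDiff ℝ ∞ H := Real.smoothTransition.contDiff

@[fun_prop] lemma h_contDiff : ContDiff ℝ ∞ h :=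
  (contDiff_infty_iff_deriv.1 (Real.smoothTransition.contDiff (n := ⊤))).2

@[fun_prop] lemma H_cont : Continuous H := H_contDiff.continuous

@[fun_prop] lemma h_cont : Continuous h := h_contDiff.continuous

lemma H_deriv (t : ℝ) : HasDerivAt H (h t) t :=
  (H_contDiff.differentiable (by simp) t).hasDerivAt

lemma H_nonneg (t : ℝ) : 0 ≤ H t := Real.smoothTransition.nonneg t

lemma H_le_one (t : ℝ) : H t ≤ 1 := Real.smoothTransition.le_one t

lemma H_zero {t : ℝ} (ht : t ≤ 0) : H t = 0 := Real.smoothTransition.zero_of_nonpos ht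

lemma H_one {t : ℝ} (ht : 1 ≤ t) : H t = 1 := Real.smoothTransition.one_of_one_le ht

lemma H_pos {t : ℝ} (ht : 0 < t) : 0 < H t := Real.smoothTransition.pos_of_pos ht

lemma H_lt_one {t : ℝ} (ht : t < 1) : H t < 1 := Real.smoothTransition.lt_one_of_lt_one ht

lemma h_nonneg (t : ℝ) : 0 ≤ h t := Real.smoothTransition.monotone.deriv_nonneg

lemma h_zero {t : ℝ} (ht : t ≤ 0 ∨ 1 ≤ t) : h t = 0 := by
  rcases ht with ht | ht
  · exact IsLocalMin.hasDerivAt_eq_zero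
      (Eventually.of_forall fun y => by rw [H_zero ht]; exact H_nonneg y) (H_deriv t)
  · exact IsLocalMax.hasDerivAt_eq_zero
      (Eventually.of_forall fun y => by rw [H_one ht]; exact H_le_one y) (H_deriv t)

lemma h_pos {t : ℝ} (h0 : 0 < t) (h1 : t < 1) : 0 < h t := by
  have d : ∀ x : ℝ, HasDerivAt expNegInvGlue (x⁻¹ ^ 2 * expNegInvGlue x) x := fun x => by
    simpa using expNegInvGlue.hasDerivAt_polynomial_eval_inv_mul 1 x
  have d2 : HasDerivAt (fun x => expNegInvGlue (1 - x))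
      ((1 - t)⁻¹ ^ 2 * expNegInvGlue (1 - t) * (-1)) t :=
    (d (1 - t)).comp t ((hasDerivAt_id t).const_sub 1)
  have p1 := expNegInvGlue.pos_of_pos h0
  have p2 := expNegInvGlue.pos_of_pos (sub_pos.2 h1)
  have d3 := (d t).div ((d t).add d2) (by positivity : expNegInvGlue t + expNegInvGlue (1 - t) ≠ 0)
  rw [(H_deriv t).unique d3]
  refine div_pos ?_ (pow_pos (add_pos p1 p2) 2)
  have q1 : 0 < t⁻¹ ^ 2 := by positivity
  have q2 : 0 < (1 - t)⁻¹ ^ 2 := by have := sub_pos.2 h1; positivity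
  simp only [Pi.add_apply]
  nlinarith [mul_pos (mul_pos q1 p1) p2, mul_pos (mul_pos q2 p1) p2]

lemma h_bdd : ∃ M : ℝ, 0 < M ∧ ∀ t, h t ≤ M := by
  obtain ⟨M, hM⟩ := (isCompact_Icc (a := (0 : ℝ)) (b := 1)).exists_bound_of_continuousOn
    h_cont.continuousOn
  refine ⟨|M| + 1, by positivity, fun t => ?_⟩
  by_cases ht : t ≤ 0 ∨ 1 ≤ t
  · rw [h_zero ht]
    positivity
  · rw [not_or, not_le, not_le] at ht
    have := (le_abs_self _).trans ((hM t ⟨ht.1.le, ht.2.le⟩).trans (le_abs_self M))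
    linarith

lemma SS_sq (m : ℝ) : SS m ^ 2 = 1 + m ^ 2 := Real.sq_sqrt (by positivity)

lemma one_le_SS (m : ℝ) : 1 ≤ SS m := Real.one_le_sqrt.2 (by nlinarith [sq_nonneg m])

lemma SS_pos (m : ℝ) : 0 < SS m := one_pos.trans_le (one_le_SS m)

lemma SS_le {m : ℝ} (hm : |m| ≤ 1) : SS m ≤ 3 / 2 :=
  Real.sqrt_le_iff.2 ⟨by norm_num, by nlinarith [sq_abs m, abs_nonneg m]⟩

lemma lX_apply (m : ℝ) (v : P2) : lX m v = (v.1 + m * v.2) / SS m := by
  simp [lX, div_eq_inv_mul, mul_add]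

lemma lY_apply (m : ℝ) (v : P2) : lY m v = (v.2 - m * v.1) / SS m := by
  simp [lY, div_eq_inv_mul, mul_sub]

@[simp] lemma rot_fst (m : ℝ) (v : P2) : (rot m v).1 = lX m v := rfl

@[simp] lemma rot_snd (m : ℝ) (v : P2) : (rot m v).2 = lY m v := rfl

lemma rot_inner (m : ℝ) (v w : P2) :
    lX m v * lX m w + lY m v * lY m w = v.1 * w.1 + v.2 * w.2 := by
  have h1 := SS_sq m
  have h2 := (SS_pos m).ne'
  rw [lX_apply, lX_apply, lY_apply, lY_apply]
  field_simp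
  rw [h1]
  ring

lemma rot_sq (m : ℝ) (v : P2) : lX m v ^ 2 + lY m v ^ 2 = v.1 ^ 2 + v.2 ^ 2 := by
  simpa only [sq] using rot_inner m v v

lemma nr_rot (m : ℝ) (v : P2) : nr (rot m v) = nr v := by
  simp only [nr, rot_fst, rot_snd, rot_sq]

/-- the point with coordinates `a`, `b` along and across the ray -/
lemma rot_inv (m a b : ℝ) :
    rot m ((a - m * b) / SS m, (m * a + b) / SS m) = (a, b) := by
  have h1 := SS_sq m
  have h2 := (SS_pos m).ne'
  ext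
  · rw [rot_fst, lX_apply]
    field_simp
    rw [h1]
    ring
  · rw [rot_snd, lY_apply]
    field_simp
    rw [h1]
    ring

lemma rot_inj (m : ℝ) : Function.Injective (rot m) := by
  refine (injective_iff_map_eq_zero (rot m)).2 fun v hv => ?_
  have := rot_sq m v
  rw [← rot_fst, ← rot_snd, hv] at this
  ext
  · simp only [Prod.fst_zero, Prod.snd_zero] at this ⊢
    nlinarith [sq_nonneg v.1, sq_nonneg v.2]
  · simp only [Prod.fst_zero, Prod.snd_zero] at this ⊢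
    nlinarith [sq_nonneg v.1, sq_nonneg v.2]

lemma nr_sq (x : P2) : nr x ^ 2 = x.1 ^ 2 + x.2 ^ 2 := Real.sq_sqrt (by positivity)

lemma nr_nonneg (x : P2) : 0 ≤ nr x := Real.sqrt_nonneg _

@[fun_prop] lemma nr_cont : Continuous nr := by unfold nr; fun_prop

lemma nr_add_le (x y : P2) : nr (x + y) ≤ nr x + nr y := by
  have h1 := nr_sq x
  have h2 := nr_sq y
  have h3 : x.1 * y.1 + x.2 * y.2 ≤ nr x * nr y := by
    refine (abs_le_of_sq_le_sq' ?_ (mul_nonneg (nr_nonneg x) (nr_nonneg y))).2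
    rw [mul_pow, h1, h2]
    nlinarith [sq_nonneg (x.1 * y.2 - x.2 * y.1)]
  refine Real.sqrt_le_iff.2 ⟨add_nonneg (nr_nonneg x) (nr_nonneg y), ?_⟩
  simp only [Prod.fst_add, Prod.snd_add]
  nlinarith

lemma bb_left {X : ℝ} (hX : X ≤ 3) : bb X = X := by simp [bb, H_zero (sub_nonpos.2 hX)]

lemma bb_right {X : ℝ} (hX : 4 ≤ X) : bb X = 7 - X := by
  rw [bb, H_one (by linarith)]; ring

lemma bd_left {X : ℝ} (hX : X ≤ 3) : bd X = 1 := by
  simp [bd, H_zero (sub_nonpos.2 hX), h_zero (Or.inl (sub_nonpos.2 hX))]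

lemma bd_right {X : ℝ} (hX : 4 ≤ X) : bd X = -1 := by
  rw [bd, H_one (by linarith), h_zero (Or.inr (by linarith))]; ring

lemma eta_left {X : ℝ} (hX : X ≤ 3) : eta X = 1 := by simp [eta, H_zero (sub_nonpos.2 hX)]

lemma eta_right {X : ℝ} (hX : 4 ≤ X) : eta X = -1 := by
  rw [eta, H_one (by linarith)]; ring

lemma bb_mid {X : ℝ} (h3 : 3 ≤ X) (h4 : X ≤ 4) : 3 ≤ bb X ∧ bb X ≤ 4 := by
  have := H_nonneg (X - 3)
  have := H_le_one (X - 3)
  unfold bb
  constructor <;> nlinarith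

lemma bb_pos {X : ℝ} (h0 : 0 < X) (h7 : X < 7) : 0 < bb X := by
  rcases le_total X 3 with h | h
  · rwa [bb_left h]
  · rcases le_total X 4 with h' | h'
    · linarith [(bb_mid h h').1]
    · rw [bb_right h']; linarith

lemma bb_deriv (X : ℝ) : HasDerivAt bb (bd X) X := by
  have d1 : HasDerivAt (fun X => H (X - 3)) (h (X - 3)) X := by
    simpa using (H_deriv (X - 3)).comp_sub_const X 3
  have d2 : HasDerivAt (fun X : ℝ => 7 - 2 * X) (-2) X := by
    simpa using ((hasDerivAt_id X).const_mul 2).const_sub 7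
  exact ((hasDerivAt_id X).add (d1.mul d2)).congr_deriv (by unfold bd; ring)

@[fun_prop] lemma bb_contDiff : ContDiff ℝ ∞ bb := by unfold bb; fun_prop

@[fun_prop] lemma bd_contDiff : ContDiff ℝ ∞ bd := by unfold bd; fun_prop

@[fun_prop] lemma eta_contDiff : ContDiff ℝ ∞ eta := by unfold eta; fun_prop

lemma D0_left {x : P2} (hx : x.1 ≤ 3) : D0 x = nr x := by
  simp [D0, rr, nr, eta_left hx, bb_left hx, H_zero (sub_nonpos.2 hx)]

lemma D0_right {x : P2} (hx : 4 ≤ x.1) : D0 x = 20 - nr (x - pp) := by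
  rw [D0, rr, nr, eta_right hx, bb_right hx, H_one (by linarith)]
  simp only [pp, Prod.fst_sub, Prod.snd_sub, sub_zero]
  rw [show (7 - x.1) ^ 2 = (x.1 - 7) ^ 2 by ring]
  ring

lemma t0_left (m : ℝ) {X : ℝ} (hX : X ≤ 3) : t0 m X = SS m * X := by
  rw [t0, eta_left hX, bb_left hX, H_zero (sub_nonpos.2 hX)]; ring

lemma t0_right (m : ℝ) {X : ℝ} (hX : 4 ≤ X) : t0 m X = 20 + SS m * (X - 7) := by
  rw [t0, eta_right hX, bb_right hX, H_one (by linarith)]; ring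

lemma t0d_out (m : ℝ) {X : ℝ} (hX : X ≤ 3 ∨ 4 ≤ X) : t0d m X = SS m := by
  rcases hX with hX | hX
  · simp [t0d, eta_left hX, h_zero (Or.inl (sub_nonpos.2 hX))]
  · rw [t0d, eta_right hX, h_zero (Or.inr (by linarith))]; ring

lemma cm_deriv (m X : ℝ) : HasDerivAt (cm m) (cd m X) X :=
  (hasDerivAt_id X).prodMk ((bb_deriv X).const_mul m)

lemma cm_seven (m : ℝ) : cm m 7 = pp := by simp [cm, pp, bb_right (by norm_num : (4 : ℝ) ≤ 7)]

lemma cm_left (m : ℝ) {X : ℝ} (hX : X ≤ 3) : cm m X = (X, m * X) := by rw [cm, bb_left hX]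

lemma rot_cm (m : ℝ) {X : ℝ} (hX : X ≤ 3) : rot m (cm m X) = (SS m * X, 0) := by
  have h1 := SS_sq m
  have h2 := (SS_pos m).ne'
  rw [cm_left m hX]
  ext
  · rw [rot_fst, lX_apply, div_eq_iff h2]
    linear_combination (-X) * h1
  · simp [lY_apply]

lemma JJ_left (s : ℝ) {ξ : ℝ} (hξ : ξ ≤ 1) : JJ s ξ = ξ - s := by
  rw [JJ, H_one (by linarith), mul_one]

lemma JJ_right (s : ℝ) {ξ : ℝ} (hξ : 2 ≤ ξ) : JJ s ξ = ξ := by
  rw [JJ, H_zero (by linarith), mul_zero, sub_zero]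

lemma JJ_le {s : ℝ} (hs : 0 ≤ s) (ξ : ℝ) : ξ - s ≤ JJ s ξ ∧ JJ s ξ ≤ ξ := by
  have := H_nonneg (2 - ξ)
  have := H_le_one (2 - ξ)
  unfold JJ
  constructor <;> nlinarith

end Pool.Agent.MP_402458_gt.Sf

end

section

/-! Geodesics of a uniformly positive metric. -/

set_option maxSynthPendingDepth 3

open Set Filter Topology
open scoped ContDiff

namespace Pool.Agent.MP_402458_gt.Sf

variable {E : Type} [NormedAddCommGroup E] [NormedSpace ℝ E] [FiniteDimensional ℝ E] {g : Met E}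

omit [FiniteDimensional ℝ E] in
lemma pos_Gen (hg : Nice g) (x : E) {v : E} (hv : v ≠ 0) : 0 < g x v v := by
  obtain ⟨C, hC, h⟩ := hg.co
  have h1 : 0 < ‖v‖ ^ 2 := pow_pos (norm_pos_iff.2 hv) 2
  exact (mul_pos_iff_of_pos_left hC).1 (h1.trans_le (h x v))

theorem Nice.nonneg (hg : Nice g) (x v : E) : 0 ≤ g x v v := by
  by_cases hv : v = 0
  · simp [hv]
  · exact (pos_Gen hg x hv).le

theorem Nice.pos (hg : Nice g) (x : E) {v : E} (hv : v ≠ 0) : 0 < g x v v := pos_Gen hg x hv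

theorem Nice.riem (hg : Nice g) : IsRiemannianMetric g :=
  ⟨hg.sm, hg.sy, fun x _ hv => pos_Gen hg x hv⟩

lemma inv_Gen (hg : Nice g) (x : E) : (g x).IsInvertible := by
  have hinj : Function.Injective (g x : E →ₗ[ℝ] E →L[ℝ] ℝ) := by
    refine (injective_iff_map_eq_zero _).2 fun v hv => ?_
    by_contra h
    have h1 := pos_Gen hg x h
    have h2 : g x v = 0 := hv
    rw [h2] at h1
    simp at h1
  have hdim : Module.finrank ℝ E = Module.finrank ℝ (E →L[ℝ] ℝ) := by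
    rw [← (LinearMap.toContinuousLinearMap (𝕜 := ℝ) (E := E) (F' := ℝ)).finrank_eq]
    exact (Subspace.dual_finrank_eq (K := ℝ) (V := E)).symm
  refine ⟨(LinearMap.linearEquivOfInjective _ hinj hdim).toContinuousLinearEquiv, ?_⟩
  ext v w
  rfl

/-- the covector of the geodesic equation -/
noncomputable def cov_Gen (g : Met E) (y : E × E) : E →L[ℝ] ℝ :=
  (1 / 2 : ℝ) • (ContinuousLinearMap.apply ℝ ℝ y.2).comp
      ((ContinuousLinearMap.apply ℝ (E →L[ℝ] ℝ) y.2).comp (fderiv ℝ g y.1)) -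
    fderiv ℝ g y.1 y.2 y.2

/-- the acceleration of a geodesic -/
noncomputable def acc_Gen (g : Met E) (y : E × E) : E := (g y.1).inverse (cov_Gen g y)

omit [FiniteDimensional ℝ E] in
lemma cov_apply_Gen (y : E × E) (w : E) :
    cov_Gen g y w = 1 / 2 * fderiv ℝ g y.1 w y.2 y.2 - fderiv ℝ g y.1 y.2 y.2 w := by
  simp [cov_Gen]

omit [FiniteDimensional ℝ E] in
lemma cov_smooth_Gen (hg : Nice g) : ContDiff ℝ 1 (cov_Gen g) := by
  have h1 : ContDiff ℝ 1 (fderiv ℝ g) := hg.sm.fderiv_right (m := 1) (by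
    rw [one_add_one_eq_two]
    exact WithTop.coe_le_coe.2 (le_top : (2 : ℕ∞) ≤ ⊤))
  have h2 : ContDiff ℝ 1 (fun y : E × E => fderiv ℝ g y.1) := h1.comp contDiff_fst
  have h3 : ContDiff ℝ 1 (fun y : E × E => ContinuousLinearMap.apply ℝ ℝ y.2) :=
    (ContinuousLinearMap.apply ℝ ℝ (E := E)).contDiff.comp contDiff_snd
  have h4 : ContDiff ℝ 1 (fun y : E × E => ContinuousLinearMap.apply ℝ (E →L[ℝ] ℝ) y.2) :=
    (ContinuousLinearMap.apply ℝ (E →L[ℝ] ℝ) (E := E)).contDiff.comp contDiff_snd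
  exact ((h3.clm_comp (h4.clm_comp h2)).const_smul (1 / 2 : ℝ)).sub
    ((h2.clm_apply contDiff_snd).clm_apply contDiff_snd)

lemma acc_smooth_Gen (hg : Nice g) : ContDiff ℝ 1 (acc_Gen g) := by
  have : CompleteSpace E := FiniteDimensional.complete ℝ E
  have h0 : ContDiff ℝ 1 g := hg.sm.of_le (by exact_mod_cast (le_top : (1 : ℕ∞) ≤ ⊤))
  have h1 : ContDiff ℝ 1 (fun x : E => (g x).inverse) := contDiff_iff_contDiffAt.2 fun x =>
    ((inv_Gen hg x).contDiffAt_map_inverse (n := 1)).comp x h0.contDiffAt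
  exact (h1.comp contDiff_fst).clm_apply (cov_smooth_Gen hg)

lemma geod_eq_iff_Gen (hg : Nice g) (x v a : E) :
    (∀ w : E, g x a w + fderiv ℝ g x v v w - (1 / 2) * fderiv ℝ g x w v v = 0) ↔
      a = acc_Gen g (x, v) := by
  rw [eq_comm, acc_Gen, (inv_Gen hg x).inverse_apply_eq, ContinuousLinearMap.ext_iff]
  refine forall_congr' fun w => ?_
  rw [cov_apply_Gen]
  constructor <;> intro h <;> simp only at h ⊢ <;> linarith

lemma isGeodesic_iff_Gen (hg : Nice g) (γ : ℝ → E) :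
    IsGeodesic g γ ↔ ContDiff ℝ 2 γ ∧ ∀ t, deriv (deriv γ) t = acc_Gen g (γ t, deriv γ t) := by
  unfold IsGeodesic
  simp only [geod_eq_iff_Gen hg]

omit [FiniteDimensional ℝ E] in
lemma two_Gen {γ : ℝ → E} (h : ContDiff ℝ 2 γ) (t : ℝ) :
    HasDerivAt γ (deriv γ t) t ∧ HasDerivAt (deriv γ) (deriv (deriv γ) t) t := by
  have h' : ContDiff ℝ (1 + 1) γ := by rw [one_add_one_eq_two]; exact h
  rw [contDiff_succ_iff_deriv] at h'
  exact ⟨(h'.1 t).hasDerivAt, ((h'.2.2.differentiable (by simp)) t).hasDerivAt⟩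

lemma lift_Gen (hg : Nice g) {γ : ℝ → E} (h : IsGeodesic g γ) (t : ℝ) :
    HasDerivAt (fun t => (γ t, deriv γ t)) (deriv γ t, acc_Gen g (γ t, deriv γ t)) t := by
  rw [isGeodesic_iff_Gen hg] at h
  have h1 := two_Gen h.1 t
  rw [← h.2 t]
  exact h1.1.prodMk h1.2

theorem Nice.geo_unique (hg : Nice g) {γ δ : ℝ → E} (hγ : IsGeodesic g γ) (hδ : IsGeodesic g δ)
    {t₀ : ℝ} (h0 : γ t₀ = δ t₀) (h1 : deriv γ t₀ = deriv δ t₀) : γ = δ := by
  have hX : ContDiff ℝ 1 (fun y : E × E => (y.2, acc_Gen g y)) :=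
    contDiff_snd.prodMk (acc_smooth_Gen hg)
  funext t
  have ha : t₀ ∈ Ioo (min t t₀ - 1) (max t t₀ + 1) :=
    ⟨by linarith [min_le_right t t₀], by linarith [le_max_right t t₀]⟩
  have hb : t ∈ Ioo (min t t₀ - 1) (max t t₀ + 1) :=
    ⟨by linarith [min_le_left t t₀], by linarith [le_max_left t t₀]⟩
  have := ode_unique_Ioo (X := fun y : E × E => (y.2, acc_Gen g y)) hX
    (α := fun t => (γ t, deriv γ t)) (β := fun t => (δ t, deriv δ t)) ha
    (fun s _ => lift_Gen hg hγ s) (fun s _ => lift_Gen hg hδ s) (by simp [h0, h1]) hb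
  exact congrArg Prod.fst this

lemma of_hasDerivAt_Gen (hg : Nice g) {γ v : ℝ → E} (h1 : ∀ t, HasDerivAt γ (v t) t)
    (h2 : ∀ t, HasDerivAt v (acc_Gen g (γ t, v t)) t) : IsGeodesic g γ := by
  have e1 : deriv γ = v := funext fun t => (h1 t).deriv
  have e2 : deriv v = fun t => acc_Gen g (γ t, v t) := funext fun t => (h2 t).deriv
  have c1 : Continuous γ := continuous_iff_continuousAt.2 fun t => (h1 t).continuousAt
  have c2 : Continuous v := continuous_iff_continuousAt.2 fun t => (h2 t).continuousAt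
  rw [isGeodesic_iff_Gen hg]
  refine ⟨?_, fun t => by rw [e1, e2]⟩
  suffices h' : ContDiff ℝ (1 + 1) γ by rwa [one_add_one_eq_two] at h'
  rw [contDiff_succ_iff_deriv]
  refine ⟨fun t => (h1 t).differentiableAt, by simp, ?_⟩
  rw [e1, contDiff_one_iff_deriv]
  refine ⟨fun t => (h2 t).differentiableAt, ?_⟩
  rw [e2]
  exact (acc_smooth_Gen hg).continuous.comp (c1.prodMk c2)

omit [FiniteDimensional ℝ E] in
lemma energy_Gen (hg : Nice g) (y : E × E) : ∃ D : E × E →L[ℝ] ℝ,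
    HasFDerivAt (fun y : E × E => g y.1 y.2 y.2) D y ∧
      ∀ z : E × E, D z = fderiv ℝ g y.1 z.1 y.2 y.2 + g y.1 z.2 y.2 + g y.1 y.2 z.2 := by
  have h1 : HasFDerivAt (fun y : E × E => g y.1)
      ((fderiv ℝ g y.1).comp (ContinuousLinearMap.fst ℝ E E)) y :=
    ((hg.sm.differentiable (by simp)) y.1).hasFDerivAt.comp y hasFDerivAt_fst
  have h2 : HasFDerivAt (fun y : E × E => y.2) (ContinuousLinearMap.snd ℝ E E) y :=
    hasFDerivAt_snd
  refine ⟨_, (h1.clm_apply h2).clm_apply h2, fun z => ?_⟩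
  simp
  ring

lemma conserved_Gen (hg : Nice g) (y : E × E) :
    fderiv ℝ (fun y : E × E => g y.1 y.2 y.2) y (y.2, acc_Gen g y) = 0 := by
  obtain ⟨D, hD, hD'⟩ := energy_Gen hg y
  rw [hD.fderiv, hD']
  have h := (geod_eq_iff_Gen hg y.1 y.2 (acc_Gen g y)).2 rfl y.2
  have hs := hg.sy y.1 y.2 (acc_Gen g y)
  simp only at h hs ⊢
  linarith

theorem Nice.geo_exists (hg : Nice g) (p v : E) :
    ∃ γ : ℝ → E, IsGeodesic g γ ∧ γ 0 = p ∧ deriv γ 0 = v := by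
  obtain ⟨C, -, hC⟩ := hg.co
  obtain ⟨α, h0, hα⟩ := second_order_global (a := acc_Gen g) (acc_smooth_Gen hg)
    (H := fun y : E × E => g y.1 y.2 y.2)
    (fun y => (energy_Gen hg y).choose_spec.1.differentiableAt) (conserved_Gen hg)
    (C := C) (fun y => hC y.1 y.2) (p, v)
  have h1 : ∀ t, HasDerivAt (fun t => (α t).1) ((α t).2) t := fun t =>
    (ContinuousLinearMap.fst ℝ E E).hasFDerivAt.comp_hasDerivAt t (hα t)
  have h2 : ∀ t, HasDerivAt (fun t => (α t).2) (acc_Gen g (α t)) t := fun t =>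
    (ContinuousLinearMap.snd ℝ E E).hasFDerivAt.comp_hasDerivAt t (hα t)
  refine ⟨fun t => (α t).1, of_hasDerivAt_Gen hg h1 h2, by simp [h0], ?_⟩
  rw [(h1 0).deriv, h0]

omit [FiniteDimensional ℝ E] in
lemma scale_Gen {γ : ℝ → E} (hγ : IsGeodesic g γ) (t : ℝ) :
    IsGeodesic g (fun s => γ (t * s)) ∧
      deriv (fun s => γ (t * s)) = fun s => t • deriv γ (t * s) := by
  have hc : ∀ s : ℝ, HasDerivAt (fun s => t * s) t s := fun s => by
    simpa using (hasDerivAt_id s).const_mul t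
  have e1 : deriv (fun s => γ (t * s)) = fun s => t • deriv γ (t * s) :=
    funext fun s => ((two_Gen hγ.1 (t * s)).1.scomp s (hc s)).deriv
  have e2 : deriv (fun s => t • deriv γ (t * s)) =
      fun s => t • t • deriv (deriv γ) (t * s) :=
    funext fun s => (((two_Gen hγ.1 (t * s)).2.scomp s (hc s)).const_smul t).deriv
  refine ⟨⟨hγ.1.comp (contDiff_const.mul contDiff_id), fun s w => ?_⟩, e1⟩
  rw [e1, e2]
  have h := hγ.2 (t * s) w
  simp only [map_smul, smul_apply, smul_eq_mul]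
  linear_combination (t * t) * h

theorem Nice.exp_eq (hg : Nice g) {γ : ℝ → E} (hγ : IsGeodesic g γ) (t : ℝ) :
    expMap g (γ 0) (t • deriv γ 0) = γ t := by
  unfold expMap
  have h := Classical.epsilon_spec (hg.geo_exists (γ 0) (t • deriv γ 0))
  obtain ⟨k1, k2⟩ := scale_Gen hγ t
  rw [hg.geo_unique h.1 k1 (t₀ := 0) (by rw [h.2.1, mul_zero]) (by rw [h.2.2, k2]; simp)]
  simp only [mul_one]

end Pool.Agent.MP_402458_gt.Sf

end

section

/-! The Riemannian distance. -/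

set_option maxSynthPendingDepth 3
set_option linter.unusedSectionVars false

open Set Filter Topology
open scoped ContDiff

namespace Pool.Agent.MP_402458_gt.Sf

variable {E : Type} [NormedAddCommGroup E] [NormedSpace ℝ E] [FiniteDimensional ℝ E] {g : Met E}

omit [FiniteDimensional ℝ E] in
theorem speed_Dst (hg : Nice g) {c v : ℝ → E} (hc : ∀ t, HasDerivAt c (v t) t)
    (hv : Continuous v) : Continuous fun t => √(g (c t) (v t) (v t)) := by
  have h1 : Continuous c := continuous_iff_continuousAt.2 fun t => (hc t).continuousAt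
  exact (((hg.sm.continuous.comp h1).clm_apply hv).clm_apply hv).sqrt

omit [FiniteDimensional ℝ E] in
theorem sqrt_smul_Dst (x w : E) {r : ℝ} (hr : 0 ≤ r) :
    √(g x (r • w) (r • w)) = √(g x w w) * r := by
  rw [map_smul, map_smul, smul_apply, smul_eq_mul, smul_eq_mul, ← mul_assoc,
    Real.sqrt_mul (mul_self_nonneg r), Real.sqrt_mul_self hr, mul_comm]

omit [FiniteDimensional ℝ E] in
theorem repar_Dst (hg : Nice g) {c v : ℝ → E} (hc : ∀ t, HasDerivAt c (v t) t)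
    (hv : Continuous v) {φ ψ : ℝ → ℝ} (hφ : ∀ s, HasDerivAt φ (ψ s) s) (hψ : Continuous ψ)
    (h0 : ∀ s, 0 ≤ ψ s) (a b : ℝ) :
    ∫ s in a..b, √(g (c (φ s)) (ψ s • v (φ s)) (ψ s • v (φ s))) =
      ∫ t in φ a..φ b, √(g (c t) (v t) (v t)) := by
  rw [← intervalIntegral.integral_comp_mul_deriv (fun s _ => hφ s) hψ.continuousOn
    (speed_Dst hg hc hv)]
  exact intervalIntegral.integral_congr fun s _ => sqrt_smul_Dst _ _ (h0 s)

omit [FiniteDimensional ℝ E] in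
theorem unit_Dst {c v : ℝ → E} (hc : ∀ t, HasDerivAt c (v t) t) (hv : Continuous v) :
    riemDist g (c 0) (c 1) ≤ ∫ t in (0 : ℝ)..1, √(g (c t) (v t) (v t)) := by
  have e : deriv c = v := funext fun t => (hc t).deriv
  apply csInf_le
  · refine ⟨0, ?_⟩
    rintro L ⟨c, -, -, -, rfl⟩
    exact intervalIntegral.integral_nonneg zero_le_one fun t _ => Real.sqrt_nonneg _
  · refine ⟨c, contDiff_one_iff_deriv.2 ⟨fun t => (hc t).differentiableAt, e ▸ hv⟩, rfl, rfl, ?_⟩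
    rw [e]

omit [FiniteDimensional ℝ E] in
theorem le_Dst {p q : E} {L : ℝ}
    (h : ∀ c v : ℝ → E, (∀ t, HasDerivAt c (v t) t) → Continuous v → c 0 = p → c 1 = q →
      L ≤ ∫ t in (0 : ℝ)..1, √(g (c t) (v t) (v t))) : L ≤ riemDist g p q := by
  apply le_csInf
  · refine ⟨_, fun t => p + t • (q - p), by fun_prop, by simp, by simp, rfl⟩
  · rintro L ⟨c, hc, h0, h1, rfl⟩
    exact h c (deriv c) (fun t => (hc.differentiable (by simp) t).hasDerivAt)
      hc.continuous_deriv_one h0 h1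

theorem geo_deriv {γ : ℝ → E} (hγ : IsGeodesic g γ) :
    (∀ t, HasDerivAt γ (deriv γ t) t) ∧ Continuous (deriv γ) :=
  ⟨fun t => (hγ.1.differentiable (by simp) t).hasDerivAt, hγ.1.continuous_deriv (by simp)⟩

theorem Nice.dist_le (hg : Nice g) {c v : ℝ → E} (hc : ∀ t, HasDerivAt c (v t) t)
    (hv : Continuous v) {a b : ℝ} (hab : a ≤ b) :
    riemDist g (c a) (c b) ≤ ∫ t in a..b, √(g (c t) (v t) (v t)) := by
  have hφ : ∀ s : ℝ, HasDerivAt (fun s => a + s * (b - a)) (b - a) s := fun s => by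
    simpa using ((hasDerivAt_id s).mul_const (b - a)).const_add a
  have h1 := unit_Dst (g := g) (c := fun s => c (a + s * (b - a)))
    (v := fun s => (b - a) • v (a + s * (b - a))) (fun s => (hc _).scomp s (hφ s)) (by fun_prop)
  have h2 := repar_Dst hg hc hv (ψ := fun _ => b - a) hφ continuous_const
    (fun _ => sub_nonneg.2 hab) 0 1
  rw [h2] at h1
  simpa using h1

theorem Nice.dist_triangle (hg : Nice g) (x y z : E) :
    riemDist g x z ≤ riemDist g x y + riemDist g y z := by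
  rw [← sub_le_iff_le_add]
  refine le_Dst fun c v hc hv h0 h1 => ?_
  rw [sub_le_comm]
  refine le_Dst fun d w hd hw k0 k1 => ?_
  rw [sub_le_iff_le_add']
  have p1 : ∀ s : ℝ, HasDerivAt (fun s => H (s + 1)) (h (s + 1)) s := fun s =>
    (H_deriv (s + 1)).comp_add_const s 1
  have q : ∀ t, HasDerivAt (fun t => c (H (t + 1)) + d (H t) - y)
      (h (t + 1) • v (H (t + 1)) + h t • w (H t)) t := fun t =>
    (((hc _).scomp t (p1 t)).add ((hd _).scomp t (H_deriv t))).sub_const y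
  have qc : Continuous fun t => h (t + 1) • v (H (t + 1)) + h t • w (H t) := by fun_prop
  have h2 := hg.dist_le q qc (a := -1) (b := 1) (by norm_num)
  have hs := speed_Dst hg q qc
  rw [← intervalIntegral.integral_add_adjacent_intervals (b := 0) (hs.intervalIntegrable _ _)
    (hs.intervalIntegrable _ _)] at h2
  have e1 := repar_Dst hg hc hv p1 (by fun_prop) (fun s => h_nonneg _) (-1) 0
  have e2 := repar_Dst hg hd hw H_deriv h_cont h_nonneg 0 1
  rw [H_zero (t := -1 + 1) (by norm_num), H_one (t := 0 + 1) (by norm_num)] at e1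
  rw [H_zero le_rfl, H_one le_rfl] at e2
  rw [H_zero (t := -1 + 1) (by norm_num), H_zero (t := -1) (by norm_num),
    H_one (t := 1 + 1) (by norm_num), H_one le_rfl, h0, h1, k0, k1, add_sub_cancel_right,
    add_sub_cancel_left] at h2
  refine h2.trans (le_of_eq ?_)
  rw [← e1, ← e2]
  congr 1
  · refine intervalIntegral.integral_congr fun s hs => ?_
    rw [uIcc_of_le (by norm_num)] at hs
    simp only [H_zero hs.2, h_zero (Or.inl hs.2), k0, zero_smul, add_zero, add_sub_cancel_right]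
  · refine intervalIntegral.integral_congr fun s hs => ?_
    rw [uIcc_of_le (by norm_num)] at hs
    have h3 : 1 ≤ s + 1 := by linarith [hs.1]
    simp only [H_one h3, h_zero (Or.inr h3), h1, zero_smul, zero_add, add_sub_cancel_left]

theorem Cal.curve {U : E → ℝ} (hU : Cal g U) (hg : Nice g) {c v : ℝ → E}
    (hc : ∀ t, HasDerivAt c (v t) t) (hv : Continuous v) {a b : ℝ} (hab : a ≤ b) :
    U (c a) - U (c b) ≤ ∫ t in a..b, √(g (c t) (v t) (v t)) := by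
  have hs := speed_Dst hg hc hv
  have h1 : Continuous c := continuous_iff_continuousAt.2 fun t => (hc t).continuousAt
  have hB : ∀ x, HasDerivAt (fun t => ∫ s in a..t, √(g (c s) (v s) (v s)))
      (√(g (c x) (v x) (v x))) x := fun x => (hs.integral_hasStrictDerivAt a x).hasDerivAt
  refine image_le_of_liminf_slope_right_le_deriv_boundary (f := fun t => U (c a) - U (c t))
    (B := fun t => ∫ s in a..t, √(g (c s) (v s) (v s))) (a := a) (b := b)
    (continuous_const.sub (hU.1.comp h1)).continuousOn (by simp)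
    (fun x _ => (hB x).continuousAt.continuousWithinAt) (fun x _ => (hB x).hasDerivWithinAt)
    (fun x _ r hr => Eventually.frequently ?_) ⟨hab, le_rfl⟩
  obtain ⟨ε, hε, h2⟩ : ∃ ε : ℝ, 0 < ε ∧ √(g (c x) (v x) (v x)) + ε * ‖v x‖ < r := by
    have h3 : Tendsto (fun ε : ℝ => √(g (c x) (v x) (v x)) + ε * ‖v x‖) (𝓝[>] 0)
        (𝓝 (√(g (c x) (v x) (v x)) + 0 * ‖v x‖)) :=
      (Continuous.tendsto (by fun_prop) 0).mono_left nhdsWithin_le_nhds
    rw [zero_mul, add_zero] at h3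
    obtain ⟨ε, h4, h5⟩ := ((h3.eventually (gt_mem_nhds hr)).and self_mem_nhdsWithin).exists
    exact ⟨ε, h5, h4⟩
  have h3 : Tendsto (slope c x) (𝓝[>] x) (𝓝 (v x)) :=
    (hasDerivAt_iff_tendsto_slope.1 (hc x)).mono_left (nhdsGT_le_nhdsNE x)
  have h4 : Continuous fun u : E => √(g (c x) u u) + ε * ‖u‖ := by fun_prop
  have h5 := ((h4.tendsto (v x)).comp h3).eventually (gt_mem_nhds h2)
  have h6 := ((h1.tendsto x).mono_left (nhdsWithin_le_nhds (s := Ioi x))).eventually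
    (hU.2 (c x) ε hε)
  filter_upwards [h5, h6, self_mem_nhdsWithin] with z k5 k6 k7
  have k8 : 0 < z - x := sub_pos.2 k7
  refine lt_of_le_of_lt ?_ k5
  simp only [Function.comp, slope, vsub_eq_sub]
  rw [sqrt_smul_Dst _ _ (inv_pos.2 k8).le, norm_smul, Real.norm_of_nonneg (inv_pos.2 k8).le,
    smul_eq_mul]
  have k9 := mul_le_mul_of_nonneg_left k6 (inv_pos.2 k8).le
  linarith

theorem Cal.le_dist {U : E → ℝ} (hU : Cal g U) (hg : Nice g) (x y : E) :
    U x - U y ≤ riemDist g x y := by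
  refine le_Dst fun c v hc hv h0 h1 => ?_
  rw [← h0, ← h1]
  exact hU.curve hg hc hv zero_le_one

theorem Cal.ug {U : E → ℝ} (hU : Cal g U) (hg : Nice g) {γ : ℝ → E} (hγ : UG g γ) {a b : ℝ}
    (hab : a ≤ b) : U (γ a) - U (γ b) ≤ b - a := by
  simpa [hγ.2] using hU.curve hg (geo_deriv hγ.1).1 (geo_deriv hγ.1).2 hab

theorem UG.dist_le {γ : ℝ → E} (hγ : UG g γ) (hg : Nice g) {a b : ℝ} (hab : a ≤ b) :
    riemDist g (γ a) (γ b) ≤ b - a := by
  simpa [hγ.2] using hg.dist_le (geo_deriv hγ.1).1 (geo_deriv hγ.1).2 hab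

theorem norm_le_Dst (hg : Nice g) : ∃ K : ℝ, 0 < K ∧ ∀ p q : E, ‖q - p‖ / K ≤ riemDist g p q := by
  obtain ⟨C, hC, h⟩ := hg.co
  have := FiniteDimensional.complete ℝ E
  have hK : 0 < √C := Real.sqrt_pos.2 hC
  refine ⟨√C, hK, fun p q => le_Dst fun c v hc hv h0 h1 => ?_⟩
  have e := intervalIntegral.integral_eq_sub_of_hasDerivAt (a := 0) (b := 1)
    (fun t _ => hc t) (hv.intervalIntegrable 0 1)
  rw [h0, h1] at e
  rw [← e, div_le_iff₀ hK, ← intervalIntegral.integral_mul_const]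
  refine intervalIntegral.norm_integral_le_of_norm_le zero_le_one
    (Eventually.of_forall fun t _ => ?_)
    (((speed_Dst hg hc hv).mul continuous_const).intervalIntegrable 0 1)
  rw [mul_comm, ← Real.sqrt_mul hC.le]
  exact Real.le_sqrt_of_sq_le (h _ _)

theorem Nice.complete (hg : Nice g) : IsCompleteMetric g := by
  obtain ⟨K, hK, h⟩ := norm_le_Dst hg
  refine ⟨fun u hu => ?_, fun p v => ?_⟩
  · have := FiniteDimensional.complete ℝ E
    apply cauchySeq_tendsto_of_complete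
    rw [Metric.cauchySeq_iff]
    intro ε hε
    obtain ⟨N, hN⟩ := hu (ε / K) (by positivity)
    refine ⟨N, fun m hm n hn => ?_⟩
    have h1 := (h (u n) (u m)).trans_lt (hN n hn m hm)
    rwa [dist_eq_norm, ← div_lt_div_iff_of_pos_right hK]
  · obtain ⟨γ, hγ⟩ := hg.geo_exists p v
    exact ⟨γ, hγ, fun δ hδ => hg.geo_unique hδ.1 hγ.1 (hδ.2.1.trans hγ.2.1.symm)
      (hδ.2.2.trans hγ.2.2.symm)⟩

theorem cal_of_deriv {U : E → ℝ} {U' : E →L[ℝ] ℝ} {x : E} (hd : HasFDerivAt U U' x)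
    (hle : ∀ v, U' v ^ 2 ≤ g x v v) (ε : ℝ) (hε : 0 < ε) :
    ∀ᶠ y in 𝓝 x, U x - U y ≤ √(g x (y - x) (y - x)) + ε * ‖y - x‖ := by
  filter_upwards [hd.isLittleO.bound hε] with y hy
  have h1 := abs_le.1 (Real.abs_le_sqrt (hle (y - x)))
  rw [Real.norm_eq_abs] at hy
  have h2 := abs_le.1 hy
  linarith [h1.1, h2.1]

end Pool.Agent.MP_402458_gt.Sf

end

section

/-! Cut points. -/

set_option maxSynthPendingDepth 3
set_option linter.unusedSectionVars false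

open Set Filter Topology
open scoped ContDiff

namespace Pool.Agent.MP_402458_gt.Sf

variable {E : Type} [NormedAddCommGroup E] [NormedSpace ℝ E] [FiniteDimensional ℝ E] {g : Met E}

theorem cut_of (hg : Nice g) {γ : ℝ → E} (hγ : UG g γ) {L δ : ℝ} (hL : 0 ≤ L) (hδ : 0 < δ)
    (h1 : riemDist g (γ 0) (γ L) = L)
    (h2 : ∀ τ, 0 < τ → τ < δ → riemDist g (γ 0) (γ (L + τ)) < L + τ) :
    L • deriv γ 0 ∈ tangentCutLocus g (γ 0) := by
  have hcut : cutTime g (γ 0) (deriv γ 0) = ((NNReal.mk L hL : NNReal) : ENNReal) := by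
    unfold cutTime
    apply le_antisymm
    · refine iSup₂_le fun t ht => ?_
      rw [ENNReal.coe_le_coe, ← NNReal.coe_le_coe]
      by_contra hlt
      have hlt' : L < (t : ℝ) := not_le.1 hlt
      have ht' : riemDist g (γ 0) (expMap g (γ 0) ((t : ℝ) • deriv γ 0)) = t := ht
      rw [hg.exp_eq hγ.1] at ht'
      have a0 : 0 < min (δ / 2) ((t : ℝ) - L) := lt_min (by linarith) (by linarith)
      have a1 : min (δ / 2) ((t : ℝ) - L) ≤ δ / 2 := min_le_left _ _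
      have a2 : min (δ / 2) ((t : ℝ) - L) ≤ (t : ℝ) - L := min_le_right _ _
      generalize min (δ / 2) ((t : ℝ) - L) = τ at a0 a1 a2
      have b1 := h2 τ a0 (by linarith)
      have b2 := hg.dist_triangle (γ 0) (γ (L + τ)) (γ t)
      have b3 := hγ.dist_le hg (a := L + τ) (b := t) (by linarith)
      linarith
    · refine le_iSup₂_of_le (NNReal.mk L hL) ?_ le_rfl
      change riemDist g (γ 0) (expMap g (γ 0) (L • deriv γ 0)) = L
      rw [hg.exp_eq hγ.1, h1]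
  refine ⟨deriv γ 0, hγ.2 0, ?_, ?_⟩
  · rw [hcut]; exact ENNReal.coe_lt_top
  · rw [hcut]; rfl

theorem not_sep {p q : E} {γ : ℝ → E} (h : ∀ σ l, IsSegment g p σ l → σ l = q → σ = γ) :
    q ∉ separatingSet g p := by
  rintro ⟨γ₁, γ₂, l, s1, s2, e1, e2, hne⟩
  apply hne
  rw [h γ₁ l s1 e1, h γ₂ l s2 e2]
  exact fun _ _ => rfl

theorem Bad.q1 {p : E} (h : Bad g p) : ∃ u ∈ tangentSeparatingSet g p,
    u ∈ closure (tangentCutLocus g p \ tangentSeparatingSet g p) := by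
  obtain ⟨u, hu, w, hw, ht, -⟩ := h
  exact ⟨u, hu, mem_closure_of_tendsto ht (Eventually.of_forall hw)⟩

theorem Bad.q2 {p : E} (h : Bad g p) : ∃ q ∈ separatingSet g p ∩ cutLocus g p,
    q ∈ closure (cutLocus g p \ separatingSet g p) := by
  obtain ⟨u, hu, w, hw, -, ht⟩ := h
  refine ⟨expMap g p u, ⟨hu.2, u, hu.1, rfl⟩,
    mem_closure_of_tendsto ht (Eventually.of_forall fun k => ?_)⟩
  exact ⟨⟨w k, (hw k).1, rfl⟩, fun hs => (hw k).2 ⟨(hw k).1, hs⟩⟩

theorem vel_eq (hg : Nice g) {x u v : E} (U' : E →L[ℝ] ℝ) (h1 : ∀ w, g x u w = -U' w)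
    (hu : g x u u = 1) (hv : g x v v = 1) (h2 : U' v = -1) : v = u := by
  have a1 : g x u v = 1 := by rw [h1, h2, neg_neg]
  have a2 : g x v u = 1 := by rw [hg.sy, a1]
  have a3 : g x (v - u) (v - u) = 0 := by
    simp only [map_sub, ContinuousLinearMap.sub_apply, a1, a2, hu, hv]
    ring
  by_contra hne
  exact (hg.pos x (sub_ne_zero.2 hne)).ne' a3

theorem nice_of_compact (sm : ContDiff ℝ ∞ g) (sy : ∀ x v w, g x v w = g x w v)
    (pos : ∀ x v, v ≠ 0 → 0 < g x v v) {K : Set E} (hK : IsCompact K) {C : ℝ} (hC : 0 < C)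
    (hout : ∀ x ∉ K, ∀ v, ‖v‖ ^ 2 ≤ C * g x v v) : Nice g := by
  have hc : Continuous fun z : E × E => g z.1 z.2 z.2 :=
    ((sm.continuous.comp continuous_fst).clm_apply continuous_snd).clm_apply continuous_snd
  have hKS : IsCompact (K ×ˢ Metric.sphere (0 : E) 1) := hK.prod (isCompact_sphere 0 1)
  obtain ⟨c, c0, hcl⟩ := hKS.exists_forall_le' (a := (0 : ℝ)) hc.continuousOn (by
    rintro ⟨x, v⟩ ⟨-, hv⟩
    refine pos x v ?_
    rintro rfl
    simp at hv)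
  refine ⟨sm, sy, max C c⁻¹, lt_max_of_lt_left hC, fun x v => ?_⟩
  by_cases hv : v = 0
  · simp [hv]
  have hp := pos x v hv
  by_cases hx : x ∈ K
  · have hn : 0 < ‖v‖ := norm_pos_iff.2 hv
    have h1 := hcl (x, ‖v‖⁻¹ • v) ⟨hx, by
      simp [norm_smul, hn.ne']⟩
    simp only [map_smul, ContinuousLinearMap.smul_apply, smul_eq_mul] at h1
    have h2 : c * ‖v‖ ^ 2 ≤ g x v v := by
      have := mul_le_mul_of_nonneg_right h1 (sq_nonneg ‖v‖)
      have e : ‖v‖⁻¹ * (‖v‖⁻¹ * g x v v) * ‖v‖ ^ 2 = g x v v := by field_simp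
      rwa [e] at this
    have h3 : ‖v‖ ^ 2 ≤ c⁻¹ * g x v v := by
      rw [inv_mul_eq_div, le_div_iff₀ c0]; linarith
    exact h3.trans (mul_le_mul_of_nonneg_right (le_max_right _ _) hp.le)
  · exact (hout x hx v).trans (mul_le_mul_of_nonneg_right (le_max_left _ _) hp.le)

end Pool.Agent.MP_402458_gt.Sf

end

section

/-! The lens. -/

set_option maxSynthPendingDepth 3

open Set Filter Topology
open scoped ContDiff

namespace Pool.Agent.MP_402458_gt.Sf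

lemma sq_pos_Lens {x : P2} (h0 : x ≠ 0) (h7 : x ≠ pp) : 0 < bb x.1 ^ 2 + x.2 ^ 2 := by
  by_contra hc
  have hb : bb x.1 = 0 := by nlinarith [sq_nonneg (bb x.1), sq_nonneg x.2]
  have hy : x.2 = 0 := by nlinarith [sq_nonneg (bb x.1), sq_nonneg x.2]
  rcases le_total x.1 3 with h | h
  · rw [bb_left h] at hb
    exact h0 (Prod.ext hb hy)
  · rcases le_total x.1 4 with h' | h'
    · linarith [(bb_mid h h').1]
    · rw [bb_right h'] at hb
      exact h7 (Prod.ext (by simp only [pp]; linarith) hy)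

lemma rr_sq_Lens (x : P2) : rr x ^ 2 = bb x.1 ^ 2 + x.2 ^ 2 := Real.sq_sqrt (by positivity)

lemma rr_pos_Lens {x : P2} (h0 : x ≠ 0) (h7 : x ≠ pp) : 0 < rr x :=
  Real.sqrt_pos.2 (sq_pos_Lens h0 h7)

lemma ne_Lens {x : P2} (h2 : 2 < x.1) (h5 : x.1 < 5) : x ≠ 0 ∧ x ≠ pp := by
  constructor
  · rintro rfl
    simp only [Prod.fst_zero] at h2
    linarith
  · rintro rfl
    simp only [pp] at h5
    linarith

lemma rr_smooth_Lens {x : P2} (h0 : x ≠ 0) (h7 : x ≠ pp) : ContDiffAt ℝ ∞ rr x := by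
  have h1 : ContDiff ℝ ∞ (fun y : P2 => bb y.1 ^ 2 + y.2 ^ 2) := by fun_prop
  exact h1.contDiffAt.sqrt (sq_pos_Lens h0 h7).ne'

lemma nu_smooth_Lens : ContDiff ℝ ∞ nu := by unfold nu; fun_prop

lemma nu_nonneg_Lens (x : P2) : 0 ≤ nu x :=
  mul_nonneg (mul_nonneg (H_nonneg _) (H_nonneg _)) (H_nonneg _)

theorem D0_cont : Continuous D0 := by
  have h1 := bb_contDiff.continuous
  have h2 := eta_contDiff.continuous
  unfold D0 rr
  fun_prop

lemma eta_deriv_Lens (X : ℝ) : HasDerivAt eta (-2 * h (X - 3)) X := by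
  have d1 : HasDerivAt (fun X => H (X - 3)) (h (X - 3)) X := by
    simpa using (H_deriv (X - 3)).comp_sub_const X 3
  exact ((d1.const_mul 2).const_sub 1).congr_deriv (by ring)

theorem D0_smooth {x : P2} (h0 : x ≠ 0) (h7 : x ≠ pp) :
    ContDiffAt ℝ 2 D0 x ∧ HasFDerivAt D0 (D0x x • fX + D0y x • fY) x := by
  constructor
  · have h1 := rr_smooth_Lens h0 h7
    have h2 : ContDiff ℝ ∞ (fun y : P2 => eta y.1) := by fun_prop
    have h3 : ContDiff ℝ ∞ (fun y : P2 => 20 * H (y.1 - 3)) := by fun_prop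
    exact ((h2.contDiffAt.mul h1).add h3.contDiffAt).of_le
      (WithTop.coe_le_coe.2 (le_top : ((2 : ℕ∞)) ≤ ⊤))
  · have hp := rr_pos_Lens h0 h7
    have f1 : HasFDerivAt (fun y : P2 => y.1) fX x := hasFDerivAt_fst
    have f2 : HasFDerivAt (fun y : P2 => y.2) fY x := hasFDerivAt_snd
    have d1 : HasDerivAt (fun X => H (X - 3)) (h (x.1 - 3)) x.1 := by
      simpa using (H_deriv (x.1 - 3)).comp_sub_const x.1 3
    have e1 := (eta_deriv_Lens x.1).comp_hasFDerivAt x f1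
    have e2 := (bb_deriv x.1).comp_hasFDerivAt x f1
    have e3 := (d1.comp_hasFDerivAt x f1).const_mul 20
    have e4 := ((e2.pow 2).add (f2.pow 2)).sqrt (sq_pos_Lens h0 h7).ne'
    have e5 := (e1.mul e4).add e3
    refine e5.congr_fderiv ?_
    have hr : √(bb x.1 ^ 2 + x.2 ^ 2) = rr x := rfl
    ext
    · simp [D0x, hr]
      field_simp
      ring
    · simp [D0y, hr]
      field_simp

lemma g0_in_Lens {x : P2} (h2 : 2 < x.1) (h5 : x.1 < 5) (v : P2) :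
    g0 x v v = (D0x x * v.1 + D0y x * v.2) ^ 2
      + (bb x.1 / rr x * v.2 - x.2 * bd x.1 / rr x * v.1) ^ 2 + nu x * (v.1 ^ 2 + v.2 ^ 2) := by
  rw [g0, if_pos ⟨h2, h5⟩, mk3_apply]
  ring

lemma out_Lens {X : ℝ} (hx : X ≤ 3 ∨ 4 ≤ X) : h (X - 3) = 0 ∧ bd X = eta X ∧ eta X ^ 2 = 1 := by
  rcases hx with hx | hx
  · exact ⟨h_zero (Or.inl (by linarith)), by rw [bd_left hx, eta_left hx],
      by rw [eta_left hx]; ring⟩
  · exact ⟨h_zero (Or.inr (by linarith)), by rw [bd_right hx, eta_right hx],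
      by rw [eta_right hx]; ring⟩

lemma D0x_out_Lens {x : P2} (hx : x.1 ≤ 3 ∨ 4 ≤ x.1) : D0x x = bb x.1 / rr x := by
  obtain ⟨a, b, c⟩ := out_Lens hx
  rw [D0x, a, b, zero_mul, zero_add, show eta x.1 * bb x.1 * eta x.1 = eta x.1 ^ 2 * bb x.1 by ring,
    c, one_mul]

lemma nu_zero_Lens {x : P2} (hx' : x.1 ≤ 2 ∨ 5 ≤ x.1 ∨ x.2 ^ 2 ≤ 25) : nu x = 0 := by
  rcases hx' with a | a | a
  · rw [nu, H_zero (t := x.1 - 2) (by linarith)]; ring
  · rw [nu, H_zero (t := 5 - x.1) (by linarith)]; ring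
  · rw [nu, H_zero (t := x.2 ^ 2 - 25) (by linarith)]; ring

lemma g0_out_Lens {x : P2} (hx : x.1 ≤ 3 ∨ 4 ≤ x.1) : g0 x = mk3 (1 + nu x) 0 (1 + nu x) := by
  by_cases hc : 2 < x.1 ∧ x.1 < 5
  · obtain ⟨h0, h7⟩ := ne_Lens hc.1 hc.2
    have hp := (rr_pos_Lens h0 h7).ne'
    have hs := rr_sq_Lens x
    obtain ⟨a, b, c⟩ := out_Lens hx
    have e1 : D0x x ^ 2 + (x.2 * bd x.1 / rr x) ^ 2 = 1 := by
      rw [D0x_out_Lens hx, b]
      field_simp
      rw [hs, c]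
      ring
    have e2 : D0x x * D0y x - x.2 * bd x.1 / rr x * (bb x.1 / rr x) = 0 := by
      rw [D0x_out_Lens hx, b, D0y]
      ring
    have e3 : D0y x ^ 2 + (bb x.1 / rr x) ^ 2 = 1 := by
      rw [D0y]
      field_simp
      rw [hs, c]
      ring
    rw [g0, if_pos hc, e1, e2, e3]
  · have : nu x = 0 := by
      refine nu_zero_Lens ?_
      rw [not_and_or, not_lt, not_lt] at hc
      rcases hc with a | a
      · exact Or.inl a
      · exact Or.inr (Or.inl a)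
    rw [g0, if_neg hc, this, add_zero]

theorem D0_le {x : P2} (h0 : x ≠ 0) (h7 : x ≠ pp) (v : P2) :
    (D0x x * v.1 + D0y x * v.2) ^ 2 ≤ g0 x v v := by
  by_cases hc : 2 < x.1 ∧ x.1 < 5
  · rw [g0_in_Lens hc.1 hc.2]
    have := mul_nonneg (nu_nonneg_Lens x) (by positivity : 0 ≤ v.1 ^ 2 + v.2 ^ 2)
    nlinarith [sq_nonneg (bb x.1 / rr x * v.2 - x.2 * bd x.1 / rr x * v.1)]
  · have hx : x.1 ≤ 3 ∨ 4 ≤ x.1 := by
      rw [not_and_or, not_lt, not_lt] at hc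
      rcases hc with a | a
      · exact Or.inl (by linarith)
      · exact Or.inr (by linarith)
    have hp := (rr_pos_Lens h0 h7).ne'
    have hs := rr_sq_Lens x
    obtain ⟨a, b, c⟩ := out_Lens hx
    have e3 : D0x x ^ 2 + D0y x ^ 2 = 1 := by
      rw [D0x_out_Lens hx, D0y]
      field_simp
      rw [hs, c]
      ring
    rw [g0, if_neg hc, mk3_apply]
    have e4 : (D0x x * v.1 + D0y x * v.2) ^ 2 + (D0x x * v.2 - D0y x * v.1) ^ 2
        = (D0x x ^ 2 + D0y x ^ 2) * (v.1 ^ 2 + v.2 ^ 2) := by ring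
    rw [e3] at e4
    nlinarith [sq_nonneg (D0x x * v.2 - D0y x * v.1)]

theorem g0_low {x : P2} (hx : x.1 ≤ 3 ∨ 4 ≤ x.1) (v : P2) : v.1 ^ 2 + v.2 ^ 2 ≤ g0 x v v := by
  rw [g0_out_Lens hx, mk3_apply]
  have := mul_nonneg (nu_nonneg_Lens x) (by positivity : 0 ≤ v.1 ^ 2 + v.2 ^ 2)
  nlinarith

theorem g0_flat {x : P2} (hx : x.1 ≤ 3 ∨ 4 ≤ x.1) (hx' : x.1 ≤ 2 ∨ 5 ≤ x.1 ∨ x.2 ^ 2 ≤ 25) :
    g0 x = mk3 1 0 1 := by
  rw [g0_out_Lens hx, nu_zero_Lens hx', add_zero]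

lemma g0_smooth_Lens : ContDiff ℝ ∞ g0 := by
  refine contDiff_iff_contDiffAt.2 fun x => ?_
  have hn := nu_smooth_Lens.contDiffAt (x := x)
  by_cases hc : 2 < x.1 ∧ x.1 < 5
  · obtain ⟨h0, h7⟩ := ne_Lens hc.1 hc.2
    have hp := (rr_pos_Lens h0 h7).ne'
    have h1 := rr_smooth_Lens h0 h7
    have b1 : ContDiffAt ℝ ∞ (fun y : P2 => bb y.1) x := by fun_prop
    have b2 : ContDiffAt ℝ ∞ (fun y : P2 => bd y.1) x := by fun_prop
    have b3 : ContDiffAt ℝ ∞ (fun y : P2 => eta y.1) x := by fun_prop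
    have b4 : ContDiffAt ℝ ∞ (fun y : P2 => h (y.1 - 3)) x := by fun_prop
    have b5 : ContDiffAt ℝ ∞ (fun y : P2 => y.2) x := contDiffAt_snd
    have dx : ContDiffAt ℝ ∞ D0x x :=
      (b4.mul (contDiffAt_const.sub (contDiffAt_const.mul h1))).add
        (((b3.mul b1).mul b2).div h1 hp)
    have dy : ContDiffAt ℝ ∞ D0y x := (b3.mul b5).div h1 hp
    have q1 := (b5.mul b2).div h1 hp
    have q2 := b1.div h1 hp
    refine (contDiffAt_mk3 (((dx.pow 2).add (q1.pow 2)).add hn) ((dx.mul dy).sub (q1.mul q2))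
      (((dy.pow 2).add (q2.pow 2)).add hn)).congr_of_eventuallyEq ?_
    have ho : IsOpen {y : P2 | 2 < y.1 ∧ y.1 < 5} :=
      (isOpen_lt continuous_const continuous_fst).inter (isOpen_lt continuous_fst continuous_const)
    filter_upwards [ho.mem_nhds hc] with y hy
    rw [g0, if_pos hy]
    rfl
  · have hx : x.1 < 3 ∨ 4 < x.1 := by
      rw [not_and_or, not_lt, not_lt] at hc
      rcases hc with a | a
      · exact Or.inl (by linarith)
      · exact Or.inr (by linarith)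
    have hn1 := (contDiffAt_const (c := (1 : ℝ))).add hn
    refine (contDiffAt_mk3 hn1 (contDiffAt_const (c := (0 : ℝ))) hn1).congr_of_eventuallyEq ?_
    have ho : IsOpen {y : P2 | y.1 < 3 ∨ 4 < y.1} :=
      (isOpen_lt continuous_fst continuous_const).union (isOpen_lt continuous_const continuous_fst)
    filter_upwards [ho.mem_nhds hx] with y hy
    exact g0_out_Lens (hy.imp le_of_lt le_of_lt)

lemma g0_symm_Lens (x v w : P2) : g0 x v w = g0 x w v := by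
  unfold g0
  split_ifs <;> simp only [mk3_apply] <;> ring

lemma det_pos_Lens {x : P2} (h3 : 3 < x.1) (h4 : x.1 < 4) (hy : x.2 ^ 2 ≤ 25) :
    0 < bb x.1 * D0x x + x.2 * bd x.1 * D0y x := by
  obtain ⟨h0, h7⟩ := ne_Lens (x := x) (by linarith) (by linarith)
  have hp := rr_pos_Lens h0 h7
  have hs := rr_sq_Lens x
  obtain ⟨b3, b4⟩ := bb_mid h3.le h4.le
  have hh : 0 < h (x.1 - 3) := h_pos (by linarith) (by linarith)
  have e : bb x.1 * D0x x + x.2 * bd x.1 * D0y x = rr x * eta x.1 ^ 2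
      + h (x.1 - 3) * (bb x.1 * (20 - 2 * rr x) + rr x * (eta x.1 * (7 - 2 * x.1))) := by
    have e1 : bd x.1 = eta x.1 + h (x.1 - 3) * (7 - 2 * x.1) := rfl
    have e2 : bb x.1 * D0x x + x.2 * bd x.1 * D0y x = h (x.1 - 3) * (bb x.1 * (20 - 2 * rr x))
        + eta x.1 * bd x.1 * ((bb x.1 ^ 2 + x.2 ^ 2) / rr x) := by
      rw [D0x, D0y]
      ring
    rw [e2, ← hs, e1]
    field_simp
    ring
  have r1 : rr x < 13 / 2 := by nlinarith
  have k1 := H_nonneg (x.1 - 3)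
  have k2 := H_le_one (x.1 - 3)
  have k3 : -1 ≤ eta x.1 * (7 - 2 * x.1) := by
    unfold eta
    nlinarith
  have k4 : 0 < bb x.1 * (20 - 2 * rr x) + rr x * (eta x.1 * (7 - 2 * x.1)) := by nlinarith
  rw [e]
  positivity

lemma g0_pos_Lens (x v : P2) (hv : v ≠ 0) : 0 < g0 x v v := by
  have hv2 : 0 < v.1 ^ 2 + v.2 ^ 2 := by
    by_contra hc
    exact hv (Prod.ext (by simp only [Prod.fst_zero]; nlinarith [sq_nonneg v.1, sq_nonneg v.2])
      (by simp only [Prod.snd_zero]; nlinarith [sq_nonneg v.1, sq_nonneg v.2]))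
  by_cases hx : x.1 ≤ 3 ∨ 4 ≤ x.1
  · exact hv2.trans_le (g0_low hx v)
  · rw [not_or, not_le, not_le] at hx
    obtain ⟨h3, h4⟩ := hx
    rw [g0_in_Lens (by linarith) (by linarith)]
    by_cases hy : x.2 ^ 2 ≤ 25
    · have hd := det_pos_Lens h3 h4 hy
      obtain ⟨h0, h7⟩ := ne_Lens (x := x) (by linarith) (by linarith)
      have hp := rr_pos_Lens h0 h7
      rw [nu_zero_Lens (Or.inr (Or.inr hy)), zero_mul, add_zero]
      by_contra hc
      have a1 : D0x x * v.1 + D0y x * v.2 = 0 := by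
        nlinarith [sq_nonneg (D0x x * v.1 + D0y x * v.2),
          sq_nonneg (bb x.1 / rr x * v.2 - x.2 * bd x.1 / rr x * v.1)]
      have a2 : bb x.1 / rr x * v.2 - x.2 * bd x.1 / rr x * v.1 = 0 := by
        nlinarith [sq_nonneg (D0x x * v.1 + D0y x * v.2),
          sq_nonneg (bb x.1 / rr x * v.2 - x.2 * bd x.1 / rr x * v.1)]
      have a3 : bb x.1 * v.2 - x.2 * bd x.1 * v.1 = 0 := by
        have : bb x.1 * v.2 - x.2 * bd x.1 * v.1
            = rr x * (bb x.1 / rr x * v.2 - x.2 * bd x.1 / rr x * v.1) := by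
          field_simp
        rw [this, a2, mul_zero]
      have c1 : (bb x.1 * D0x x + x.2 * bd x.1 * D0y x) * v.1 = 0 := by
        linear_combination bb x.1 * a1 - D0y x * a3
      have c2 : (bb x.1 * D0x x + x.2 * bd x.1 * D0y x) * v.2 = 0 := by
        linear_combination x.2 * bd x.1 * a1 + D0x x * a3
      exact hv (Prod.ext ((mul_eq_zero.1 c1).resolve_left hd.ne')
        ((mul_eq_zero.1 c2).resolve_left hd.ne'))
    · have hn : 0 < nu x :=
        mul_pos (mul_pos (H_pos (by linarith)) (H_pos (by linarith))) (H_pos (by linarith))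
      positivity

theorem g0_nice : Nice g0 := by
  refine nice_of_compact g0_smooth_Lens g0_symm_Lens g0_pos_Lens
    ((isCompact_Icc (a := (3 : ℝ)) (b := 4)).prod (isCompact_Icc (a := (-6 : ℝ)) (b := 6)))
    one_pos fun x hx v => ?_
  have hv : ‖v‖ ^ 2 ≤ v.1 ^ 2 + v.2 ^ 2 := by
    rw [Prod.norm_def, Real.norm_eq_abs, Real.norm_eq_abs]
    rcases le_total |v.1| |v.2| with a | a
    · rw [max_eq_right a, sq_abs]
      nlinarith [sq_nonneg v.1]
    · rw [max_eq_left a, sq_abs]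
      nlinarith [sq_nonneg v.2]
  rw [one_mul]
  refine hv.trans ?_
  by_cases hc : x.1 ≤ 3 ∨ 4 ≤ x.1
  · exact g0_low hc v
  · rw [not_or, not_le, not_le] at hc
    obtain ⟨h3, h4⟩ := hc
    have hy : 26 ≤ x.2 ^ 2 := by
      by_contra hy
      refine hx ⟨⟨h3.le, h4.le⟩, ?_, ?_⟩ <;> nlinarith
    have hn : nu x = 1 := by
      rw [nu, H_one (by linarith), H_one (by linarith), H_one (by linarith)]
      ring
    rw [g0_in_Lens (by linarith) (by linarith), hn, one_mul]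
    nlinarith [sq_nonneg (D0x x * v.1 + D0y x * v.2),
      sq_nonneg (bb x.1 / rr x * v.2 - x.2 * bd x.1 / rr x * v.1)]

end Pool.Agent.MP_402458_gt.Sf

end

section

/-! One bump. -/

set_option maxSynthPendingDepth 3

open Set Filter Topology
open scoped ContDiff

namespace Pool.Agent.MP_402458_gt.Sf

variable {ε s : ℝ}

lemma be_nonneg_Bump (σ : ℝ) : 0 ≤ be σ :=
  mul_nonneg (by nlinarith [sq_nonneg (σ - 1 / 2)]) (H_nonneg _)

lemma be_low_Bump {σ : ℝ} (hσ : σ ≤ 1) : be σ = 1 - σ + σ ^ 2 := by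
  rw [be, H_one (by linarith), mul_one]

lemma be_ge_Bump (σ : ℝ) : 1 - σ ≤ be σ := by
  rcases le_total σ 1 with h1 | h1
  · rw [be_low_Bump h1]
    nlinarith [sq_nonneg σ]
  · linarith [be_nonneg_Bump σ]

lemma be_gt_Bump {σ : ℝ} (hσ : 0 < σ) : 1 - σ < be σ := by
  rcases le_or_gt σ 1 with h1 | h1
  · rw [be_low_Bump h1]
    nlinarith [mul_pos hσ hσ]
  · linarith [be_nonneg_Bump σ]

lemma h_supp_Bump {ξ : ℝ} (ha : h (2 - ξ) ≠ 0) : 1 < ξ ∧ ξ < 2 := by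
  by_contra hc
  refine ha (h_zero ?_)
  rw [not_and_or, not_lt, not_lt] at hc
  rcases hc with hc | hc
  · right; linarith
  · left; linarith

lemma JJ_half_Bump (hp : Par ε s) {ξ : ℝ} (hξ : 1 ≤ ξ) : ξ / 2 ≤ JJ s ξ ∧ JJ s ξ ≤ ξ := by
  have := JJ_le hp.s0.le ξ
  have := hp.s1
  constructor <;> linarith [this]

lemma rho_pos_Bump (hp : Par ε s) {y : P2} (hy : y ≠ (s, 0)) : 0 < JJ s y.1 ^ 2 + y.2 ^ 2 := by
  by_contra hc
  have h1 : JJ s y.1 = 0 := by nlinarith [sq_nonneg (JJ s y.1), sq_nonneg y.2]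
  have h2 : y.2 = 0 := by nlinarith [sq_nonneg (JJ s y.1), sq_nonneg y.2]
  rcases le_total y.1 1 with h3 | h3
  · rw [JJ_left s h3] at h1
    exact hy (Prod.ext (by linarith) h2)
  · linarith [(JJ_half_Bump hp h3).1]

/-- the quotient of the two distances -/
lemma R_eq_Bump {J b : ℝ} (hJ : 0 < J) : √(1 + (b / J) ^ 2) = √(J ^ 2 + b ^ 2) / J := by
  rw [eq_div_iff hJ.ne', ← Real.sqrt_sq hJ.le, ← Real.sqrt_mul (by positivity), Real.sqrt_sq hJ.le]
  congr 1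
  field_simp

lemma R_le_Bump (t : ℝ) : 1 ≤ √(1 + t ^ 2) ∧ √(1 + t ^ 2) ≤ 1 + t ^ 2 / 2 :=
  ⟨Real.one_le_sqrt.2 (by nlinarith [sq_nonneg t]),
    Real.sqrt_le_iff.2 ⟨by positivity, by nlinarith [sq_nonneg (t ^ 2)]⟩⟩

lemma sg_bd_Bump (hp : Par ε s) (y : P2) :
    0 ≤ sg ε s y ∧ ε * sg ε s y ≤ (y.2 / JJ s y.1) ^ 2 / 2 := by
  have h0 := hp.e0
  have h1 := hp.e1
  obtain ⟨h2, h3⟩ := R_le_Bump (y.2 / JJ s y.1)
  have h4 : ε * sg ε s y = (1 - ε) * (√(1 + (y.2 / JJ s y.1) ^ 2) - 1) := by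
    unfold sg
    field_simp
  refine ⟨mul_nonneg (div_nonneg (by linarith) h0.le) (by linarith), ?_⟩
  rw [h4]
  nlinarith

lemma Dsx_eq_Bump (hp : Par ε s) {y : P2} (hy : 1 ≤ y.1) :
    Dsx ε s y = JJ s y.1 / √(JJ s y.1 ^ 2 + y.2 ^ 2) *
      (1 + h (2 - y.1) * (ε * s) * (1 - sg ε s y)) := by
  have h0 := hp.e0
  have hJ : 0 < JJ s y.1 := by linarith [(JJ_half_Bump hp hy).1]
  have hρ : 0 < √(JJ s y.1 ^ 2 + y.2 ^ 2) := Real.sqrt_pos.2 (by positivity)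
  unfold Dsx sg
  rw [R_eq_Bump hJ]
  field_simp
  ring

lemma unit_Bump {J b : ℝ} (hρ : 0 < J ^ 2 + b ^ 2) :
    (J / √(J ^ 2 + b ^ 2)) ^ 2 + (b / √(J ^ 2 + b ^ 2)) ^ 2 = 1 := by
  rw [div_pow, div_pow, Real.sq_sqrt hρ.le, ← add_div, div_self hρ.ne']

lemma cs_Bump {c d p q : ℝ} (hcd : c ^ 2 + d ^ 2 = 1) : (c * p + d * q) ^ 2 ≤ p ^ 2 + q ^ 2 := by
  have : p ^ 2 + q ^ 2 - (c * p + d * q) ^ 2 = (c * q - d * p) ^ 2 := by
    linear_combination (-(p ^ 2 + q ^ 2)) * hcd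
  nlinarith [sq_nonneg (c * q - d * p)]

lemma G_pos_Bump (hp : Par ε s) {y : P2} (hy : 1 ≤ y.1) (h4 : y.2 ^ 2 ≤ 4 * ε * y.1 ^ 2) :
    0 < 1 + h (2 - y.1) * (ε * s) * (1 - sg ε s y) := by
  have h0 := hp.e0
  have h1 := hp.e1
  obtain ⟨hJ, -⟩ := JJ_half_Bump hp hy
  have hJ0 : 0 < JJ s y.1 := by linarith
  obtain ⟨h5, h6⟩ := sg_bd_Bump hp y
  have h7 : (y.2 / JJ s y.1) ^ 2 ≤ 16 * ε := by
    rw [div_pow, div_le_iff₀ (by positivity)]
    have : y.1 ^ 2 ≤ 4 * JJ s y.1 ^ 2 := by nlinarith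
    nlinarith
  have h8 := hp.s2 (2 - y.1)
  have h9 : 0 ≤ s * h (2 - y.1) := mul_nonneg hp.s0.le (h_nonneg _)
  have h10 : h (2 - y.1) * (ε * s) * (1 - sg ε s y)
      = s * h (2 - y.1) * (ε - ε * sg ε s y) := by ring
  rw [h10]
  nlinarith

theorem one_le_Fb (hp : Par ε s) (y : P2) : 1 ≤ Fb ε s y :=
  le_add_of_nonneg_right (mul_nonneg (mul_nonneg (h_nonneg _) (mul_pos hp.e0 hp.s0).le)
    (be_nonneg_Bump _))

theorem Fb_supp (hp : Par ε s) {y : P2} (hy : Fb ε s y ≠ 1) :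
    1 < y.1 ∧ y.1 < 2 ∧ y.2 ^ 2 ≤ 5 * ε * y.1 ^ 2 := by
  have h0 := hp.e0
  have h1 := hp.e1
  have ha : h (2 - y.1) ≠ 0 := fun hc => hy (by rw [Fb, hc]; ring)
  have hb : sg ε s y < 2 := by
    by_contra hc
    refine hy ?_
    rw [Fb, be, H_zero (by linarith [not_lt.1 hc])]
    ring
  obtain ⟨h2, h3⟩ := h_supp_Bump ha
  obtain ⟨hJ, hJ'⟩ := JJ_half_Bump hp h2.le
  have hJ0 : 0 < JJ s y.1 := by linarith
  refine ⟨h2, h3, ?_⟩
  have h4 : ε * sg ε s y = (1 - ε) * (√(1 + (y.2 / JJ s y.1) ^ 2) - 1) := by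
    unfold sg
    field_simp
  have h5 := (R_le_Bump (y.2 / JJ s y.1)).1
  have h6 : √(1 + (y.2 / JJ s y.1) ^ 2) ^ 2 = 1 + (y.2 / JJ s y.1) ^ 2 :=
    Real.sq_sqrt (by positivity)
  set R := √(1 + (y.2 / JJ s y.1) ^ 2)
  have h7 : R - 1 ≤ 21 / 10 * ε := by
    by_contra hc
    have h8 : 21 / 10 * ε < R - 1 := not_le.1 hc
    nlinarith [mul_lt_mul_of_pos_left hb h0]
  have h8 : (y.2 / JJ s y.1) ^ 2 ≤ 5 * ε := by nlinarith
  rw [div_pow, div_le_iff₀ (by positivity)] at h8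
  have : JJ s y.1 ^ 2 ≤ y.1 ^ 2 := by nlinarith
  nlinarith

theorem Fb_ray (ε s ξ : ℝ) : Fb ε s (ξ, 0) = 1 + h (2 - ξ) * (ε * s) := by
  have h1 : sg ε s (ξ, 0) = 0 := by simp [sg]
  rw [Fb, h1, be_low_Bump zero_le_one]
  ring

theorem Ds_cont (ε s : ℝ) : Continuous (Ds ε s) := by
  unfold Ds JJ
  fun_prop

theorem Ds_smooth (hp : Par ε s) {y : P2} (hy : y ≠ (s, 0)) :
    ContDiffAt ℝ 2 (Ds ε s) y ∧ HasFDerivAt (Ds ε s) (Dsx ε s y • fX + Dsy s y • fY) y := by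
  have hρ := rho_pos_Bump hp hy
  have hH : ContDiff ℝ 2 H := Real.smoothTransition.contDiff (n := 2)
  have hc : ContDiff ℝ 2 (fun z : P2 => H (2 - z.1)) := hH.comp (contDiff_const.sub contDiff_fst)
  have hJ : ContDiff ℝ 2 (fun z : P2 => JJ s z.1) := contDiff_fst.sub (contDiff_const.mul hc)
  constructor
  · exact (((hJ.pow 2).add (contDiff_snd.pow 2)).contDiffAt.sqrt hρ.ne').add
      (contDiff_const.mul hc).contDiffAt
  · have d1 : HasFDerivAt (fun z : P2 => H (2 - z.1)) (h (2 - y.1) • (-fX)) y :=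
      (H_deriv (2 - y.1)).comp_hasFDerivAt y ((hasFDerivAt_fst (p := y)).const_sub 2)
    have d2 : HasFDerivAt (fun z : P2 => JJ s z.1) (fX - s • (h (2 - y.1) • (-fX))) y :=
      (hasFDerivAt_fst (p := y)).sub (d1.const_mul s)
    have d3 := (((d2.pow 2).add ((hasFDerivAt_snd (p := y)).pow 2)).sqrt hρ.ne').add
      (d1.const_mul ((1 - ε) * s))
    have hs : √(JJ s y.1 ^ 2 + y.2 ^ 2) ≠ 0 := (Real.sqrt_pos.2 hρ).ne'
    refine HasFDerivAt.congr_fderiv d3 ?_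
    ext
    · simp [Dsx]
      field_simp
      ring
    · simp [Dsy]
      field_simp

theorem Ds_le (hp : Par ε s) {y : P2} (hy : y ≠ (s, 0))
    (h1 : h (2 - y.1) = 0 ∨ y.2 ^ 2 ≤ 4 * ε * y.1 ^ 2) (v : P2) :
    (Dsx ε s y * v.1 + Dsy s y * v.2) ^ 2 ≤ Fb ε s y ^ 2 * v.1 ^ 2 + v.2 ^ 2 := by
  have hu := unit_Bump (rho_pos_Bump hp hy)
  by_cases ha : h (2 - y.1) = 0
  · have e1 : Dsx ε s y = JJ s y.1 / √(JJ s y.1 ^ 2 + y.2 ^ 2) := by
      rw [Dsx, ha]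
      ring
    have e2 : Fb ε s y = 1 := by
      rw [Fb, ha]
      ring
    rw [e1, e2, Dsy, one_pow, one_mul]
    exact cs_Bump hu
  · have h4 := h1.resolve_left ha
    have h2 := (h_supp_Bump ha).1.le
    have hG := G_pos_Bump hp h2 h4
    have hF : 1 + h (2 - y.1) * (ε * s) * (1 - sg ε s y) ≤ Fb ε s y := by
      have := mul_le_mul_of_nonneg_left (be_ge_Bump (sg ε s y))
        (mul_nonneg (h_nonneg (2 - y.1)) (mul_pos hp.e0 hp.s0).le)
      unfold Fb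
      linarith
    rw [Dsx_eq_Bump hp h2, Dsy, mul_assoc]
    refine (cs_Bump hu).trans ?_
    rw [mul_pow]
    gcongr

theorem Ds_lt (hp : Par ε s) {y : P2} (h1 : 1 < y.1) (h2 : y.1 < 2) (h3 : y.2 ≠ 0)
    (h4 : y.2 ^ 2 ≤ 4 * ε * y.1 ^ 2) {v : P2} (hv : (Dsx ε s y * v.1 + Dsy s y * v.2) ^ 2 = 1) :
    1 < Fb ε s y ^ 2 * v.1 ^ 2 + v.2 ^ 2 := by
  have h0 := hp.e0
  have he := hp.e1
  have hJ0 : 0 < JJ s y.1 := by linarith [(JJ_half_Bump hp h1.le).1]
  have hρ : 0 < JJ s y.1 ^ 2 + y.2 ^ 2 := by positivity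
  have hu := unit_Bump hρ
  have hG := G_pos_Bump hp h1.le h4
  have hσ : 0 < sg ε s y := by
    refine mul_pos (div_pos (by linarith) h0) (sub_pos.2 (Real.lt_sqrt_of_sq_lt ?_))
    have : 0 < (y.2 / JJ s y.1) ^ 2 := by positivity
    linarith
  have hF : 1 + h (2 - y.1) * (ε * s) * (1 - sg ε s y) < Fb ε s y := by
    have := mul_lt_mul_of_pos_left (be_gt_Bump hσ)
      (mul_pos (h_pos (t := 2 - y.1) (by linarith) (by linarith)) (mul_pos hp.e0 hp.s0))
    unfold Fb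
    linarith
  rw [Dsx_eq_Bump hp h1.le, Dsy, mul_assoc] at hv
  by_cases hv1 : v.1 = 0
  · rw [hv1, mul_zero, mul_zero, zero_add, mul_pow] at hv
    have hc : 0 < (JJ s y.1 / √(JJ s y.1 ^ 2 + y.2 ^ 2)) ^ 2 :=
      pow_pos (div_pos hJ0 (Real.sqrt_pos.2 hρ)) 2
    have hv2 : 0 < v.2 ^ 2 := by
      rcases (sq_nonneg v.2).lt_or_eq with h5 | h5
      · exact h5
      · rw [← h5, mul_zero] at hv
        exact absurd hv zero_ne_one
    rw [hv1]
    nlinarith [mul_pos hc hv2]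
  · have h5 := cs_Bump (p := (1 + h (2 - y.1) * (ε * s) * (1 - sg ε s y)) * v.1) (q := v.2) hu
    rw [hv, mul_pow] at h5
    have h6 : (1 + h (2 - y.1) * (ε * s) * (1 - sg ε s y)) ^ 2 * v.1 ^ 2
        < Fb ε s y ^ 2 * v.1 ^ 2 := by
      have : 0 < v.1 ^ 2 := by positivity
      gcongr
    linarith

theorem Ds_near (hp : Par ε s) {y : P2} (hy : Ds ε s y ≤ nr y) :
    2 ≤ y.1 ∨ (0 < y.1 ∧ y.2 ^ 2 ≤ 3 * ε * y.1 ^ 2) := by
  refine (le_or_gt 2 y.1).imp id fun h2 => ?_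
  have h0 := hp.e0
  have he := hp.e1
  have hχ : 0 < s * H (2 - y.1) := mul_pos hp.s0 (H_pos (by linarith))
  have hn := nr_nonneg y
  have hn2 := nr_sq y
  have hρ := Real.sqrt_nonneg (JJ s y.1 ^ 2 + y.2 ^ 2)
  have hρ2 : √(JJ s y.1 ^ 2 + y.2 ^ 2) ^ 2 = JJ s y.1 ^ 2 + y.2 ^ 2 := Real.sq_sqrt (by positivity)
  have hcs : JJ s y.1 * y.1 + y.2 * y.2 ≤ √(JJ s y.1 ^ 2 + y.2 ^ 2) * nr y := by
    refine (abs_le_of_sq_le_sq' ?_ (mul_nonneg hρ hn)).2
    rw [mul_pow, hρ2, hn2]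
    nlinarith [sq_nonneg (JJ s y.1 * y.2 - y.2 * y.1)]
  rw [Ds, mul_assoc] at hy
  have hJ : JJ s y.1 = y.1 - s * H (2 - y.1) := rfl
  set ρ := √(JJ s y.1 ^ 2 + y.2 ^ 2)
  set χ := s * H (2 - y.1)
  have h3 : 0 < (1 - ε) * χ := mul_pos (by linarith) hχ
  have hn0 : 0 < nr y := by linarith
  have h4 : χ * ((1 - ε) * nr y) ≤ χ * y.1 := by
    have := mul_le_mul_of_nonneg_right hy hn
    rw [hJ] at hcs
    nlinarith
  have h5 : (1 - ε) * nr y ≤ y.1 := le_of_mul_le_mul_left h4 hχ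
  have h6 : 0 < (1 - ε) * nr y := mul_pos (by linarith) hn0
  refine ⟨by linarith, ?_⟩
  have h7 : (1 - ε) ^ 2 * (y.1 ^ 2 + y.2 ^ 2) ≤ y.1 ^ 2 := by
    rw [← hn2, ← mul_pow]
    gcongr
  have h8 : 1 ≤ (1 - ε) ^ 2 * (1 + 3 * ε) := by nlinarith [mul_pos h0 h0]
  have h9 : 0 < (1 - ε) ^ 2 := pow_pos (by linarith) 2
  refine le_of_mul_le_mul_left ?_ h9
  nlinarith [sq_nonneg y.1]

theorem Ds_far (ε s : ℝ) {y : P2} (hy : 2 ≤ y.1) : Ds ε s y = nr y := by
  rw [Ds, JJ_right s hy, H_zero (by linarith), mul_zero, add_zero, nr]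

theorem Ds_in (ε s : ℝ) {y : P2} (hy : y.1 ≤ 1) :
    Ds ε s y = nr (y - (s, 0)) + (1 - ε) * s := by
  rw [Ds, JJ_left s hy, H_one (by linarith), mul_one, nr]
  simp

theorem Ds_ray (hp : Par ε s) {ξ : ℝ} (hξ : s < ξ) : Ds ε s (ξ, 0) = ξ - ε * s * H (2 - ξ) ∧
    Dsx ε s (ξ, 0) = 1 + h (2 - ξ) * (ε * s) ∧ Dsy s (ξ, 0) = 0 := by
  have hJ : 0 < JJ s ξ := by linarith [(JJ_le hp.s0.le ξ).1]
  have h1 : √(JJ s ξ ^ 2 + (0 : ℝ) ^ 2) = JJ s ξ := by
    rw [zero_pow two_ne_zero, add_zero, Real.sqrt_sq hJ.le]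
  refine ⟨?_, ?_, ?_⟩
  · simp only [Ds]
    rw [h1, JJ]
    ring
  · simp only [Dsx]
    rw [h1]
    field_simp
    ring
  · simp [Dsy]

lemma err_Bump {a σ b d : ℝ} (h0 : 0 < ε) (he : ε ≤ 1 / 400) (ha0 : 0 ≤ a) (ha1 : a ≤ 1)
    (h5 : 0 ≤ σ) (h9 : σ ≤ 1) (h8 : ε * σ ≤ 2 * b ^ 2) (hd : d ≤ 1) :
    a * ε * σ ^ 2 * (2 + a * ε * (2 - 2 * σ + σ ^ 2)) + d * (a * ε * σ) ^ 2
      ≤ (12 / ε + 4) * b ^ 4 := by
  have hae : 0 ≤ a * ε := mul_nonneg ha0 h0.le
  have hae1 : a * ε ≤ ε := mul_le_of_le_one_left h0.le ha1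
  have q3 : (ε * σ) ^ 2 ≤ 4 * b ^ 4 := by
    have h1 := mul_nonneg h0.le h5
    calc (ε * σ) ^ 2 ≤ (2 * b ^ 2) ^ 2 := by gcongr
      _ = 4 * b ^ 4 := by ring
  have r1 : 2 + a * ε * (2 - 2 * σ + σ ^ 2) ≤ 3 := by
    have h1 : 2 - 2 * σ + σ ^ 2 ≤ 2 := by nlinarith
    have h2 := mul_le_mul_of_nonneg_left h1 hae
    linarith
  have r2 : a * ε * σ ^ 2 ≤ 4 / ε * b ^ 4 := by
    rw [div_mul_eq_mul_div, le_div_iff₀ h0]
    calc a * ε * σ ^ 2 * ε = a * (ε * σ) ^ 2 := by ring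
      _ ≤ (ε * σ) ^ 2 := mul_le_of_le_one_left (sq_nonneg _) ha1
      _ ≤ 4 * b ^ 4 := q3
  have r3 : 0 ≤ a * ε * σ ^ 2 := mul_nonneg hae (sq_nonneg σ)
  have r4 := mul_le_mul_of_nonneg_left r1 r3
  have r5 : (a * ε * σ) ^ 2 ≤ (ε * σ) ^ 2 := by
    have := mul_nonneg hae h5
    gcongr
  have r6 : d * (a * ε * σ) ^ 2 ≤ (a * ε * σ) ^ 2 := mul_le_of_le_one_left (sq_nonneg _) hd
  have r7 : (12 / ε + 4) * b ^ 4 = 4 / ε * b ^ 4 * 3 + 4 * b ^ 4 := by ring
  linarith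

lemma alg_Bump {a σ b c t : ℝ} (h0 : 0 < ε) (he : ε ≤ 1 / 400) (ha0 : 0 ≤ a) (ha1 : a ≤ 1)
    (h5 : 0 ≤ σ) (h9 : σ ≤ 1) (h8 : ε * σ ≤ 2 * b ^ 2) (hc : 1 / 2 ≤ c)
    (hu : c ^ 2 + (c * t) ^ 2 = 1) :
    √((1 + a * ε * (1 - σ + σ ^ 2)) ^ 2 + ((1 + a * ε) * t) ^ 2) ≤
      c * (1 + a * ε * (1 - σ)) + c * t * ((1 + a * ε) * t) + (12 / ε + 4) * b ^ 4 := by
  have hae : 0 ≤ a * ε := mul_nonneg ha0 h0.le
  have hP : 1 / 2 ≤ c * (1 + a * ε * (1 - σ)) + c * t * ((1 + a * ε) * t) := by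
    have q1 : 0 ≤ c * (a * ε * (1 - σ)) := mul_nonneg (by linarith) (mul_nonneg hae (by linarith))
    have q2 : 0 ≤ c * (1 + a * ε) * t ^ 2 :=
      mul_nonneg (mul_nonneg (by linarith) (by linarith)) (sq_nonneg t)
    linarith
  have hid : (1 + a * ε * (1 - σ + σ ^ 2)) ^ 2 + ((1 + a * ε) * t) ^ 2
      = (c * (1 + a * ε * (1 - σ)) + c * t * ((1 + a * ε) * t)) ^ 2
        + (a * ε * σ ^ 2 * (2 + a * ε * (2 - 2 * σ + σ ^ 2)) + (c * t) ^ 2 * (a * ε * σ) ^ 2) := by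
    linear_combination (-((1 + a * ε * (1 - σ)) ^ 2 + ((1 + a * ε) * t) ^ 2)) * hu
  have q := err_Bump h0 he ha0 ha1 h5 h9 h8 (d := (c * t) ^ 2) (by linarith [sq_nonneg c])
  have hE : 0 ≤ (12 / ε + 4) * b ^ 4 := by positivity
  refine Real.sqrt_le_iff.2 ⟨by linarith, ?_⟩
  rw [hid]
  generalize c * (1 + a * ε * (1 - σ)) + c * t * ((1 + a * ε) * t) = P at hP ⊢
  generalize (12 / ε + 4) * b ^ 4 = E at q hE ⊢
  have h1 := mul_le_mul_of_nonneg_right hP hE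
  nlinarith [sq_nonneg E]

theorem Ds_comp (hp : Par ε s) : ∃ C δ : ℝ, 0 < δ ∧ ∀ y : P2, 1 ≤ y.1 → y.1 ≤ 2 → |y.2| ≤ δ →
    √(Fb ε s y ^ 2 + ((1 + h (2 - y.1) * (ε * s)) * y.2 / JJ s y.1) ^ 2) ≤
      Dsx ε s y + Dsy s y * ((1 + h (2 - y.1) * (ε * s)) * y.2 / JJ s y.1) + C * y.2 ^ 4 := by
  have h0 := hp.e0
  have he := hp.e1
  refine ⟨12 / ε + 4, ε, h0, fun y h1 _ h3 => ?_⟩
  have hJ : 1 / 2 ≤ JJ s y.1 := by linarith [(JJ_half_Bump hp h1).1]
  have hJ0 : 0 < JJ s y.1 := by linarith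
  have hρ : 0 < JJ s y.1 ^ 2 + y.2 ^ 2 := by positivity
  have hρ0 : 0 < √(JJ s y.1 ^ 2 + y.2 ^ 2) := Real.sqrt_pos.2 hρ
  have hu := unit_Bump hρ
  have hb : y.2 ^ 2 ≤ ε ^ 2 := by
    rw [← sq_abs]
    gcongr
  obtain ⟨h5, h6⟩ := sg_bd_Bump hp y
  have h7 : (y.2 / JJ s y.1) ^ 2 ≤ 4 * y.2 ^ 2 := by
    rw [div_pow, div_le_iff₀ (by positivity)]
    have : 1 ≤ 4 * JJ s y.1 ^ 2 := by nlinarith
    nlinarith [sq_nonneg y.2]
  have h8 : ε * sg ε s y ≤ 2 * y.2 ^ 2 := by linarith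
  have h9 : sg ε s y ≤ 1 := by
    refine le_of_mul_le_mul_left ?_ h0
    nlinarith
  have hc : 1 / 2 ≤ JJ s y.1 / √(JJ s y.1 ^ 2 + y.2 ^ 2) := by
    rw [le_div_iff₀ hρ0]
    have : √(JJ s y.1 ^ 2 + y.2 ^ 2) ≤ 2 * JJ s y.1 :=
      Real.sqrt_le_iff.2 ⟨by positivity, by nlinarith⟩
    linarith
  have ht : y.2 / √(JJ s y.1 ^ 2 + y.2 ^ 2)
      = JJ s y.1 / √(JJ s y.1 ^ 2 + y.2 ^ 2) * (y.2 / JJ s y.1) := by field_simp
  have ha1 := hp.s2 (2 - y.1)
  have ha0 : 0 ≤ s * h (2 - y.1) := mul_nonneg hp.s0.le (h_nonneg _)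
  have ea : h (2 - y.1) * (ε * s) = s * h (2 - y.1) * ε := by ring
  rw [Dsx_eq_Bump hp h1, Dsy, Fb, be_low_Bump h9, mul_div_assoc, ea]
  rw [ht] at hu ⊢
  exact alg_Bump h0 he ha0 ha1 h5 h9 h8 hc hu

end Pool.Agent.MP_402458_gt.Sf

end
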