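import Pool.Agent.Mg.F402458a.G63badd
import Pool.Agent.Mg.F402458a.G5ecee0

section

/-! Uniqueness of segments, cut times, and the two counterexamples. -/

set_option maxSynthPendingDepth 3

open Set Filter Topology Real
open scoped NNReal ENNReal

namespace Pool.Agent.MP_402458_gt

lemma deriv_zero_of_const {f : ℝ → ℝ} {f' l c : ℝ} (hl : 0 < l) (hf : HasDerivAt f f' 0)
    (hc : ∀ t ∈ Icc 0 l, f t = c) : f' = 0 := by
  have h1 : HasDerivWithinAt f f' (Icc 0 l) 0 := hf.hasDerivWithinAt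
  have h2 : HasDerivWithinAt f 0 (Icc 0 l) 0 :=
    (hasDerivWithinAt_const 0 (Icc 0 l) c).congr hc (hc 0 ⟨le_rfl, hl.le⟩)
  exact (uniqueDiffOn_Icc hl 0 ⟨le_rfl, hl.le⟩).eq_deriv _ h1 h2

lemma segment_unique {θ : ℝ} (hθ : θ ∈ Ioo 0 π) {γ : ℝ → E4} {l : ℝ} (hγ : IsSegment gm p0 γ l)
    (hq : γ l = qq π θ) : γ = hel (π / √(π ^ 2 + θ ^ 2)) 0 (θ / √(π ^ 2 + θ ^ 2)) := by
  obtain ⟨hgeo, hunit, h0, hl0, hd⟩ := hγ
  have hθ' : θ ∈ Icc 0 π := Ioo_subset_Icc_self hθ
  rw [hq, dist_eq hθ'] at hd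
  have hlpos : 0 < l := hd ▸ ell_pos θ
  have hl2 : l ^ 2 = π ^ 2 + θ ^ 2 := hd ▸ ell_sq θ
  rw [hd]
  have hc := fun t => (contDiff_two_hasDerivAt hgeo.1 t).1
  have hc2 := fun t => (contDiff_two_hasDerivAt hgeo.1 t).2
  set v := deriv γ with hvdef
  have hv : Continuous v := continuous_iff_continuousAt.2 fun t => (hc2 t).continuousAt
  have hlow := lower_ab hc hv hl0 hθ' h0 hq
  have hcont : Continuous fun t => π * ka (γ t) (v t) + θ * kb (γ t) (v t) :=
    (continuous_const.mul (continuous_ka hc hv)).add (continuous_const.mul (continuous_kb hc hv))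
  have hpt : ∀ t, π * ka (γ t) (v t) + θ * kb (γ t) (v t) ≤ l := by
    intro t
    have := pointwise_bound (γ t) (v t) hθ'.1
    rwa [hunit t, hd, Real.sqrt_one, mul_one] at this
  have heq : ∀ t ∈ Icc 0 l, π * ka (γ t) (v t) + θ * kb (γ t) (v t) = l := by
    intro t ht
    by_contra hne
    have hlt := lt_of_le_of_ne (hpt t) hne
    have := intervalIntegral.integral_lt_integral_of_continuousOn_of_le_of_exists_lt hlpos
      hcont.continuousOn (continuousOn_const (c := l)) (fun t _ => hpt t) ⟨t, ht, hlt⟩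
    simp only [intervalIntegral.integral_const, sub_zero, smul_eq_mul] at this
    nlinarith
  have hall : ∀ t ∈ Icc 0 l, γ t 1 * v t 0 = 0 ∧ γ t 2 ^ 2 + γ t 3 ^ 2 = 1 ∧
      l * bb (γ t) (v t) = θ := by
    intro t ht
    have e := heq t ht
    have ha := ka_le (γ t) (v t)
    have hb := kb_le (γ t) (v t)
    have hu := hunit t
    rw [gm_eq_aa_bb] at hu
    have hp := pi_pos
    have ha' := mul_le_mul_of_nonneg_left ha pi_pos.le
    have hb' := mul_le_mul_of_nonneg_left hb hθ'.1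
    have hS : l ≤ π * aa (γ t) (v t) + θ * bb (γ t) (v t) := by linarith
    have hsq : (π - l * aa (γ t) (v t)) ^ 2 + (θ - l * bb (γ t) (v t)) ^ 2 ≤ 0 := by
      have : (π - l * aa (γ t) (v t)) ^ 2 + (θ - l * bb (γ t) (v t)) ^ 2 =
          2 * l * (l - (π * aa (γ t) (v t) + θ * bb (γ t) (v t))) := by
        linear_combination (-1 : ℝ) * hl2 + l ^ 2 * hu
      rw [this]
      exact mul_nonpos_of_nonneg_of_nonpos (by positivity) (by linarith)
    have hA : l * aa (γ t) (v t) = π := by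
      nlinarith [sq_nonneg (π - l * aa (γ t) (v t)), sq_nonneg (θ - l * bb (γ t) (v t))]
    have hB : l * bb (γ t) (v t) = θ := by
      nlinarith [sq_nonneg (π - l * aa (γ t) (v t)), sq_nonneg (θ - l * bb (γ t) (v t))]
    have hS' : π * aa (γ t) (v t) + θ * bb (γ t) (v t) = l := by
      apply mul_left_cancel₀ hlpos.ne'
      linear_combination π * hA + θ * hB - hl2
    have hka : ka (γ t) (v t) = aa (γ t) (v t) :=
      mul_left_cancel₀ pi_pos.ne' (by linarith)
    have hkb : kb (γ t) (v t) = bb (γ t) (v t) :=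
      mul_left_cancel₀ hθ.1.ne' (by linarith)
    refine ⟨?_, ?_, hB⟩
    · have h1 := ka_sq (γ t) (v t)
      rw [hka, aa_sq] at h1
      by_contra hne
      have h2 := cos_sq_lt_fA (left_ne_zero_of_mul hne)
      have h3 : 0 < v t 0 ^ 2 := by have := right_ne_zero_of_mul hne; positivity
      nlinarith
    · have h1 := kb_sq (γ t) (v t)
      rw [hkb] at h1
      have h2 := bb_sq (γ t) (v t)
      have h3 : 0 < bb (γ t) (v t) := by
        by_contra h
        have : l * bb (γ t) (v t) ≤ 0 := mul_nonpos_of_nonneg_of_nonpos hl0 (not_lt.1 h)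
        linarith [hθ.1]
      have hs : 0 ≤ γ t 2 ^ 2 + γ t 3 ^ 2 := by positivity
      generalize γ t 2 ^ 2 + γ t 3 ^ 2 = s at *
      have hW : v t 2 ^ 2 + v t 3 ^ 2 ≠ 0 := by
        intro h
        rw [h, mul_zero] at h2
        exact (pow_pos h3 2).ne' h2
      have h4 : fF s = 4 / (1 + s) ^ 2 := mul_right_cancel₀ hW (h2.symm.trans h1)
      rw [eq_div_iff (by positivity)] at h4
      have h5 := fF_identity s
      rw [h4, sub_self] at h5
      have h6 : (s - 1) ^ 2 = 0 :=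
        (mul_eq_zero.1 h5.symm).resolve_right (by positivity)
      have := pow_eq_zero_iff (two_ne_zero) |>.1 h6
      linarith
  have g1 : γ 0 1 = 0 := by rw [h0]; simp [p0]
  have g2 : γ 0 2 = 1 := by rw [h0]; simp [p0]
  have g3 : γ 0 3 = 0 := by rw [h0]; simp [p0]
  have d1 := deriv_zero_of_const hlpos
    ((hasDerivAt_E4.1 (hc 0) 1).mul (hasDerivAt_E4.1 (hc2 0) 0)) (fun t ht => (hall t ht).1)
  have d2 := deriv_zero_of_const hlpos
    (((hasDerivAt_E4.1 (hc 0) 2).pow 2).add ((hasDerivAt_E4.1 (hc 0) 3).pow 2))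
    (fun t ht => (hall t ht).2.1)
  simp only [g1, zero_mul, add_zero] at d1
  simp [g2, g3] at d2
  have hab : v 0 0 * v 0 1 = 0 := by rw [mul_comm]; exact d1
  have hγ : γ = hel (v 0 0) (v 0 1) (v 0 3) := by
    refine geodesic_unique hgeo (isGeodesic_hel hab _) (by rw [h0, hel_zero]) ?_
    rw [deriv_hel, hel'_zero]
    ext i
    fin_cases i <;> simp [← hvdef, d2]
  have hB := (hall 0 ⟨le_rfl, hl0⟩).2.2
  have hB2 := bb_sq (γ 0) (v 0)
  rw [g2, g3, d2] at hB2
  simp [fF] at hB2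
  have hB3 : (l * v 0 3) ^ 2 = θ ^ 2 := by
    rw [← hB, mul_pow, mul_pow, hB2]; norm_num
  have q0 : v 0 0 * l = π := by
    have := congrArg (fun x : E4 => x 0) hq
    rw [hγ] at this
    simpa [hel, qq] using this
  have q1 : v 0 1 * l = 0 := by
    have := congrArg (fun x : E4 => x 1) hq
    rw [hγ] at this
    simpa [hel, qq] using this
  have q3 : sin (v 0 3 * l) = sin θ := by
    have := congrArg (fun x : E4 => x 3) hq
    rw [hγ] at this
    simpa [hel, qq] using this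
  have r0 : v 0 0 = π / l := by rw [eq_div_iff hlpos.ne', q0]
  have r1 : v 0 1 = 0 := (mul_eq_zero.1 q1).resolve_right hlpos.ne'
  have r3 : v 0 3 = θ / l := by
    rw [eq_div_iff hlpos.ne']
    rcases sq_eq_sq_iff_eq_or_eq_neg.1 hB3 with h | h
    · linarith
    · exfalso
      rw [mul_comm, h, sin_neg] at q3
      have := sin_pos_of_pos_of_lt_pi hθ.1 hθ.2
      linarith
  rw [hγ, r0, r1, r3]

lemma not_mem_separatingSet {θ : ℝ} (hθ : θ ∈ Ioo 0 π) : qq π θ ∉ separatingSet gm p0 := by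
  rintro ⟨γ₁, γ₂, l, h1, h2, e1, e2, hne⟩
  apply hne
  rw [segment_unique hθ h1 e1, segment_unique hθ h2 e2]
  exact fun _ _ => rfl

lemma gm_hel (a c t : ℝ) : gm (hel a 0 c t) (hel' a 0 c t) (hel' a 0 c t) = a ^ 2 + c ^ 2 := by
  have hs := cos_sq_add_sin_sq (c * t)
  simp [gm_apply, hel, hel', hs, fF, fA]
  linear_combination c ^ 2 * hs

lemma mem_separatingSet : qq π π ∈ separatingSet gm p0 := by
  have hl := ell_pos π
  have hl2 := ell_sq π
  have hd := dist_eq (θ := π) ⟨pi_pos.le, le_rfl⟩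
  set l := √(π ^ 2 + π ^ 2) with hldef
  have e : π / l * l = π := by field_simp
  have e1 : hel (π / l) 0 (π / l) l = qq π π := by simp [hel, qq, e]
  have e2 : hel (π / l) 0 (-(π / l)) l = qq π π := by simp [hel, qq, e]
  have hu : (π / l) ^ 2 + (π / l) ^ 2 = 1 := by
    rw [div_pow, ← add_div, ← hl2]; field_simp
  refine ⟨hel (π / l) 0 (π / l), hel (π / l) 0 (-(π / l)), l,
    ⟨isGeodesic_hel (mul_zero _) _, fun t => ?_, hel_zero _ _ _, hl.le, by rw [e1, hd]⟩,
    ⟨isGeodesic_hel (mul_zero _) _, fun t => ?_, hel_zero _ _ _, hl.le, by rw [e2, hd]⟩,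
    e1, e2, fun h => ?_⟩
  · rw [deriv_hel, gm_hel, hu]
  · rw [deriv_hel, gm_hel, neg_sq, hu]
  · have h1 := congrArg (fun x : E4 => x 3) (h (x := l / 2) ⟨by positivity, by linarith⟩)
    have e3 : π / l * (l / 2) = π / 2 := by field_simp
    simp [hel, e3] at h1
    norm_num at h1

/-- The tangent cut points. -/
noncomputable def uu (θ : ℝ) : E4 := !₂[π, 0, 0, θ]

lemma expMap_uu (θ : ℝ) : expMap gm p0 (uu θ) = qq π θ := expMap_hel (mul_zero _) θ

lemma uu_mem {θ : ℝ} (hθ : θ ∈ Icc 0 π) : uu θ ∈ tangentCutLocus gm p0 := by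
  have hl := ell_pos θ
  have hl2 := ell_sq θ
  have hd := dist_eq hθ
  set l := √(π ^ 2 + θ ^ 2) with hldef
  have hu : (π / l) ^ 2 + (θ / l) ^ 2 = 1 := by
    rw [div_pow, div_pow, ← add_div, ← hl2]; field_simp
  have hexp : ∀ t : ℝ, expMap gm p0 (t • !₂[π / l, 0, 0, θ / l]) = qq (t * (π / l)) (t * (θ / l)) := by
    intro t
    have : (t • !₂[π / l, 0, 0, θ / l] : E4) = !₂[t * (π / l), 0, 0, t * (θ / l)] := by
      ext i; fin_cases i <;> simp
    rw [this]
    exact expMap_hel (mul_zero _) _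
  have hcut : cutTime gm p0 !₂[π / l, 0, 0, θ / l] = ((NNReal.mk l hl.le : ℝ≥0) : ℝ≥0∞) := by
    unfold cutTime
    apply le_antisymm
    · refine iSup₂_le fun t ht => ?_
      rw [ENNReal.coe_le_coe, ← NNReal.coe_le_coe]
      by_contra hlt
      have hlt' : l < (t : ℝ) := not_le.1 hlt
      have ht' : riemDist gm p0 (expMap gm p0 ((t : ℝ) • !₂[π / l, 0, 0, θ / l])) = t := ht
      rw [hexp] at ht'
      have := dist_upper_lt (a := t * (π / l)) ?_ (t * (θ / l)) (l := t) (hl.trans hlt') ?_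
      · exact this.ne ht'
      · rw [mul_div_assoc', lt_div_iff₀ hl]
        nlinarith [pi_pos]
      · rw [mul_pow, mul_pow, ← mul_add, hu, mul_one]
    · refine le_iSup₂_of_le (NNReal.mk l hl.le) ?_ le_rfl
      change riemDist gm p0 (expMap gm p0 (l • !₂[π / l, 0, 0, θ / l])) = l
      rw [hexp, mul_div_cancel₀ _ hl.ne', mul_div_cancel₀ _ hl.ne', hd]
  refine ⟨!₂[π / l, 0, 0, θ / l], ?_, ?_, ?_⟩
  · simp [gm_apply, p0, fA, fF]
    linear_combination hu
  · rw [hcut]; exact ENNReal.coe_lt_top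
  · rw [hcut]
    change uu θ = l • _
    ext i
    fin_cases i <;> simp [uu] <;> field_simp

lemma continuous_uu : Continuous uu := by
  unfold uu
  fun_prop

lemma continuous_qq : Continuous (qq π) := by
  unfold qq
  fun_prop

theorem tangent_counterexample : uu π ∈ tangentSeparatingSet gm p0 ∧
    uu π ∈ closure (tangentCutLocus gm p0 \ tangentSeparatingSet gm p0) := by
  refine ⟨⟨uu_mem ⟨pi_pos.le, le_rfl⟩, expMap_uu π ▸ mem_separatingSet⟩, ?_⟩
  refine mem_closure_of_tendsto (f := uu) (b := 𝓝[<] π)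
    ((continuous_uu.tendsto π).mono_left nhdsWithin_le_nhds) ?_
  filter_upwards [Ioo_mem_nhdsLT pi_pos] with θ hθ
  exact ⟨uu_mem (Ioo_subset_Icc_self hθ), fun h => not_mem_separatingSet hθ (expMap_uu θ ▸ h.2)⟩

theorem base_counterexample : qq π π ∈ separatingSet gm p0 ∩ cutLocus gm p0 ∧
    qq π π ∈ closure (cutLocus gm p0 \ separatingSet gm p0) := by
  refine ⟨⟨mem_separatingSet, uu π, uu_mem ⟨pi_pos.le, le_rfl⟩, expMap_uu π⟩, ?_⟩
  refine mem_closure_of_tendsto (f := qq π) (b := 𝓝[<] π)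
    ((continuous_qq.tendsto π).mono_left nhdsWithin_le_nhds) ?_
  filter_upwards [Ioo_mem_nhdsLT pi_pos] with θ hθ
  exact ⟨⟨uu θ, uu_mem (Ioo_subset_Icc_self hθ), expMap_uu θ⟩, not_mem_separatingSet hθ⟩

end Pool.Agent.MP_402458_gt

end

section

/-! Products with a flat factor. -/

set_option maxSynthPendingDepth 3

open Set Filter Topology
open scoped ContDiff

namespace Pool.Agent.MP_402458_gt.Sf

section product

variable {E F : Type} [NormedAddCommGroup E] [InnerProductSpace ℝ E] [FiniteDimensional ℝ E]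
  [NormedAddCommGroup F] [NormedSpace ℝ F] [FiniteDimensional ℝ F]

/-- the data of a product of `gF` with a flat factor -/
structure Prd_Trans (g : Met E) (gF : Met F) (P : E →L[ℝ] F) (i : F →L[ℝ] E) (π : E →L[ℝ] E) :
    Prop where
  nE : Nice g
  nF : Nice gF
  Pi : ∀ a, P (i a) = a
  pi : ∀ x, π x = x - i (P x)
  val : ∀ x v w, g x v w = gF (P x) (P v) (P w) + inner ℝ (π v) (π w)
  der : ∀ x u v w, fderiv ℝ g x u v w = fderiv ℝ gF (P x) (P u) (P v) (P w)

variable {g : Met E} {gF : Met F} {P : E →L[ℝ] F} {i : F →L[ℝ] E} {π : E →L[ℝ] E}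

omit [FiniteDimensional ℝ E] [FiniteDimensional ℝ F] in
lemma Prd_Trans.pi_i (h : Prd_Trans g gF P i π) (a : F) : π (i a) = 0 := by
  rw [h.pi, h.Pi, sub_self]

omit [FiniteDimensional ℝ E] [FiniteDimensional ℝ F] in
lemma Prd_Trans.P_pi (h : Prd_Trans g gF P i π) (x : E) : P (π x) = 0 := by
  rw [h.pi, map_sub, h.Pi, sub_self]

omit [FiniteDimensional ℝ E] [FiniteDimensional ℝ F] in
lemma Prd_Trans.pi_pi (h : Prd_Trans g gF P i π) (x : E) : π (π x) = π x := by
  rw [h.pi (π x), h.P_pi, map_zero, sub_zero]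

lemma deriv_clm_Trans {A B : Type} [NormedAddCommGroup A] [NormedSpace ℝ A]
    [NormedAddCommGroup B] [NormedSpace ℝ B] (T : A →L[ℝ] B) {c : ℝ → A}
    (hc : Differentiable ℝ c) : deriv (fun t => T (c t)) = fun t => T (deriv c t) :=
  funext fun t => (T.hasFDerivAt.comp_hasDerivAt t (hc t).hasDerivAt).deriv

lemma deriv2_clm_Trans {A B : Type} [NormedAddCommGroup A] [NormedSpace ℝ A]
    [NormedAddCommGroup B] [NormedSpace ℝ B] (T : A →L[ℝ] B) {c : ℝ → A}
    (hc : ContDiff ℝ 2 c) :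
    deriv (deriv (fun t => T (c t))) = fun t => T (deriv (deriv c) t) := by
  rw [deriv_clm_Trans T (hc.differentiable (by simp)),
    deriv_clm_Trans T hc.differentiable_deriv_two]

omit [FiniteDimensional ℝ E] [FiniteDimensional ℝ F] in
lemma Prd_Trans.lift (h : Prd_Trans g gF P i π) {γ : ℝ → F} (hγ : IsGeodesic gF γ) :
    IsGeodesic g fun t => i (γ t) := by
  refine ⟨i.contDiff.comp hγ.1, fun t w => ?_⟩
  rw [deriv2_clm_Trans i hγ.1, deriv_clm_Trans i (hγ.1.differentiable (by simp))]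
  simp only [h.val, h.der, h.Pi, h.pi_i, inner_zero_left, add_zero]
  exact hγ.2 t (P w)

omit [FiniteDimensional ℝ E] [FiniteDimensional ℝ F] in
lemma Prd_Trans.proj (h : Prd_Trans g gF P i π) {σ : ℝ → E} (hσ : IsGeodesic g σ) :
    IsGeodesic gF fun t => P (σ t) := by
  refine ⟨P.contDiff.comp hσ.1, fun t w => ?_⟩
  rw [deriv2_clm_Trans P hσ.1, deriv_clm_Trans P (hσ.1.differentiable (by simp))]
  have := hσ.2 t (i w)
  simpa only [h.val, h.der, h.Pi, h.pi_i, inner_zero_right, add_zero] using this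

omit [FiniteDimensional ℝ E] [FiniteDimensional ℝ F] in
lemma Prd_Trans.acc (h : Prd_Trans g gF P i π) {σ : ℝ → E} (hσ : IsGeodesic g σ) (t : ℝ) :
    π (deriv (deriv σ) t) = 0 := by
  have := hσ.2 t (π (deriv (deriv σ) t))
  simpa [h.val, h.der, h.P_pi, h.pi_pi] using this

omit [FiniteDimensional ℝ E] [FiniteDimensional ℝ F] in
lemma Prd_Trans.flat (h : Prd_Trans g gF P i π) {σ : ℝ → E} (hσ : IsGeodesic g σ) {l : ℝ}
    (hl : l ≠ 0) (h0 : π (σ 0) = 0) (h1 : π (σ l) = 0) (t : ℝ) : π (σ t) = 0 := by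
  have d1 : Differentiable ℝ σ := hσ.1.differentiable (by simp)
  have d2 : Differentiable ℝ (deriv σ) := hσ.1.differentiable_deriv_two
  have c1 : ∀ s, π (deriv σ s) = π (deriv σ 0) := fun s =>
    is_const_of_deriv_eq_zero (f := fun s => π (deriv σ s)) (π.differentiable.comp d2)
      (fun x => by rw [deriv_clm_Trans π d2]; exact h.acc hσ x) s 0
  have d3 : ∀ s, HasDerivAt (fun s => π (σ s) - s • π (deriv σ 0)) 0 s := fun s => by
    have e1 : HasDerivAt (fun s => π (σ s)) (π (deriv σ s)) s :=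
      π.hasFDerivAt.comp_hasDerivAt s (d1 s).hasDerivAt
    have e2 : HasDerivAt (fun s : ℝ => s • π (deriv σ 0)) ((1 : ℝ) • π (deriv σ 0)) s :=
      (hasDerivAt_id s).smul_const _
    exact (e1.sub e2).congr_deriv (by rw [c1 s, one_smul, sub_self])
  have c2 : ∀ s, π (σ s) = s • π (deriv σ 0) := fun s => by
    have := is_const_of_deriv_eq_zero (fun s => (d3 s).differentiableAt)
      (fun s => (d3 s).deriv) s 0
    simp only [h0, zero_smul, sub_zero] at this
    exact sub_eq_zero.1 this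
  have c3 : π (deriv σ 0) = 0 := by
    have := c2 l
    rw [h1] at this
    exact (smul_eq_zero.1 this.symm).resolve_left hl
  rw [c2 t, c3, smul_zero]

lemma len_bdd_Trans {A : Type} [NormedAddCommGroup A] [NormedSpace ℝ A] (k : Met A) (p q : A) :
    BddBelow {L | ∃ c : ℝ → A, ContDiff ℝ 1 c ∧ c 0 = p ∧ c 1 = q ∧
      L = ∫ t in (0 : ℝ)..1, √(k (c t) (deriv c t) (deriv c t))} := by
  refine ⟨0, ?_⟩
  rintro L ⟨c, -, -, -, rfl⟩
  exact intervalIntegral.integral_nonneg zero_le_one fun t _ => Real.sqrt_nonneg _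

lemma len_ne_Trans {A : Type} [NormedAddCommGroup A] [NormedSpace ℝ A] (k : Met A) (p q : A) :
    Set.Nonempty {L | ∃ c : ℝ → A, ContDiff ℝ 1 c ∧ c 0 = p ∧ c 1 = q ∧
      L = ∫ t in (0 : ℝ)..1, √(k (c t) (deriv c t) (deriv c t))} :=
  ⟨_, fun t => p + t • (q - p), by fun_prop, by simp, by simp, rfl⟩

lemma len_cont_Trans {A : Type} [NormedAddCommGroup A] [NormedSpace ℝ A] {k : Met A}
    (hk : Nice k) {c v : ℝ → A} (hc : Continuous c) (hv : Continuous v) :
    Continuous fun t => √(k (c t) (v t) (v t)) :=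
  (((hk.sm.continuous.comp hc).clm_apply hv).clm_apply hv).sqrt

omit [FiniteDimensional ℝ E] [FiniteDimensional ℝ F] in
lemma Prd_Trans.dist (h : Prd_Trans g gF P i π) (a b : F) :
    riemDist g (i a) (i b) = riemDist gF a b := by
  refine le_antisymm (csInf_le_csInf (len_bdd_Trans g _ _) (len_ne_Trans gF _ _) ?_)
    (le_csInf (len_ne_Trans g _ _) ?_)
  · rintro L ⟨c, hc, rfl, rfl, rfl⟩
    refine ⟨fun t => i (c t), i.contDiff.comp hc, rfl, rfl, ?_⟩
    rw [deriv_clm_Trans i (hc.differentiable (by simp))]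
    simp only [h.val, h.Pi, h.pi_i, inner_zero_left, add_zero]
  · rintro L ⟨c, hc, h0, h1, rfl⟩
    have hd : Continuous (deriv c) := hc.continuous_deriv le_rfl
    refine csInf_le_of_le (len_bdd_Trans gF _ _)
      ⟨fun t => P (c t), P.contDiff.comp hc, by simp only [h0, h.Pi], by simp only [h1, h.Pi],
        rfl⟩ ?_
    rw [deriv_clm_Trans P (hc.differentiable (by simp))]
    refine intervalIntegral.integral_mono_on zero_le_one
      ((len_cont_Trans h.nF (P.continuous.comp hc.continuous)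
        (P.continuous.comp hd)).intervalIntegrable _ _)
      ((len_cont_Trans h.nE hc.continuous hd).intervalIntegrable _ _) fun t _ => ?_
    refine Real.sqrt_le_sqrt ?_
    rw [h.val]
    exact le_add_of_nonneg_right real_inner_self_nonneg

lemma Prd_Trans.exp (h : Prd_Trans g gF P i π) (p v : F) :
    expMap g (i p) (i v) = i (expMap gF p v) := by
  obtain ⟨γ, hγ, rfl, rfl⟩ := h.nF.geo_exists p v
  have e1 := h.nF.exp_eq hγ 1
  have e2 := h.nE.exp_eq (h.lift hγ) 1
  rw [deriv_clm_Trans i (hγ.1.differentiable (by simp))] at e2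
  rw [one_smul] at e1 e2
  rw [e1]
  exact e2

lemma Prd_Trans.cut (h : Prd_Trans g gF P i π) (p v : F) :
    cutTime g (i p) (i v) = cutTime gF p v := by
  simp only [cutTime, ← map_smul, h.exp, h.dist]

lemma Prd_Trans.tcl (h : Prd_Trans g gF P i π) {p u : F} (hu : u ∈ tangentCutLocus gF p) :
    i u ∈ tangentCutLocus g (i p) := by
  obtain ⟨v, h1, h2, rfl⟩ := hu
  refine ⟨i v, ?_, by rwa [h.cut], by rw [h.cut, map_smul]⟩
  simp only [h.val, h.Pi, h.pi_i, inner_zero_left, add_zero, h1]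

omit [FiniteDimensional ℝ E] [FiniteDimensional ℝ F] in
lemma Prd_Trans.seg_lift (h : Prd_Trans g gF P i π) {p : F} {γ : ℝ → F} {l : ℝ}
    (hγ : IsSegment gF p γ l) : IsSegment g (i p) (fun t => i (γ t)) l := by
  obtain ⟨h1, h2, h3, h4, h5⟩ := hγ
  refine ⟨h.lift h1, fun t => ?_, congrArg i h3, h4, (h.dist _ _).trans h5⟩
  rw [deriv_clm_Trans i (h1.1.differentiable (by simp))]
  simp only [h.val, h.Pi, h.pi_i, inner_zero_left, add_zero, h2]

omit [FiniteDimensional ℝ E] [FiniteDimensional ℝ F] in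
lemma Prd_Trans.seg_proj (h : Prd_Trans g gF P i π) {p q : F} {σ : ℝ → E} {l : ℝ}
    (hσ : IsSegment g (i p) σ l) (hq : σ l = i q) (hl : l ≠ 0) :
    IsSegment gF p (fun t => P (σ t)) l ∧ ∀ t, σ t = i (P (σ t)) := by
  obtain ⟨h1, h2, h3, h4, h5⟩ := hσ
  have d1 : Differentiable ℝ σ := h1.1.differentiable (by simp)
  have z : ∀ t, π (σ t) = 0 :=
    h.flat h1 hl (by rw [h3, h.pi_i]) (by rw [hq, h.pi_i])
  have z' : ∀ t, π (deriv σ t) = 0 := fun t => by
    have := congrFun (deriv_clm_Trans π d1) t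
    simp only [z, deriv_const] at this
    exact this.symm
  refine ⟨⟨h.proj h1, fun t => ?_, by simp only [h3, h.Pi], h4, ?_⟩, fun t => ?_⟩
  · rw [deriv_clm_Trans P d1]
    have := h2 t
    simpa only [h.val, z', inner_zero_left, add_zero] using this
  · rw [hq, h.dist] at h5
    simp only [hq, h.Pi, h5]
  · have := z t
    rw [h.pi] at this
    exact sub_eq_zero.1 this

omit [FiniteDimensional ℝ E] [FiniteDimensional ℝ F] in
lemma Prd_Trans.sep (h : Prd_Trans g gF P i π) (p q : F) :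
    i q ∈ separatingSet g (i p) ↔ q ∈ separatingSet gF p := by
  constructor
  · rintro ⟨σ₁, σ₂, l, s1, s2, e1, e2, hne⟩
    have hl : l ≠ 0 := by
      rintro rfl
      refine hne fun t ht => ?_
      obtain rfl : t = 0 := le_antisymm ht.2 ht.1
      rw [e1, e2]
    obtain ⟨a1, b1⟩ := h.seg_proj s1 e1 hl
    obtain ⟨a2, b2⟩ := h.seg_proj s2 e2 hl
    refine ⟨_, _, l, a1, a2, by simp only [e1, h.Pi], by simp only [e2, h.Pi], fun he =>
      hne fun t ht => ?_⟩
    rw [b1 t, b2 t]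
    exact congrArg i (he ht)
  · rintro ⟨γ₁, γ₂, l, s1, s2, e1, e2, hne⟩
    refine ⟨_, _, l, h.seg_lift s1, h.seg_lift s2, by simp only [e1], by simp only [e2],
      fun he => hne fun t ht => ?_⟩
    have := congrArg P (he ht)
    simpa only [h.Pi] using this

lemma Prd_Trans.bad (h : Prd_Trans g gF P i π) {p : F} (hb : Bad gF p) : Bad g (i p) := by
  obtain ⟨u, ⟨u1, u2⟩, w, hw, t1, t2⟩ := hb
  refine ⟨i u, ⟨h.tcl u1, by rwa [h.exp, h.sep]⟩, fun k => i (w k), fun k =>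
    ⟨h.tcl (hw k).1, fun hk => (hw k).2 ⟨(hw k).1, ?_⟩⟩, (i.continuous.tendsto u).comp t1, ?_⟩
  · have := hk.2
    rwa [h.exp, h.sep] at this
  · simp only [h.exp]
    exact (i.continuous.tendsto _).comp t2

omit [FiniteDimensional ℝ E] in
lemma exists_Trans (hg : Nice gF) (hP : ∀ a, P (i a) = a) :
    ∃ (g : Met E) (π : E →L[ℝ] E), Prd_Trans g gF P i π ∧
      (ContDiff ℝ ω gF → ContDiff ℝ ω g) := by
  obtain ⟨T, hT⟩ : ∃ T : (F →L[ℝ] F →L[ℝ] ℝ) →L[ℝ] (E →L[ℝ] E →L[ℝ] ℝ),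
      ∀ b v w, T b v w = b (P v) (P w) :=
    ⟨LinearMap.toContinuousLinearMap
      { toFun := fun b => b.bilinearComp P P
        map_add' := fun a b => by ext; simp
        map_smul' := fun a b => by ext; simp }, fun b v w => by simp⟩
  obtain ⟨π, hπ⟩ : ∃ π : E →L[ℝ] E, ∀ x, π x = x - i (P x) :=
    ⟨ContinuousLinearMap.id ℝ E - i.comp P, fun x => by simp⟩
  obtain ⟨Z, hZ⟩ : ∃ Z : E →L[ℝ] E →L[ℝ] ℝ, ∀ v w, Z v w = inner ℝ (π v) (π w) :=
    ⟨(innerSL ℝ).bilinearComp π π, fun v w => by simp⟩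
  have sm : ∀ {n : WithTop ℕ∞}, ContDiff ℝ n gF → ContDiff ℝ n fun x => T (gF (P x)) + Z :=
    fun hn => (T.contDiff.comp (hn.comp P.contDiff)).add contDiff_const
  have val : ∀ x v w, (T (gF (P x)) + Z) v w = gF (P x) (P v) (P w) + inner ℝ (π v) (π w) :=
    fun x v w => by simp only [add_apply, hT, hZ]
  refine ⟨fun x => T (gF (P x)) + Z, π, ⟨⟨sm hg.sm, fun x v w => ?_, ?_⟩, hg, hP, hπ, val,
    fun x u v w => ?_⟩, sm⟩
  · rw [val, val, hg.sy, real_inner_comm]
  · obtain ⟨C, hC, hco⟩ := hg.co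
    refine ⟨2 * ‖i‖ ^ 2 * C + 2, by positivity, fun x v => ?_⟩
    rw [val, real_inner_self_eq_norm_sq]
    have h1 : ‖v‖ ≤ ‖i‖ * ‖P v‖ + ‖π v‖ := by
      have : v = i (P v) + π v := by rw [hπ]; abel
      calc ‖v‖ = ‖i (P v) + π v‖ := congrArg norm this
        _ ≤ ‖i (P v)‖ + ‖π v‖ := norm_add_le _ _
        _ ≤ _ := by gcongr; exact i.le_opNorm _
    have h2 := hco (P x) (P v)
    have h3 := hg.nonneg (P x) (P v)
    have h4 : ‖v‖ ^ 2 ≤ (‖i‖ * ‖P v‖ + ‖π v‖) ^ 2 := by gcongr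
    have h5 : ‖i‖ ^ 2 * ‖P v‖ ^ 2 ≤ ‖i‖ ^ 2 * (C * gF (P x) (P v) (P v)) := by gcongr
    have h6 : 0 ≤ ‖i‖ ^ 2 * C * ‖π v‖ ^ 2 := by positivity
    nlinarith [sq_nonneg (‖i‖ * ‖P v‖ - ‖π v‖)]
  · have d1 : HasFDerivAt gF (fderiv ℝ gF (P x)) (P x) :=
      (hg.sm.differentiable (by simp) (P x)).hasFDerivAt
    have d2 : HasFDerivAt (fun x => T (gF (P x)) + Z) (T.comp ((fderiv ℝ gF (P x)).comp P)) x :=
      (T.hasFDerivAt.comp x (d1.comp x P.hasFDerivAt)).add_const Z
    rw [d2.fderiv]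
    simp only [ContinuousLinearMap.comp_apply, hT]

end product

theorem transfer {F : Type} [NormedAddCommGroup F] [NormedSpace ℝ F] [FiniteDimensional ℝ F]
    {gF : Met F} {p : F} (hg : Nice gF) (hb : Bad gF p) (n : ℕ) (hn : Module.finrank ℝ F ≤ n) :
    ∃ (g : Met (EuclideanSpace ℝ (Fin n))) (p' : EuclideanSpace ℝ (Fin n)),
      Nice g ∧ Bad g p' ∧ (ContDiff ℝ ω gF → ContDiff ℝ ω g) := by
  obtain ⟨f, hf⟩ : ∃ f : F →ₗ[ℝ] EuclideanSpace ℝ (Fin n), Function.Injective f :=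
    finrank_le_iff_exists_linearMap.1 (by simpa using hn)
  obtain ⟨r, hr⟩ := f.exists_leftInverse_of_injective (LinearMap.ker_eq_bot.2 hf)
  obtain ⟨g, π, h, ha⟩ := exists_Trans (P := LinearMap.toContinuousLinearMap r)
    (i := LinearMap.toContinuousLinearMap f) hg fun a => LinearMap.congr_fun hr a
  exact ⟨g, _, h.nE, h.bad hb, ha⟩

end Pool.Agent.MP_402458_gt.Sf

end
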