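import Pool.Agent.Mg.F402458a.G5ecee0

section

/-! The fan of geodesics of the lens. -/

set_option maxSynthPendingDepth 3

open Set Filter Topology
open scoped ContDiff

namespace Pool.Agent.MP_402458_gt.Sf

lemma bd_eq_Fan (X : ℝ) : bd X = eta X + h (X - 3) * (7 - 2 * X) := rfl

theorem t0_deriv (m X : ℝ) : HasDerivAt (t0 m) (t0d m X) X := by
  have d1 : HasDerivAt (fun X => H (X - 3)) (h (X - 3)) X := by
    simpa using (H_deriv (X - 3)).comp_sub_const X 3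
  have d2 : HasDerivAt eta (-(2 * h (X - 3))) X := (d1.const_mul 2).const_sub 1
  exact (((d2.mul (bb_deriv X)).mul_const (SS m)).add (d1.const_mul 20)).congr_deriv
    (by rw [t0d, bd_eq_Fan]; ring)

theorem t0_contDiff (m : ℝ) : ContDiff ℝ 2 (t0 m) := by
  have : ContDiff ℝ ∞ (t0 m) := by unfold t0; fun_prop
  exact this.of_le (WithTop.coe_le_coe.2 le_top)

theorem t0d_cont (m : ℝ) : Continuous (t0d m) := by
  have h1 := bb_contDiff.continuous
  have h2 := eta_contDiff.continuous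
  unfold t0d
  fun_prop

theorem t0d_pos {m : ℝ} (hm : |m| ≤ 1) (X : ℝ) : 0 < t0d m X := by
  by_cases hX : X ≤ 3 ∨ 4 ≤ X
  · rw [t0d_out m hX]
    exact SS_pos m
  · rw [not_or, not_le, not_le] at hX
    have h1 : 0 < h (X - 3) := h_pos (by linarith [hX.1]) (by linarith [hX.2])
    have h2 := bb_mid hX.1.le hX.2.le
    have h3 := H_nonneg (X - 3)
    have h4 := H_le_one (X - 3)
    have h5 : 2 * bb X - eta X * (7 - 2 * X) ≤ 9 := by
      unfold eta
      nlinarith [hX.1, hX.2, h2.2]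
    have h6 := SS_le hm
    have h7 := SS_pos m
    have h8 : 0 < 20 - SS m * (2 * bb X - eta X * (7 - 2 * X)) := by
      nlinarith [mul_le_mul_of_nonneg_left h5 h7.le]
    unfold t0d
    positivity

lemma bb_nonneg_Fan {X : ℝ} (h0 : 0 ≤ X) (h7 : X ≤ 7) : 0 ≤ bb X := by
  rcases le_total X 3 with h | h
  · rwa [bb_left h]
  · rcases le_total X 4 with h' | h'
    · linarith [(bb_mid h h').1]
    · rw [bb_right h']; linarith

lemma rr_cm_Fan (m : ℝ) {X : ℝ} (h0 : 0 ≤ X) (h7 : X ≤ 7) : rr (cm m X) = bb X * SS m := by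
  have h1 := SS_sq m
  have h2 := mul_nonneg (bb_nonneg_Fan h0 h7) (SS_pos m).le
  rw [rr, Real.sqrt_eq_iff_mul_self_eq (by positivity) h2]
  simp only [cm]
  linear_combination (-bb X ^ 2) * h1

theorem D0_cm (m : ℝ) {X : ℝ} (h0 : 0 ≤ X) (h7 : X ≤ 7) : D0 (cm m X) = t0 m X := by
  rw [D0, rr_cm_Fan m h0 h7, t0]
  simp only [cm]
  ring

lemma D0x_cm_Fan (m : ℝ) {X : ℝ} (h0 : 0 < X) (h7 : X < 7) :
    D0x (cm m X) = h (X - 3) * (20 - 2 * (bb X * SS m)) + eta X * bd X / SS m := by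
  have h1 := (bb_pos h0 h7).ne'
  have h2 := (SS_pos m).ne'
  rw [D0x, rr_cm_Fan m h0.le h7.le]
  simp only [cm]
  congr 1
  field_simp

lemma D0y_cm_Fan (m : ℝ) {X : ℝ} (h0 : 0 < X) (h7 : X < 7) :
    D0y (cm m X) = eta X * m / SS m := by
  have h1 := (bb_pos h0 h7).ne'
  have h2 := (SS_pos m).ne'
  rw [D0y, rr_cm_Fan m h0.le h7.le]
  simp only [cm]
  field_simp

lemma nu_cm_Fan {m : ℝ} (hm : |m| ≤ 1) {X : ℝ} (h2 : 2 < X) (h5 : X < 5) : nu (cm m X) = 0 := by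
  have h1 : 0 ≤ bb X := bb_nonneg_Fan (by linarith) (by linarith)
  have h3 : bb X ≤ 4 := by
    rcases le_total X 3 with h | h
    · rw [bb_left h]; linarith
    · rcases le_total X 4 with h' | h'
      · exact (bb_mid h h').2
      · rw [bb_right h']; linarith
  have h4 : m ^ 2 ≤ 1 := by nlinarith [sq_abs m, abs_nonneg m]
  have h6 : (m * bb X) ^ 2 - 25 ≤ 0 := by
    have : bb X ^ 2 ≤ 16 := by nlinarith
    rw [mul_pow]
    nlinarith [sq_nonneg m, sq_nonneg (bb X)]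
  have h7 : H ((cm m X).2 ^ 2 - 25) = 0 := H_zero h6
  rw [nu, h7, mul_zero]

lemma g0_in_Fan {m : ℝ} (hm : |m| ≤ 1) {X : ℝ} (h2 : 2 < X) (h5 : X < 5) :
    g0 (cm m X) = mk3 (D0x (cm m X) ^ 2 + (m * bd X / SS m) ^ 2)
      (D0x (cm m X) * D0y (cm m X) - m * bd X / SS m * (1 / SS m))
      (D0y (cm m X) ^ 2 + (1 / SS m) ^ 2) := by
  have h0 : 0 < X := by linarith
  have h7 : X < 7 := by linarith
  have h1 := (bb_pos h0 h7).ne'
  have h3 := (SS_pos m).ne'
  have e1 : (cm m X).2 * bd (cm m X).1 / rr (cm m X) = m * bd X / SS m := by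
    rw [rr_cm_Fan m h0.le h7.le]
    simp only [cm]
    field_simp
  have e2 : bb (cm m X).1 / rr (cm m X) = 1 / SS m := by
    rw [rr_cm_Fan m h0.le h7.le]
    simp only [cm]
    field_simp
  rw [g0, if_pos (show 2 < (cm m X).1 ∧ (cm m X).1 < 5 from ⟨h2, h5⟩), e1, e2,
    nu_cm_Fan hm h2 h5, add_zero, add_zero]

lemma g0_out_Fan (m : ℝ) {X : ℝ} (hX : ¬(2 < X ∧ X < 5)) : g0 (cm m X) = mk3 1 0 1 := by
  rw [g0, if_neg (show ¬(2 < (cm m X).1 ∧ (cm m X).1 < 5) from hX)]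

lemma dir_Fan (m : ℝ) {X : ℝ} (h0 : 0 < X) (h7 : X < 7) :
    D0x (cm m X) + D0y (cm m X) * (m * bd X) = t0d m X := by
  have h1 := SS_sq m
  have h2 := (SS_pos m).ne'
  have h3 : eta X * bd X / SS m + eta X * m / SS m * (m * bd X) = eta X * bd X * SS m := by
    field_simp
    rw [h1]
  rw [D0x_cm_Fan m h0 h7, D0y_cm_Fan m h0 h7, add_assoc, h3, t0d, bd_eq_Fan]
  ring

lemma sign_Fan {X : ℝ} (hX : X ≤ 3 ∨ 4 ≤ X) :
    h (X - 3) = 0 ∧ bd X = eta X ∧ eta X * eta X = 1 := by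
  rcases hX with hX | hX
  · rw [bd_left hX, eta_left hX]
    exact ⟨h_zero (Or.inl (by linarith)), rfl, by norm_num⟩
  · rw [bd_right hX, eta_right hX]
    exact ⟨h_zero (Or.inr (by linarith)), rfl, by norm_num⟩

theorem g0_cm {m : ℝ} (hm : |m| ≤ 1) {X : ℝ} (h0 : 0 < X) (h7 : X < 7) (w : P2) :
    g0 (cm m X) (cd m X) w = t0d m X * (D0x (cm m X) * w.1 + D0y (cm m X) * w.2) := by
  by_cases hX : 2 < X ∧ X < 5
  · rw [g0_in_Fan hm hX.1 hX.2, mk3_apply, ← dir_Fan m h0 h7]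
    simp only [cd]
    ring
  · have hX' : X ≤ 3 ∨ 4 ≤ X := by
      rw [not_and_or, not_lt, not_lt] at hX
      rcases hX with h | h
      · left; linarith
      · right; linarith
    obtain ⟨e1, e2, e3⟩ := sign_Fan hX'
    have h2 := (SS_pos m).ne'
    rw [g0_out_Fan m hX, mk3_apply, t0d_out m hX', D0x_cm_Fan m h0 h7, D0y_cm_Fan m h0 h7,
      e1, e2, e3]
    simp only [cd]
    rw [e2]
    field_simp
    ring

theorem g0_cm_sq {m : ℝ} (hm : |m| ≤ 1) (X : ℝ) :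
    g0 (cm m X) (cd m X) (cd m X) = t0d m X ^ 2 := by
  by_cases hX : 2 < X ∧ X < 5
  · have h0 : 0 < X := by linarith [hX.1]
    have h7 : X < 7 := by linarith [hX.2]
    rw [g0_cm hm h0 h7, sq]
    congr 1
    rw [← dir_Fan m h0 h7]
    simp only [cd]
    ring
  · have hX' : X ≤ 3 ∨ 4 ≤ X := by
      rw [not_and_or, not_lt, not_lt] at hX
      rcases hX with h | h
      · left; linarith
      · right; linarith
    obtain ⟨-, e2, e3⟩ := sign_Fan hX'
    rw [g0_out_Fan m hX, mk3_apply, t0d_out m hX', SS_sq]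
    simp only [cd]
    rw [e2]
    linear_combination m ^ 2 * e3

theorem g0_cm_flat {m : ℝ} (hm : |m| ≤ 1) {X : ℝ} (hX : X ≤ 3 ∨ 4 ≤ X) :
    g0 (cm m X) = mk3 1 0 1 := by
  by_cases hX' : 2 < X ∧ X < 5
  · have h0 : 0 < X := by linarith [hX'.1]
    have h7 : X < 7 := by linarith [hX'.2]
    obtain ⟨e1, e2, e3⟩ := sign_Fan hX
    have h1 := SS_sq m
    have h2 := (SS_pos m).ne'
    rw [g0_in_Fan hm hX'.1 hX'.2, D0x_cm_Fan m h0 h7, D0y_cm_Fan m h0 h7, e1, e2, e3]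
    congr 1
    · field_simp
      linear_combination m ^ 2 * e3 - h1
    · field_simp
      ring
    · field_simp
      linear_combination m ^ 2 * e3 - h1
  · exact g0_out_Fan m hX'

end Pool.Agent.MP_402458_gt.Sf

end

section

/-! Calibrated curves are geodesics. -/

set_option maxSynthPendingDepth 3

open Set Filter Topology
open scoped ContDiff

namespace Pool.Agent.MP_402458_gt.Sf

variable {E : Type} [NormedAddCommGroup E] [NormedSpace ℝ E] [FiniteDimensional ℝ E] {g : Met E}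

omit [FiniteDimensional ℝ E] in
lemma two_deriv_Geo {γ : ℝ → E} (h : ContDiff ℝ 2 γ) (t : ℝ) :
    HasDerivAt γ (deriv γ t) t ∧ HasDerivAt (deriv γ) (deriv (deriv γ) t) t := by
  have h' : ContDiff ℝ (1 + 1) γ := by rw [one_add_one_eq_two]; exact h
  rw [contDiff_succ_iff_deriv] at h'
  exact ⟨(h'.1 t).hasDerivAt, ((h'.2.2.differentiable (by simp)) t).hasDerivAt⟩

omit [FiniteDimensional ℝ E] in
lemma eqn_Geo (hg : Nice g) {Γ : ℝ → E} (hΓ : ContDiff ℝ 2 Γ) (t0 : ℝ) {U : E → ℝ}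
    (hU : ContDiffAt ℝ 2 U (Γ t0))
    (h1 : ∀ᶠ y in 𝓝 (Γ t0), ∀ v, fderiv ℝ U y v ^ 2 ≤ g y v v)
    (h2 : ∀ᶠ t in 𝓝 t0, ∀ w, g (Γ t) (deriv Γ t) w = -fderiv ℝ U (Γ t) w)
    (h3 : g (Γ t0) (deriv Γ t0) (deriv Γ t0) = 1) (w : E) :
    g (Γ t0) (deriv (deriv Γ) t0) w + fderiv ℝ g (Γ t0) (deriv Γ t0) (deriv Γ t0) w
      - (1 / 2) * fderiv ℝ g (Γ t0) w (deriv Γ t0) (deriv Γ t0) = 0 := by
  obtain ⟨e1, e2⟩ := two_deriv_Geo hΓ t0
  have hU1 : ContDiffAt ℝ 1 (fderiv ℝ U) (Γ t0) :=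
    hU.fderiv_right (m := 1) (by rw [one_add_one_eq_two])
  have hB : HasFDerivAt (fderiv ℝ U) (fderiv ℝ (fderiv ℝ U) (Γ t0)) (Γ t0) :=
    (hU1.differentiableAt (by simp)).hasFDerivAt
  have hG : HasFDerivAt g (fderiv ℝ g (Γ t0)) (Γ t0) :=
    (hg.sm.differentiable (by simp) (Γ t0)).hasFDerivAt
  have hsym : fderiv ℝ (fderiv ℝ U) (Γ t0) (deriv Γ t0) w
      = fderiv ℝ (fderiv ℝ U) (Γ t0) w (deriv Γ t0) :=
    (hU.isSymmSndFDerivAt (by simp)).eq _ _
  generalize fderiv ℝ (fderiv ℝ U) (Γ t0) = B at hB hsym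
  generalize fderiv ℝ g (Γ t0) = G at hG ⊢
  generalize deriv (deriv Γ) t0 = a at e2 ⊢
  have d1 : HasDerivAt (fun t => g (Γ t) (deriv Γ t) w)
      (G (deriv Γ t0) (deriv Γ t0) w + g (Γ t0) a w) t0 := by
    have k1 : HasDerivAt (fun t => g (Γ t)) (G (deriv Γ t0)) t0 := hG.comp_hasDerivAt t0 e1
    have k2 := (k1.clm_apply e2).clm_apply (hasDerivAt_const t0 w)
    simpa using k2
  have d2 : HasDerivAt (fun t => -fderiv ℝ U (Γ t) w) (-B (deriv Γ t0) w) t0 := by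
    have k1 : HasDerivAt (fun t => fderiv ℝ U (Γ t)) (B (deriv Γ t0)) t0 :=
      hB.comp_hasDerivAt t0 e1
    have k2 := (k1.clm_apply (hasDerivAt_const t0 w)).neg
    exact k2.congr_deriv (by simp)
  have d3 : G (deriv Γ t0) (deriv Γ t0) w + g (Γ t0) a w = -B (deriv Γ t0) w :=
    d1.unique (d2.congr_of_eventuallyEq (h2.mono fun t ht => ht w))
  have h4 : fderiv ℝ U (Γ t0) (deriv Γ t0) = -1 := by
    have := h2.self_of_nhds (deriv Γ t0)
    linarith
  generalize deriv Γ t0 = v at *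
  generalize Γ t0 = x at *
  have l1 : HasDerivAt (fun s : ℝ => x + s • w) w 0 := by
    simpa using ((hasDerivAt_id (0 : ℝ)).smul_const w).const_add x
  have l0 : x + (0 : ℝ) • w = x := by simp
  have d4 : HasDerivAt (fun s : ℝ => g (x + s • w) v v) (G w v v) 0 := by
    have k1 : HasDerivAt (fun s : ℝ => g (x + s • w)) (G w) 0 :=
      (l0.symm ▸ hG).comp_hasDerivAt (0 : ℝ) l1
    have k2 := (k1.clm_apply (hasDerivAt_const 0 v)).clm_apply (hasDerivAt_const 0 v)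
    simpa using k2
  have d5 : HasDerivAt (fun s : ℝ => fderiv ℝ U (x + s • w) v) (B w v) 0 := by
    have k1 : HasDerivAt (fun s : ℝ => fderiv ℝ U (x + s • w)) (B w) 0 :=
      (l0.symm ▸ hB).comp_hasDerivAt (0 : ℝ) l1
    have k2 := k1.clm_apply (hasDerivAt_const 0 v)
    simpa using k2
  have d6 := d4.sub (d5.pow 2)
  have m1 : IsLocalMin (fun s : ℝ => g (x + s • w) v v - fderiv ℝ U (x + s • w) v ^ 2) 0 := by
    have k1 : Tendsto (fun s : ℝ => x + s • w) (𝓝 0) (𝓝 x) := by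
      have := l1.continuousAt.tendsto
      rwa [l0] at this
    filter_upwards [k1.eventually h1] with s hs
    have := hs v
    simp only [l0, h3, h4]
    linarith
  have d7 := m1.hasDerivAt_eq_zero d6
  simp only [l0, h4] at d7
  norm_num at d7
  linarith

theorem geo_of_cal (hg : Nice g) {c c' : ℝ → E} {τ τ' : ℝ → ℝ} (L : ℝ) (hc : ContDiff ℝ 2 c)
    (hc' : ∀ X, HasDerivAt c (c' X) X) (hτ : ContDiff ℝ 2 τ) (hτ' : ∀ X, HasDerivAt τ (τ' X) X)
    (hpos : ∀ X, 0 < τ' X) (hsurj : Function.Surjective τ)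
    (hU : ∀ X, ∃ U : E → ℝ, ContDiffAt ℝ 2 U (c X) ∧
      (∀ᶠ y in 𝓝 (c X), ∀ v, fderiv ℝ U y v ^ 2 ≤ g y v v) ∧
      ∀ᶠ Z in 𝓝 X, ∀ w, g (c Z) (c' Z) w = τ' Z * fderiv ℝ U (c Z) w)
    (hsp : ∀ X, g (c X) (c' X) (c' X) = τ' X ^ 2) :
    ∃ Γ : ℝ → E, UG g Γ ∧
      ∀ X, Γ (L - τ X) = c X ∧ deriv Γ (L - τ X) = -(τ' X)⁻¹ • c' X := by
  have hm : StrictMono τ := strictMono_of_deriv_pos fun X => by rw [(hτ' X).deriv]; exact hpos X
  let e : ℝ ≃ₜ ℝ := (hm.orderIsoOfSurjective τ hsurj).toHomeomorph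
  have he : ∀ X, e X = τ X := fun X => rfl
  have he' : (e : ℝ → ℝ) = τ := funext he
  have hξ : ContDiff ℝ 2 e.symm :=
    e.contDiff_symm_deriv (f' := τ') (fun X => (hpos X).ne') (fun X => he' ▸ hτ' X) (he' ▸ hτ)
  have hξτ : ∀ X, e.symm (τ X) = X := fun X => by rw [← he, e.symm_apply_apply]
  have hτξ : ∀ t, τ (e.symm t) = t := fun t => by rw [← he, e.apply_symm_apply]
  have hξ' : ∀ t, HasDerivAt e.symm (τ' (e.symm t))⁻¹ t := fun t =>
    HasDerivAt.of_local_left_inverse e.symm.continuous.continuousAt (hτ' _) (hpos _).ne'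
      (Eventually.of_forall hτξ)
  have hΓ : ContDiff ℝ 2 (fun t => c (e.symm (L - t))) :=
    hc.comp (hξ.comp (contDiff_const.sub contDiff_id))
  have hd : ∀ t, HasDerivAt (fun t => c (e.symm (L - t)))
      (-(τ' (e.symm (L - t)))⁻¹ • c' (e.symm (L - t))) t := fun t => by
    have k1 : HasDerivAt (fun t => e.symm (L - t)) (-(τ' (e.symm (L - t)))⁻¹) t := by
      simpa using (hξ' (L - t)).comp_const_sub L t
    exact (hc' _).scomp t k1
  have hu : ∀ t, g (c (e.symm (L - t))) (deriv (fun t => c (e.symm (L - t))) t)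
      (deriv (fun t => c (e.symm (L - t))) t) = 1 := fun t => by
    have := (hpos (e.symm (L - t))).ne'
    rw [(hd t).deriv]
    simp only [map_smul, smul_apply, smul_eq_mul, hsp]
    field_simp
  refine ⟨fun t => c (e.symm (L - t)), ⟨⟨hΓ, fun t w => ?_⟩, hu⟩, fun X => ?_⟩
  · obtain ⟨U, u1, u2, u3⟩ := hU (e.symm (L - t))
    refine eqn_Geo hg hΓ t u1 u2 ?_ (hu t) w
    have k1 : Tendsto (fun t => e.symm (L - t)) (𝓝 t) (𝓝 (e.symm (L - t))) :=
      (e.symm.continuous.comp (continuous_const.sub continuous_id)).continuousAt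
    filter_upwards [k1.eventually u3] with s hs w
    have := (hpos (e.symm (L - s))).ne'
    rw [(hd s).deriv]
    simp only [map_smul, smul_apply, smul_eq_mul, hs]
    field_simp
  · rw [(hd _).deriv]
    simp only [sub_sub_cancel, hξτ, and_self]

end Pool.Agent.MP_402458_gt.Sf

end

section

/-! The calibrations. -/

set_option maxSynthPendingDepth 3

open Set Filter Topology
open scoped ContDiff

namespace Pool.Agent.MP_402458_gt.Sf

variable {g : Met P2} {m s : ℝ}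

lemma nr_zero_CalK : nr 0 = 0 := by simp [nr]

lemma fst_le_nr_CalK (x : P2) : x.1 ≤ nr x :=
  Real.le_sqrt_of_sq_le (by nlinarith [sq_nonneg x.2])

lemma rhs_nonneg_CalK (a : ℝ) {ε : ℝ} (hε : 0 < ε) (v : P2) : 0 ≤ √a + ε * ‖v‖ := by
  positivity

theorem cal_D0 (hb : Base g) : Cal g D0 := by
  refine ⟨D0_cont, fun x ε hε => ?_⟩
  by_cases h0 : x = 0
  · subst h0
    have e : ∀ᶠ y : P2 in 𝓝 0, y.1 < 3 :=
      continuous_fst.continuousAt.eventually_lt continuousAt_const (by simp)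
    filter_upwards [e] with y hy
    rw [D0_left hy.le, D0_left (by simp), nr_zero_CalK]
    linarith [nr_nonneg y, rhs_nonneg_CalK (g 0 (y - 0) (y - 0)) hε (y - 0)]
  by_cases h7 : x = pp
  · subst h7
    have e : ∀ᶠ y : P2 in 𝓝 pp, 4 < y.1 :=
      continuousAt_const.eventually_lt continuous_fst.continuousAt (by norm_num [pp])
    filter_upwards [e] with y hy
    have h4 : (4 : ℝ) ≤ pp.1 := by norm_num [pp]
    rw [D0_right hy.le, D0_right h4, sub_self, nr_zero_CalK]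
    have h1 : nr (y - pp) ≤ √(g pp (y - pp) (y - pp)) :=
      Real.sqrt_le_sqrt ((g0_low (Or.inr h4) _).trans (hb.low _ _))
    have h2 : 0 ≤ ε * ‖y - pp‖ := by positivity
    linarith
  refine cal_of_deriv (D0_smooth h0 h7).2 (fun v => ?_) ε hε
  simpa using (D0_le h0 h7 v).trans (hb.low x v)

theorem Ds_small (hr : Ray g m s) {x : P2} (hx : x.1 ≤ 3) (h : Ds (ep m) s (rot m x) < nr x) :
    0 < lX m x ∧ lX m x < 2 ∧ lY m x ^ 2 ≤ 3 * ep m * lX m x ^ 2 ∧ nr x < 5 / 2 := by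
  have _ := hx
  rw [← nr_rot m x] at h
  have h2 : lX m x < 2 := by
    by_contra hc
    rw [Ds_far _ _ (by simpa using not_lt.1 hc)] at h
    exact lt_irrefl _ h
  rcases Ds_near hr.par h.le with h3 | ⟨h3, h4⟩
  · exact absurd h3 (by simpa using h2)
  simp only [rot_fst, rot_snd] at h3 h4
  refine ⟨h3, h2, h4, ?_⟩
  have h5 := nr_sq x
  rw [← rot_sq m x] at h5
  have h6 : lX m x ^ 2 < 4 := by nlinarith
  have h7 := hr.par.e1
  have h8 : ep m * lX m x ^ 2 ≤ 1 / 400 * 4 :=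
    mul_le_mul h7 h6.le (sq_nonneg _) (by norm_num)
  exact lt_of_pow_lt_pow_left₀ 2 (by norm_num) (by nlinarith)

theorem rot_low (hb : Base g) (hr : Ray g m s) {x : P2} (hx : x.1 ≤ 3) (v : P2) :
    Fb (ep m) s (rot m x) ^ 2 * lX m v ^ 2 + lY m v ^ 2 ≤ g x v v := by
  have _ := hb
  have h1 := hr.low x v
  have h2 := g0_low (Or.inl hx) v
  have h3 := rot_sq m v
  unfold Bm at h1
  linarith

lemma Dk_far_CalK (hr : Ray g m s) {x : P2} (hx : 5 / 2 ≤ x.1) : Dk m s x = D0 x := by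
  unfold Dk
  split_ifs with h3
  · refine min_eq_left ?_
    rw [D0_left h3]
    by_contra hc
    have := (Ds_small hr h3 (not_le.1 hc)).2.2.2
    linarith [fst_le_nr_CalK x]
  · rfl

lemma Dk_left_CalK (m s : ℝ) {x : P2} (hx : x.1 ≤ 3) :
    Dk m s x = min (D0 x) (Ds (ep m) s (rot m x)) := by
  unfold Dk
  rw [if_pos hx]

lemma Ds_focus_CalK (ε : ℝ) (hs : s ≤ 1) : Ds ε s (s, 0) = (1 - ε) * s := by
  rw [Ds_in ε s hs, sub_self, nr_zero_CalK, zero_add]

theorem cal_Dk (hb : Base g) (hr : Ray g m s) : Cal g (Dk m s) := by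
  have hc : Continuous fun x : P2 => Ds (ep m) s (rot m x) :=
    (Ds_cont _ _).comp (rot m).continuous
  have hs1 : s < 1 := by linarith [hr.par.s1]
  refine ⟨?_, fun x ε hε => ?_⟩
  · unfold Dk
    refine Continuous.if_le (D0_cont.min hc) D0_cont continuous_fst continuous_const fun x hx => ?_
    rw [← Dk_left_CalK m s hx.le, Dk_far_CalK hr (by rw [hx]; norm_num)]
  have hD := (cal_D0 hb).2 x ε hε
  by_cases hx : 5 / 2 < x.1
  · have e : ∀ᶠ y : P2 in 𝓝 x, 5 / 2 < y.1 :=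
      continuousAt_const.eventually_lt continuous_fst.continuousAt hx
    filter_upwards [e, hD] with y hy h1
    rwa [Dk_far_CalK hr hx.le, Dk_far_CalK hr hy.le]
  have hx3 : x.1 < 3 := by linarith [not_lt.1 hx]
  have e : ∀ᶠ y : P2 in 𝓝 x, y.1 < 3 :=
    continuous_fst.continuousAt.eventually_lt continuousAt_const hx3
  have hS : ∀ᶠ y : P2 in 𝓝 x, Dk m s x - Ds (ep m) s (rot m y) ≤
      √(g x (y - x) (y - x)) + ε * ‖y - x‖ := by
    rw [Dk_left_CalK m s hx3.le]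
    have m1 := min_le_left (D0 x) (Ds (ep m) s (rot m x))
    have m2 := min_le_right (D0 x) (Ds (ep m) s (rot m x))
    by_cases h1 : D0 x < Ds (ep m) s (rot m x)
    · have e1 : ∀ᶠ y : P2 in 𝓝 x, D0 x < Ds (ep m) s (rot m y) :=
        continuousAt_const.eventually_lt hc.continuousAt h1
      filter_upwards [e1] with y hy
      linarith [rhs_nonneg_CalK (g x (y - x) (y - x)) hε (y - x)]
    by_cases h2 : rot m x = (s, 0)
    · have e1 : ∀ᶠ y : P2 in 𝓝 x, (rot m y).1 < 1 :=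
        (continuous_fst.comp (rot m).continuous).continuousAt.eventually_lt continuousAt_const
          (by simpa only [Function.comp_apply, h2] using hs1)
      filter_upwards [e1] with y hy
      rw [h2, Ds_focus_CalK _ hs1.le] at m2
      rw [h2, Ds_focus_CalK _ hs1.le, Ds_in _ _ hy.le]
      linarith [rhs_nonneg_CalK (g x (y - x) (y - x)) hε (y - x), nr_nonneg (rot m y - (s, 0))]
    have h3 : Ds (ep m) s (rot m x) ≤ nr (rot m x) := by
      rw [nr_rot, ← D0_left hx3.le]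
      exact not_lt.1 h1
    have h4 : h (2 - (rot m x).1) = 0 ∨ (rot m x).2 ^ 2 ≤ 4 * ep m * (rot m x).1 ^ 2 := by
      rcases Ds_near hr.par h3 with h5 | ⟨_, h5⟩
      · exact Or.inl (h_zero (Or.inl (by linarith)))
      · have := mul_nonneg hr.par.e0.le (sq_nonneg (rot m x).1)
        exact Or.inr (by linarith)
    have hd := (Ds_smooth hr.par h2).2.comp x (rot m).hasFDerivAt
    have h5 := cal_of_deriv (g := g) hd (fun v => by
      simpa using (Ds_le hr.par h2 h4 (rot m v)).trans (rot_low hb hr hx3.le v)) ε hε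
    filter_upwards [h5] with y hy
    simp only [Function.comp_apply] at hy
    linarith
  filter_upwards [e, hD, hS] with y hy h1 h2
  rw [Dk_left_CalK m s hy.le]
  have m1 : Dk m s x ≤ D0 x := by
    rw [Dk_left_CalK m s hx3.le]
    exact min_le_left _ _
  rcases le_total (D0 y) (Ds (ep m) s (rot m y)) with h3 | h3
  · rw [min_eq_left h3]
    linarith
  · rwa [min_eq_right h3]

theorem Dk_pp (m s : ℝ) : Dk m s pp = 20 := by
  unfold Dk
  rw [if_neg (by norm_num [pp]), D0_right (by norm_num [pp]), sub_self, nr_zero_CalK, sub_zero]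

theorem Dk_q (hr : Ray g m s) : Dk m s (cm m (s / SS m)) = (1 - ep m) * s := by
  have h0 := hr.par.s0
  have h1 := hr.par.s1
  have hS := SS_pos m
  have hX : s / SS m ≤ 3 := by
    rw [div_le_iff₀ hS]
    linarith [one_le_SS m]
  have h2 : rot m (cm m (s / SS m)) = (s, 0) := by
    rw [rot_cm m hX, mul_div_cancel₀ _ hS.ne']
  have h3 : (cm m (s / SS m)).1 ≤ 3 := hX
  rw [Dk_left_CalK m s h3, D0_left h3, ← nr_rot m, h2, Ds_focus_CalK _ (by linarith)]
  have h4 : nr (s, 0) = s := by simp [nr, Real.sqrt_sq h0.le]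
  rw [h4]
  exact min_eq_right (by nlinarith [mul_pos hr.par.e0 h0])

end Pool.Agent.MP_402458_gt.Sf

end

section

/-! The geodesics. -/

set_option maxSynthPendingDepth 3

open Set Filter Topology
open scoped ContDiff

namespace Pool.Agent.MP_402458_gt.Sf

variable {g : Met P2} {m s : ℝ}

lemma cm_smooth_RayG (m : ℝ) : ContDiff ℝ 2 (cm m) := by
  have h1 : ContDiff ℝ 2 bb := bb_contDiff.of_le (by norm_cast)
  exact contDiff_id.prodMk (contDiff_const.mul h1)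

lemma cd_cont_RayG (m : ℝ) : Continuous (cd m) :=
  continuous_const.prodMk (continuous_const.mul bd_contDiff.continuous)

lemma surj_RayG {τ : ℝ → ℝ} (hc : Continuous τ) {k a b : ℝ} (hk : 0 < k)
    (h0 : ∀ X, X ≤ 0 → τ X = k * X + a) (h4 : ∀ X, 4 ≤ X → τ X = k * X + b) :
    Function.Surjective τ := by
  refine hc.surjective ?_ ?_
  · refine (tendsto_atTop_add_const_right _ b (tendsto_id.const_mul_atTop hk)).congr' ?_
    filter_upwards [eventually_ge_atTop 4] with X hX using (h4 X hX).symm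
  · refine (tendsto_atBot_add_const_right _ a (tendsto_id.const_mul_atBot hk)).congr' ?_
    filter_upwards [eventually_le_atBot 0] with X hX using (h0 X hX).symm

lemma lin_RayG (hb : Base g) (μ : ℝ) {τ' : ℝ → ℝ} {X : ℝ} (hX : X < 3 ∨ 4 < X)
    (hZ : ∀ᶠ Z in 𝓝 X, ∀ w, g (cm m Z) (cd m Z) w = τ' Z * lX μ w) :
    ∃ U : P2 → ℝ, ContDiffAt ℝ 2 U (cm m X) ∧
      (∀ᶠ y in 𝓝 (cm m X), ∀ v, fderiv ℝ U y v ^ 2 ≤ g y v v) ∧
      ∀ᶠ Z in 𝓝 X, ∀ w, g (cm m Z) (cd m Z) w = τ' Z * fderiv ℝ U (cm m Z) w := by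
  refine ⟨lX μ, (lX μ).contDiff.contDiffAt, ?_, ?_⟩
  · have h1 : ∀ᶠ y : P2 in 𝓝 (cm m X), y.1 < 3 ∨ 4 < y.1 := by
      rcases hX with hX | hX
      · exact (continuous_fst.continuousAt.eventually_lt continuousAt_const hX).mono
          fun y hy => Or.inl hy
      · exact (continuousAt_const.eventually_lt continuous_fst.continuousAt hX).mono
          fun y hy => Or.inr hy
    filter_upwards [h1] with y hy v
    rw [ContinuousLinearMap.fderiv]
    have h2 := g0_low (x := y) (hy.imp le_of_lt le_of_lt) v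
    have h3 := hb.low y v
    have h4 := rot_sq μ v
    nlinarith [sq_nonneg (lY μ v)]
  · simpa only [ContinuousLinearMap.fderiv] using hZ

lemma mid_RayG (hb : Base g) (hm : |m| ≤ 1) {τ' : ℝ → ℝ} {X : ℝ} (h0 : 0 < X) (h7 : X < 7)
    (hZ : ∀ᶠ Z in 𝓝 X, (∀ w, g (cm m Z) (cd m Z) w = g0 (cm m Z) (cd m Z) w) ∧
      τ' Z = t0d m Z) :
    ∃ U : P2 → ℝ, ContDiffAt ℝ 2 U (cm m X) ∧
      (∀ᶠ y in 𝓝 (cm m X), ∀ v, fderiv ℝ U y v ^ 2 ≤ g y v v) ∧
      ∀ᶠ Z in 𝓝 X, ∀ w, g (cm m Z) (cd m Z) w = τ' Z * fderiv ℝ U (cm m Z) w := by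
  have ne : ∀ y : P2, 0 < y.1 → y.1 < 7 → y ≠ 0 ∧ y ≠ pp := fun y a b =>
    ⟨fun e => by rw [e] at a; exact lt_irrefl _ a, fun e => by rw [e] at b; exact lt_irrefl _ b⟩
  have fd : ∀ y : P2, 0 < y.1 → y.1 < 7 → ∀ v : P2,
      fderiv ℝ D0 y v = D0x y * v.1 + D0y y * v.2 := fun y a b v => by
    rw [(D0_smooth (ne y a b).1 (ne y a b).2).2.fderiv]
    simp
  refine ⟨D0, (D0_smooth (ne _ h0 h7).1 (ne _ h0 h7).2).1, ?_, ?_⟩
  · have h1 : ∀ᶠ y : P2 in 𝓝 (cm m X), 0 < y.1 :=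
      continuousAt_const.eventually_lt continuous_fst.continuousAt h0
    have h2 : ∀ᶠ y : P2 in 𝓝 (cm m X), y.1 < 7 :=
      continuous_fst.continuousAt.eventually_lt continuousAt_const h7
    filter_upwards [h1, h2] with y a b v
    rw [fd y a b]
    exact (D0_le (ne y a b).1 (ne y a b).2 v).trans (hb.low y v)
  · filter_upwards [hZ, lt_mem_nhds h0, gt_mem_nhds h7] with Z hZ a b w
    rw [hZ.1, hZ.2, g0_cm hm a b, fd _ a b]

lemma left_RayG (hm : |m| ≤ 1) {Z : ℝ} (hZ : Z ≤ 3) (w : P2) :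
    g0 (cm m Z) (cd m Z) w = SS m * lX m w := by
  rw [g0_cm_flat hm (Or.inl hZ), mk3_apply, lX_apply, mul_div_cancel₀ _ (SS_pos m).ne']
  simp only [cd, bd_left hZ]
  ring

lemma right_RayG (hm : |m| ≤ 1) {Z : ℝ} (hZ : 4 ≤ Z) (w : P2) :
    g0 (cm m Z) (cd m Z) w = t0d m Z * lX (-m) w := by
  have e : SS (-m) = SS m := by simp [SS]
  rw [g0_cm_flat hm (Or.inr hZ), mk3_apply, lX_apply, t0d_out m (Or.inr hZ), e,
    mul_div_cancel₀ _ (SS_pos m).ne']
  simp only [cd, bd_right hZ]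
  ring

theorem fan_geo (hb : Base g) (h0 : m ≤ 0) (h1 : -1 ≤ m) : ∃ Γ : ℝ → P2, UG g Γ ∧
    ∀ X, Γ (20 - t0 m X) = cm m X ∧ deriv Γ (20 - t0 m X) = -(t0d m X)⁻¹ • cd m X := by
  have hm : |m| ≤ 1 := abs_le.2 ⟨h1, by linarith⟩
  have he : ∀ Z, g (cm m Z) = g0 (cm m Z) := fun Z => by
    refine hb.eq0 _ ?_
    rcases le_total Z 0 with a | a
    · exact Or.inr (Or.inl a)
    · rcases le_total Z 3 with b | b
      · refine Or.inl ?_
        rw [cm_left m b]
        exact mul_nonpos_of_nonpos_of_nonneg h0 a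
      · exact Or.inr (Or.inr (Or.inl b))
  refine geo_of_cal hb.nice 20 (cm_smooth_RayG m) (cm_deriv m) (t0_contDiff m) (t0_deriv m)
    (t0d_pos hm) ?_ (fun X => ?_) fun X => by rw [he, g0_cm_sq hm]
  · refine surj_RayG (t0_contDiff m).continuous (SS_pos m) (a := 0) (b := 20 - SS m * 7)
      (fun X hX => ?_) fun X hX => ?_
    · rw [t0_left m (by linarith), add_zero]
    · rw [t0_right m hX]; ring
  · rcases lt_or_ge X 3 with a | a
    · refine lin_RayG hb m (Or.inl a) ?_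
      filter_upwards [gt_mem_nhds a] with Z hZ w
      rw [he, left_RayG hm hZ.le, t0d_out m (Or.inl hZ.le)]
    · rcases lt_or_ge 4 X with b | b
      · refine lin_RayG hb (-m) (Or.inr b) ?_
        filter_upwards [lt_mem_nhds b] with Z hZ w
        rw [he, right_RayG hm hZ.le]
      · exact mid_RayG hb hm (by linarith) (by linarith)
          (Eventually.of_forall fun Z => ⟨fun w => by rw [he], rfl⟩)

lemma abs_RayG (hr : Ray g m s) : |m| ≤ 1 := abs_le.2 ⟨by linarith [hr.m0], by linarith [hr.m1]⟩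

lemma lXcd_RayG (m : ℝ) {X : ℝ} (h3 : X ≤ 3) : lX m (cd m X) = SS m := by
  rw [lX_apply, div_eq_iff (SS_pos m).ne']
  simp only [cd, bd_left h3]
  linear_combination -SS_sq m

lemma tkd_left_RayG (m s : ℝ) {X : ℝ} (h3 : X ≤ 3) :
    tkd m s X = SS m * (1 + h (2 - SS m * X) * (ep m * s)) := by
  rw [tkd, t0d_out m (Or.inl h3)]
  ring

lemma tkd_right_RayG (m s : ℝ) {X : ℝ} (h2 : 2 ≤ X) : tkd m s X = t0d m X := by
  have := one_le_SS m
  rw [tkd, h_zero (Or.inl (by nlinarith)), mul_zero, add_zero]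

lemma cone_RayG (hr : Ray g m s) {X : ℝ} (h0 : 0 < X) (h3 : X ≤ 3) (w : P2) :
    g (cm m X) (cd m X) w = tkd m s X * ((1 + h (2 - SS m * X) * (ep m * s)) * lX m w) := by
  have hc : cm m X ∈ Cone m := by
    rw [cm_left m h3]
    have := mul_pos hr.m0 h0
    refine ⟨h0, ?_, ?_⟩ <;> simp only <;> nlinarith
  rw [hr.eqc _ hc, left_RayG (abs_RayG hr) h3, lXcd_RayG m h3, tkd_left_RayG m s h3, Bm,
    rot_cm m h3, Fb_ray]
  ring

lemma grad_RayG (hb : Base g) (hr : Ray g m s) {X : ℝ} (h3 : X ≤ 3) (w : P2) :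
    g (cm m X) (cd m X) w = tkd m s X * ((1 + h (2 - SS m * X) * (ep m * s)) * lX m w) := by
  rcases lt_or_ge 0 X with h0 | h0
  · exact cone_RayG hr h0 h3 w
  · have := mul_nonpos_of_nonneg_of_nonpos (SS_pos m).le h0
    rw [hb.eq0 _ (Or.inr (Or.inl h0)), left_RayG (abs_RayG hr) h3, tkd_left_RayG m s h3,
      h_zero (Or.inr (by linarith))]
    ring

lemma tkd_pos_RayG (hr : Ray g m s) (X : ℝ) : 0 < tkd m s X := by
  have h1 := t0d_pos (abs_RayG hr) X
  have h2 := h_nonneg (2 - SS m * X)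
  have h3 := hr.par.e0
  have h4 := hr.par.s0
  have h5 := SS_pos m
  unfold tkd
  positivity

lemma bump_RayG (hb : Base g) (hr : Ray g m s) {X : ℝ} (h1 : s < SS m * X) (h3 : X < 3) :
    ∃ U : P2 → ℝ, ContDiffAt ℝ 2 U (cm m X) ∧
      (∀ᶠ y in 𝓝 (cm m X), ∀ v, fderiv ℝ U y v ^ 2 ≤ g y v v) ∧
      ∀ᶠ Z in 𝓝 X, ∀ w, g (cm m Z) (cd m Z) w = tkd m s Z * fderiv ℝ U (cm m Z) w := by
  have ne : ∀ y : P2, s < lX m y → rot m y ≠ (s, 0) := fun y a e => by
    rw [← rot_fst, e] at a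
    exact lt_irrefl _ a
  have fd : ∀ y : P2, s < lX m y → ∀ v : P2, fderiv ℝ (fun y => Ds (ep m) s (rot m y)) y v =
      Dsx (ep m) s (rot m y) * lX m v + Dsy s (rot m y) * lY m v := fun y a v => by
    have := ((Ds_smooth hr.par (ne y a)).2.comp y (rot m).hasFDerivAt).fderiv
    rw [show (fun y => Ds (ep m) s (rot m y)) = Ds (ep m) s ∘ rot m from rfl, this]
    simp
  have e1 : ∀ Z, Z ≤ 3 → lX m (cm m Z) = SS m * Z := fun Z hZ => by rw [← rot_fst, rot_cm m hZ]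
  have e2 : lY m (cm m X) = 0 := by rw [← rot_snd, rot_cm m h3.le]
  have h1' : s < lX m (cm m X) := by rwa [e1 X h3.le]
  refine ⟨fun y => Ds (ep m) s (rot m y),
    (Ds_smooth hr.par (ne _ h1')).1.comp _ (rot m).contDiff.contDiffAt, ?_, ?_⟩
  · have a1 : ∀ᶠ y : P2 in 𝓝 (cm m X), s < lX m y :=
      continuousAt_const.eventually_lt (lX m).continuous.continuousAt h1'
    have a2 : ∀ᶠ y : P2 in 𝓝 (cm m X), y.1 < 3 :=
      continuous_fst.continuousAt.eventually_lt continuousAt_const h3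
    have a3 : ∀ᶠ y : P2 in 𝓝 (cm m X), lY m y ^ 2 < 4 * ep m * lX m y ^ 2 := by
      refine ContinuousAt.eventually_lt (by fun_prop) (by fun_prop) ?_
      have := hr.par.e0
      have := hr.par.s0.trans h1'
      rw [e2]
      simp only [ne_eq, OfNat.ofNat_ne_zero, not_false_eq_true, zero_pow]
      positivity
    filter_upwards [a1, a2, a3] with y b1 b2 b3 v
    rw [fd y b1]
    exact (Ds_le hr.par (ne y b1) (Or.inr b3.le) (rot m v)).trans (rot_low hb hr b2.le v)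
  · have a1 : ∀ᶠ Z : ℝ in 𝓝 X, s < SS m * Z :=
      continuousAt_const.eventually_lt (by fun_prop) h1
    filter_upwards [a1, gt_mem_nhds h3] with Z b1 b2 w
    rw [fd _ (by rwa [e1 Z b2.le]), rot_cm m b2.le, (Ds_ray hr.par b1).2.1,
      (Ds_ray hr.par b1).2.2, grad_RayG hb hr b2.le, zero_mul, add_zero]

theorem ray_geo (hb : Base g) (hr : Ray g m s) : ∃ Γ : ℝ → P2, UG g Γ ∧
    ∀ X, Γ (20 - tk m s X) = cm m X ∧ deriv Γ (20 - tk m s X) = -(tkd m s X)⁻¹ • cd m X := by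
  have hm := abs_RayG hr
  have hS := one_le_SS m
  have hH : ContDiff ℝ 2 H := H_contDiff.of_le (by norm_cast)
  have hτ : ContDiff ℝ 2 (tk m s) :=
    (t0_contDiff m).sub (contDiff_const.mul (hH.comp (by fun_prop)))
  have hτ' : ∀ X, HasDerivAt (tk m s) (tkd m s X) X := fun X => by
    have d1 : HasDerivAt (fun X : ℝ => 2 - SS m * X) (-SS m) X := by
      simpa using ((hasDerivAt_id X).const_mul (SS m)).const_sub 2
    exact ((t0_deriv m X).sub (((H_deriv _).comp X d1).const_mul (ep m * s))).congr_deriv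
      (by unfold tkd; ring)
  have he : ∀ Z, 3 ≤ Z → g (cm m Z) = g0 (cm m Z) := fun Z hZ =>
    hb.eq0 _ (Or.inr (Or.inr (Or.inl hZ)))
  refine geo_of_cal hb.nice 20 (cm_smooth_RayG m) (cm_deriv m) hτ hτ' (tkd_pos_RayG hr) ?_
    (fun X => ?_) fun X => ?_
  · refine surj_RayG hτ.continuous (SS_pos m) (a := -(ep m * s)) (b := 20 - SS m * 7)
      (fun X hX => ?_) fun X hX => ?_
    · rw [tk, t0_left m (by linarith), H_one (by nlinarith)]; ring
    · rw [tk, t0_right m hX, H_zero (by nlinarith)]; ring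
  · rcases lt_or_ge (SS m * X) 1 with a | a
    · have h3 : X < 3 := by nlinarith
      refine lin_RayG hb m (Or.inl h3) ?_
      have a1 : ∀ᶠ Z : ℝ in 𝓝 X, SS m * Z < 1 :=
        ContinuousAt.eventually_lt (by fun_prop) continuousAt_const a
      filter_upwards [a1, gt_mem_nhds h3] with Z b1 b2 w
      rw [grad_RayG hb hr b2.le, h_zero (Or.inr (by linarith)), zero_mul, add_zero, one_mul]
    · rcases lt_or_ge X 3 with b | b
      · exact bump_RayG hb hr (by linarith [hr.par.s1]) b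
      · rcases lt_or_ge 4 X with c | c
        · refine lin_RayG hb (-m) (Or.inr c) ?_
          filter_upwards [lt_mem_nhds c] with Z hZ w
          rw [he Z (by linarith), right_RayG hm hZ.le, tkd_right_RayG m s (by linarith)]
        · refine mid_RayG hb hm (by linarith) (by linarith) ?_
          filter_upwards [lt_mem_nhds (show 2 < X by linarith)] with Z hZ
          refine ⟨fun w => ?_, tkd_right_RayG m s hZ.le⟩
          rcases le_total Z 3 with d | d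
          · rw [grad_RayG hb hr d, left_RayG hm d, tkd_right_RayG m s hZ.le,
              t0d_out m (Or.inl d), h_zero (Or.inl (by nlinarith)), zero_mul, add_zero, one_mul]
          · rw [he Z d]
  · rcases le_total X 3 with d | d
    · rw [grad_RayG hb hr d, lXcd_RayG m d, tkd_left_RayG m s d]
      ring
    · rw [he X d, g0_cm_sq hm, tkd_right_RayG m s (by linarith)]

theorem ray_grad (hr : Ray g m s) {X : ℝ} (h1 : s < SS m * X) (h3 : X ≤ 3) (w : P2) :
    g (cm m X) (cd m X) w = tkd m s X * ((1 + h (2 - SS m * X) * (ep m * s)) * lX m w) ∧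
      0 < tkd m s X ∧ Ds (ep m) s (rot m (cm m X)) = tk m s X := by
  refine ⟨cone_RayG hr ((mul_pos_iff_of_pos_left (SS_pos m)).1 (hr.par.s0.trans h1)) h3 w,
    tkd_pos_RayG hr X, ?_⟩
  rw [rot_cm m h3, (Ds_ray hr.par h1).1, tk, t0_left m h3]

theorem fan_dist (hb : Base g) (hm : |m| ≤ 1) {X : ℝ} (h7 : X ≤ 7)
    (he : ∀ Z, X ≤ Z → Z ≤ 7 → ∀ v, g (cm m Z) v v = g0 (cm m Z) v v) :
    riemDist g pp (cm m X) ≤ 20 - t0 m X := by
  have d1 : ∀ t : ℝ, HasDerivAt (fun t : ℝ => 7 - t) (-1) t := fun t =>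
    (hasDerivAt_id t).const_sub 7
  have hc : ∀ t, HasDerivAt (fun t => cm m (7 - t)) (-cd m (7 - t)) t := fun t =>
    ((cm_deriv m (7 - t)).scomp t (d1 t)).congr_deriv (neg_one_smul ℝ _)
  have hv : Continuous fun t : ℝ => -cd m (7 - t) := ((cd_cont_RayG m).comp (by fun_prop)).neg
  have hab : (0 : ℝ) ≤ 7 - X := by linarith
  have key := hb.nice.dist_le hc hv hab
  simp only [sub_zero, sub_sub_cancel, cm_seven] at key
  refine key.trans (le_of_eq ?_)
  have e1 : ∫ t in (0 : ℝ)..(7 - X), √(g (cm m (7 - t)) (-cd m (7 - t)) (-cd m (7 - t))) =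
      ∫ t in (0 : ℝ)..(7 - X), t0d m (7 - t) := by
    refine intervalIntegral.integral_congr fun t ht => ?_
    rw [uIcc_of_le hab] at ht
    simp only [map_neg, neg_apply, neg_neg]
    rw [he _ (by linarith [ht.2]) (by linarith [ht.1]), g0_cm_sq hm,
      Real.sqrt_sq (t0d_pos hm _).le]
  have d2 : ∀ t, HasDerivAt (fun t => -t0 m (7 - t)) (t0d m (7 - t)) t := fun t =>
    (((t0_deriv m (7 - t)).comp t (d1 t)).neg).congr_deriv (by ring)
  rw [e1, intervalIntegral.integral_eq_sub_of_hasDerivAt (fun t _ => d2 t)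
    (((t0d_cont m).comp (by fun_prop)).intervalIntegrable _ _)]
  simp only [sub_zero, sub_sub_cancel]
  rw [t0_right m (X := 7) (by norm_num)]
  ring

theorem flat_dist (hb : Base g) (x y : P2)
    (he : ∀ t : ℝ, 0 ≤ t → t ≤ 1 → ∀ v : P2, g (x + t • (y - x)) v v = v.1 ^ 2 + v.2 ^ 2) :
    riemDist g x y ≤ nr (y - x) := by
  have hc : ∀ t : ℝ, HasDerivAt (fun t : ℝ => x + t • (y - x)) (y - x) t := fun t => by
    simpa using ((hasDerivAt_id t).smul_const (y - x)).const_add x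
  have key := hb.nice.dist_le hc continuous_const zero_le_one
  simp only [zero_smul, add_zero, one_smul, add_sub_cancel] at key
  refine key.trans (le_of_eq ?_)
  rw [intervalIntegral.integral_congr (g := fun _ => nr (y - x)) fun t ht => ?_]
  · simp
  · rw [uIcc_of_le zero_le_one] at ht
    simp only [he t ht.1 ht.2, nr]

end Pool.Agent.MP_402458_gt.Sf

end

section

/-! Uniqueness of the segment to the new focus. -/

set_option maxSynthPendingDepth 3

open Set Filter Topology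
open scoped ContDiff

namespace Pool.Agent.MP_402458_gt.Sf

lemma slope_Uniq {f : ℝ → ℝ} {f' a b t : ℝ} (hab : a < b) (ht : t ∈ Icc a b)
    (hf : HasDerivAt f f' t) (hc : ∀ u ∈ Icc a b, f u = 20 - u) : f' = -1 := by
  have h1 : HasDerivWithinAt f f' (Icc a b) t := hf.hasDerivWithinAt
  have h2 : HasDerivWithinAt f (-1) (Icc a b) t :=
    ((hasDerivAt_id t).const_sub 20).hasDerivWithinAt.congr hc (hc t ht)
  exact (uniqueDiffOn_Icc hab t ht).eq_deriv _ h1 h2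

lemma par_Uniq {y1 y2 a b R : ℝ} (hR : R ^ 2 = y1 ^ 2 + y2 ^ 2) (hv : a ^ 2 + b ^ 2 ≤ 1)
    (h : y1 * a + y2 * b = -R) : y1 = -R * a ∧ y2 = -R * b := by
  have h1 : (R * a + y1) ^ 2 + (R * b + y2) ^ 2 ≤ 0 := by
    have : (R * a + y1) ^ 2 + (R * b + y2) ^ 2
        = R ^ 2 * (a ^ 2 + b ^ 2) + 2 * R * (y1 * a + y2 * b) + (y1 ^ 2 + y2 ^ 2) := by ring
    rw [this, h, ← hR]
    nlinarith [sq_nonneg R]
  have h2 : R * a + y1 = 0 := by
    refine pow_eq_zero_iff (two_ne_zero) |>.1 (le_antisymm ?_ (sq_nonneg _))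
    nlinarith [sq_nonneg (R * b + y2)]
  have h3 : R * b + y2 = 0 := by
    refine pow_eq_zero_iff (two_ne_zero) |>.1 (le_antisymm ?_ (sq_nonneg _))
    nlinarith [sq_nonneg (R * a + y1)]
  constructor <;> linarith

lemma corner_Uniq {y1 y2 a b R R' s c : ℝ} (hR : R ^ 2 = y1 ^ 2 + y2 ^ 2)
    (hR' : R' ^ 2 = (y1 - s) ^ 2 + y2 ^ 2) (hv : a ^ 2 + b ^ 2 ≤ 1) (h0 : 0 < R)
    (h1 : y1 * a + y2 * b = -R) (h2 : (y1 - s) * a + y2 * b = -R') (he : R = R' + c)
    (hc : 0 < c) (hs : c < s) : False := by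
  obtain ⟨p1, p2⟩ := par_Uniq hR hv h1
  obtain ⟨-, q2⟩ := par_Uniq hR' hv h2
  have hb : b = 0 := by
    have : c * b = 0 := by rw [he] at p2; linarith
    exact (mul_eq_zero.1 this).resolve_left hc.ne'
  have ha : s * a = -c := by linarith
  have hy : y2 = 0 := by rw [p2, hb, mul_zero]
  have ha2 : a ^ 2 = 1 := by
    have : R ^ 2 * a ^ 2 = R ^ 2 * 1 := by rw [mul_one]; nth_rewrite 2 [hR]; rw [p1, hy]; ring
    exact mul_left_cancel₀ (pow_pos h0 2).ne' this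
  have : s ^ 2 = c ^ 2 := by
    calc s ^ 2 = (s * a) ^ 2 := by rw [mul_pow, ha2, mul_one]
      _ = c ^ 2 := by rw [ha]; ring
  nlinarith

lemma Dk_le_Uniq (m s : ℝ) (x : P2) : Dk m s x ≤ D0 x := by
  unfold Dk
  split_ifs
  · exact min_le_left _ _
  · exact le_rfl

lemma Dk_ne_Uniq {m s : ℝ} {x : P2} (h : Dk m s x ≠ D0 x) :
    x.1 ≤ 3 ∧ Ds (ep m) s (rot m x) = Dk m s x ∧ Ds (ep m) s (rot m x) < nr x := by
  unfold Dk at h ⊢
  split_ifs at h ⊢ with hx
  · rcases le_or_gt (D0 x) (Ds (ep m) s (rot m x)) with h1 | h1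
    · exact absurd (min_eq_left h1) h
    · exact ⟨hx, (min_eq_right h1.le).symm, by rwa [← D0_left hx]⟩
  · exact absurd rfl h

lemma Ds_chain_Uniq {ε s m t : ℝ} (hp : Par ε s) {σ : ℝ → P2} {v : P2} (hσ : HasDerivAt σ v t)
    (hy : rot m (σ t) ≠ (s, 0)) : HasDerivAt (fun u => Ds ε s (rot m (σ u)))
      (Dsx ε s (rot m (σ t)) * lX m v + Dsy s (rot m (σ t)) * lY m v) t := by
  have h1 : HasDerivAt (fun u => rot m (σ u)) (rot m v) t :=
    (rot m).hasFDerivAt.comp_hasDerivAt t hσ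
  have h2 := (Ds_smooth hp hy).2.comp_hasDerivAt t h1
  exact h2.congr_deriv (by simp)

lemma ray_case_Uniq {g : Met P2} {m s : ℝ} (hb : Base g) (hr : Ray g m s) {Γ : ℝ → P2}
    (hΓ : UG g Γ) (hc : ∀ X, Γ (20 - tk m s X) = cm m X ∧
      deriv Γ (20 - tk m s X) = -(tkd m s X)⁻¹ • cd m X) {σ : ℝ → P2} (hσ : UG g σ) {t l : ℝ}
    (htl : t < l) (h3 : (σ t).1 ≤ 3) (h1 : 1 < lX m (σ t))
    (hlt : Ds (ep m) s (rot m (σ t)) < nr (σ t))
    (he : ∀ u ∈ Icc t l, Ds (ep m) s (rot m (σ u)) = 20 - u) : σ = Γ := by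
  have hp := hr.par
  obtain ⟨-, h2, h4, -⟩ := Ds_small hr h3 hlt
  have hs1 : s < lX m (σ t) := by linarith [hp.s1]
  have hy : rot m (σ t) ≠ (s, 0) := fun h => by
    have := congrArg Prod.fst h
    rw [rot_fst] at this
    exact hs1.ne' this
  have hd := slope_Uniq htl ⟨le_rfl, htl.le⟩
    (Ds_chain_Uniq hp ((geo_deriv hσ.1).1 t) hy) he
  have hlow := rot_low hb hr h3 (deriv σ t)
  rw [hσ.2 t] at hlow
  have hY : lY m (σ t) = 0 := by
    by_contra hY
    have := Ds_lt hp (y := rot m (σ t)) h1 h2 hY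
      (by simp only [rot_fst, rot_snd]; nlinarith [hp.e0, sq_nonneg (lX m (σ t))])
      (v := rot m (deriv σ t)) (by simp only [rot_fst, rot_snd]; rw [hd]; norm_num)
    simp only [rot_fst, rot_snd] at this
    linarith
  set ξ := lX m (σ t) with hξ
  have hS := SS_pos m
  have hX : SS m * (ξ / SS m) = ξ := by field_simp
  have hX3 : ξ / SS m ≤ 3 := by
    rw [div_le_iff₀ hS]
    nlinarith [one_le_SS m]
  have hrot : rot m (σ t) = (ξ, 0) := Prod.ext rfl hY
  have hx : σ t = cm m (ξ / SS m) := rot_inj m (by rw [rot_cm m hX3, hX, hrot])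
  have hg := fun w => ray_grad hr (X := ξ / SS m) (by rwa [hX]) hX3 w
  have ht : 20 - tk m s (ξ / SS m) = t := by
    rw [← (hg 0).2.2, ← hx, he t ⟨le_rfl, htl.le⟩]
    ring
  obtain ⟨c1, c2⟩ := hc (ξ / SS m)
  rw [ht] at c1 c2
  have hΓt : σ t = Γ t := by rw [c1, hx]
  refine hb.nice.geo_unique hσ.1 hΓ.1 hΓt ?_
  refine vel_eq hb.nice (x := σ t) ((1 + h (2 - ξ) * (ep m * s)) • lX m) (fun w => ?_) ?_
    (hσ.2 t) ?_
  · have h5 := (hg w).1
    have h6 := (hg w).2.1.ne'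
    rw [hX] at h5
    rw [c2, map_smul, _root_.smul_apply, hx, h5, smul_eq_mul,
      _root_.smul_apply, smul_eq_mul]
    field_simp
  · rw [hΓt]
    exact hΓ.2 t
  · obtain ⟨-, d1, d2⟩ := Ds_ray hp hs1
    rw [hrot, d1, d2] at hd
    rw [_root_.smul_apply, smul_eq_mul]
    linarith

lemma in_case_Uniq {g : Met P2} {m s : ℝ} (hb : Base g) (hr : Ray g m s) {σ : ℝ → P2}
    (hσ : UG g σ) {T l : ℝ} (hT0 : 0 < T) (hTl : T < l) (hl : l < 20) (h3 : (σ T).1 ≤ 3)
    (h1 : lX m (σ T) ≤ 1) (h0 : ∀ u ∈ Icc 0 T, D0 (σ u) = 20 - u)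
    (he : ∀ u ∈ Icc T l, Ds (ep m) s (rot m (σ u)) = 20 - u) : False := by
  have hp := hr.par
  have hc0 : 0 < (1 - ep m) * s := mul_pos (by linarith [hp.e1]) hp.s0
  have hc1 : (1 - ep m) * s < s := by nlinarith [mul_pos hp.e0 hp.s0]
  have hn : nr (σ T) = 20 - T := by rw [← D0_left h3, h0 T ⟨hT0.le, le_rfl⟩]
  have hR0 : 0 < nr (σ T) := by rw [hn]; linarith
  have hin := Ds_in (ep m) s (y := rot m (σ T)) h1
  rw [he T ⟨le_rfl, hTl.le⟩, ← hn] at hin
  have hne0 : σ T ≠ 0 := fun h => by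
    rw [h] at hR0
    simp [nr] at hR0
  have hne7 : σ T ≠ pp := fun h => by
    rw [h] at h3
    norm_num [pp] at h3
  have hy : rot m (σ T) ≠ (s, 0) := fun h => by
    have h5 := nr_rot m (σ T)
    rw [h] at hin h5
    have h6 : nr (s, 0) = s := by simp [nr, Real.sqrt_sq hp.s0.le]
    have h7 : nr (((s, 0) : P2) - (s, 0)) = 0 := by simp [nr]
    linarith
  have hv := (geo_deriv hσ.1).1 T
  have d1 := slope_Uniq hT0 ⟨hT0.le, le_rfl⟩
    ((D0_smooth hne0 hne7).2.comp_hasDerivAt T hv) h0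
  have d2 := slope_Uniq hTl ⟨le_rfl, hTl.le⟩ (Ds_chain_Uniq hp hv hy) he
  have hlow := rot_low hb hr h3 (deriv σ T)
  rw [hσ.2 T] at hlow
  set v := deriv σ T with hvd
  set x := σ T with hxd
  have hF := one_le_Fb hp (rot m x)
  have hv1 : lX m v ^ 2 + lY m v ^ 2 ≤ 1 := by
    have : 1 ≤ Fb (ep m) s (rot m x) ^ 2 := one_le_pow₀ hF
    nlinarith [sq_nonneg (lX m v)]
  have hrr : rr x = nr x := by rw [rr, nr, bb_left h3]
  have e1 : lX m x * lX m v + lY m x * lY m v = -nr x := by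
    rw [rot_inner]
    simp only [_root_.add_apply, _root_.smul_apply, smul_eq_mul,
      ContinuousLinearMap.coe_fst', ContinuousLinearMap.coe_snd', D0x, D0y, hrr, eta_left h3,
      bb_left h3, bd_left h3, h_zero (Or.inl (sub_nonpos.2 h3))] at d1
    field_simp at d1
    linarith
  set R' := nr (rot m x - (s, 0)) with hR'
  have hRs : R' ^ 2 = (lX m x - s) ^ 2 + lY m x ^ 2 := by
    rw [hR', nr_sq]
    simp
  have hRq : √((lX m x - s) ^ 2 + lY m x ^ 2) = R' := by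
    rw [← hRs, Real.sqrt_sq (nr_nonneg _)]
  have hR1 : R' ≠ 0 := fun h => by
    rw [h] at hRs
    refine hy (Prod.ext ?_ ?_)
    · simp only [rot_fst]
      nlinarith [sq_nonneg (lX m x - s), sq_nonneg (lY m x)]
    · simp only [rot_snd]
      nlinarith [sq_nonneg (lX m x - s), sq_nonneg (lY m x)]
  have e2 : (lX m x - s) * lX m v + lY m x * lY m v = -R' := by
    simp only [Dsx, Dsy, rot_fst, rot_snd, JJ_left s h1, hRq,
      h_zero (t := 2 - lX m x) (Or.inr (by linarith))] at d2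
    field_simp at d2
    linarith
  exact corner_Uniq (by rw [nr_sq, rot_sq]) hRs hv1 hR0 e1 e2 hin hc0 hc1

theorem seg_unique {g : Met P2} {m s : ℝ} (hb : Base g) (hr : Ray g m s) {Γ : ℝ → P2}
    (hΓ : UG g Γ) (hc : ∀ X, Γ (20 - tk m s X) = cm m X ∧
      deriv Γ (20 - tk m s X) = -(tkd m s X)⁻¹ • cd m X)
    (hd : riemDist g pp (cm m (s / SS m)) = 20 - (1 - ep m) * s)
    (σ : ℝ → P2) (l : ℝ) (hσ : IsSegment g pp σ l) (hl : σ l = cm m (s / SS m)) : σ = Γ := by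
  obtain ⟨g1, g2, g3, g4, g5⟩ := hσ
  have hu : UG g σ := ⟨g1, g2⟩
  have hp := hr.par
  have hS := SS_pos m
  have hc0 : 0 < (1 - ep m) * s := mul_pos (by linarith [hp.e1]) hp.s0
  have hc1 : (1 - ep m) * s < s := by nlinarith [mul_pos hp.e0 hp.s0]
  have hl' : l = 20 - (1 - ep m) * s := by rw [← g5, hl, hd]
  have hcont : Continuous σ := g1.1.continuous
  have hk : ∀ t ∈ Icc 0 l, Dk m s (σ t) = 20 - t := fun t ht => by
    have a1 := (cal_Dk hb hr).ug hb.nice hu ht.1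
    have a2 := (cal_Dk hb hr).ug hb.nice hu ht.2
    rw [g3, Dk_pp] at a1
    rw [hl, Dk_q hr] at a2
    linarith
  have hA : IsCompact (Icc 0 l ∩ {t | D0 (σ t) = 20 - t}) :=
    isCompact_Icc.inter_right (isClosed_eq (D0_cont.comp hcont) (by fun_prop))
  have hA0 : (0 : ℝ) ∈ Icc 0 l ∩ {t | D0 (σ t) = 20 - t} := by
    refine ⟨⟨le_rfl, g4⟩, ?_⟩
    show D0 (σ 0) = 20 - 0
    rw [g3, D0_right (by norm_num [pp])]
    simp [nr]
  obtain ⟨T, ⟨hT1, hT2⟩, hT3⟩ := hA.exists_isGreatest ⟨0, hA0⟩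
  have hT2' : D0 (σ T) = 20 - T := hT2
  have hTl : T < l := by
    refine lt_of_le_of_ne hT1.2 fun h => ?_
    have hX3 : s / SS m ≤ 3 := by
      rw [div_le_iff₀ hS]
      nlinarith [one_le_SS m, hp.s1]
    have hX : SS m * (s / SS m) = s := by field_simp
    rw [h, hl, D0_left (x := cm m (s / SS m)) hX3, ← nr_rot m, rot_cm m hX3, hX] at hT2'
    have h6 : nr (s, 0) = s := by simp [nr, Real.sqrt_sq hp.s0.le]
    linarith
  have hgt : ∀ t ∈ Ioc T l, (σ t).1 ≤ 3 ∧ Ds (ep m) s (rot m (σ t)) = 20 - t ∧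
      Ds (ep m) s (rot m (σ t)) < nr (σ t) := fun t ht => by
    have b1 : t ∈ Icc 0 l := ⟨hT1.1.trans ht.1.le, ht.2⟩
    have b2 : Dk m s (σ t) ≠ D0 (σ t) := fun h =>
      (hT3 ⟨b1, show D0 (σ t) = 20 - t by rw [← h, hk t b1]⟩).not_gt ht.1
    obtain ⟨b3, b4, b5⟩ := Dk_ne_Uniq b2
    exact ⟨b3, by rw [b4, hk t b1], b5⟩
  have hcl : IsClosed {t | (σ t).1 ≤ 3 ∧ Ds (ep m) s (rot m (σ t)) = 20 - t} :=
    (isClosed_le (continuous_fst.comp hcont) continuous_const).inter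
      (isClosed_eq ((Ds_cont _ _).comp ((rot m).continuous.comp hcont)) (by fun_prop))
  have hge : ∀ t ∈ Icc T l, (σ t).1 ≤ 3 ∧ Ds (ep m) s (rot m (σ t)) = 20 - t := by
    have : closure (Ioc T l) ⊆ {t | (σ t).1 ≤ 3 ∧ Ds (ep m) s (rot m (σ t)) = 20 - t} :=
      closure_minimal (fun t ht => ⟨(hgt t ht).1, (hgt t ht).2.1⟩) hcl
    rw [closure_Ioc hTl.ne] at this
    exact fun t ht => this ht
  have hT3' := (hge T ⟨le_rfl, hTl.le⟩).1
  rcases lt_or_ge 1 (lX m (σ T)) with h1 | h1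
  · have e1 : ∀ᶠ t in 𝓝 T, 1 < lX m (σ t) :=
      ((lX m).continuous.comp hcont).continuousAt.eventually (lt_mem_nhds h1)
    have e2 : ∀ᶠ t in 𝓝[>] T, t ∈ Ioo T l := Ioo_mem_nhdsGT hTl
    obtain ⟨t, t1, t2⟩ := ((e1.filter_mono nhdsWithin_le_nhds).and e2).exists
    obtain ⟨b1, -, b2⟩ := hgt t ⟨t2.1, t2.2.le⟩
    exact ray_case_Uniq hb hr hΓ hc hu t2.2 b1 t1 b2
      fun u hu' => (hge u ⟨t2.1.le.trans hu'.1, hu'.2⟩).2
  · exfalso
    have hT0 : 0 < T := by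
      refine lt_of_le_of_ne hT1.1 fun h => ?_
      rw [← h, g3] at hT3'
      norm_num [pp] at hT3'
    refine in_case_Uniq hb hr hu hT0 hTl (by linarith) hT3' h1 (fun u hu' => ?_)
      fun u hu' => (hge u hu').2
    have a1 := (cal_D0 hb).ug hb.nice hu hu'.2
    have a2 := Dk_le_Uniq m s (σ u)
    rw [hk u ⟨hu'.1, hu'.2.trans hTl.le⟩] at a2
    linarith

end Pool.Agent.MP_402458_gt.Sf

end
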