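import Pool.Agent.Mg.F402458a.G5ecee0
import Pool.Agent.Mg.F402458a.Ga3c435

section

/-! Smooth sums of small bumps. -/

set_option maxSynthPendingDepth 3

open Set Filter Topology
open scoped ContDiff

namespace Pool.Agent.MP_402458_gt.Sf

theorem slice_Sum {E V : Type} [NormedAddCommGroup E] [NormedSpace ℝ E] [NormedAddCommGroup V]
    [NormedSpace ℝ V] {ψ : ℝ × E → V} (hψ : ContDiff ℝ ∞ ψ) (t : ℝ) (x : E) (j : ℕ) :
    ‖iteratedFDeriv ℝ j (fun y => ψ (t, y)) x‖ ≤ ‖iteratedFDeriv ℝ j ψ (t, x)‖ := by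
  have h1 : ContDiff ℝ ∞ fun z : ℝ × E => ψ ((t, 0) + z) :=
    hψ.comp (contDiff_const.add contDiff_id)
  have h2 : (fun y => ψ (t, y)) =
      (fun z : ℝ × E => ψ ((t, 0) + z)) ∘ ContinuousLinearMap.inr ℝ ℝ E := by
    funext y
    simp
  have h3 : ((t, 0) : ℝ × E) + ContinuousLinearMap.inr ℝ ℝ E x = (t, x) := by simp
  have h4 : ‖ContinuousLinearMap.inr ℝ ℝ E‖ ≤ 1 := by
    refine ContinuousLinearMap.opNorm_le_bound _ zero_le_one fun y => ?_
    simp
  rw [h2, ContinuousLinearMap.iteratedFDeriv_comp_right _ h1 x (by exact_mod_cast le_top),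
    iteratedFDeriv_comp_add_left, h3]
  refine (ContinuousMultilinearMap.norm_compContinuousLinearMap_le _ _).trans ?_
  refine mul_le_of_le_one_right (norm_nonneg _) ?_
  exact Finset.prod_le_one (fun _ _ => norm_nonneg _) fun _ _ => h4

theorem bound_Sum {E V : Type} [NormedAddCommGroup E] [NormedSpace ℝ E] [NormedAddCommGroup V]
    [NormedSpace ℝ V] {ψ : ℝ × E → V} (hψ : ContDiff ℝ ∞ ψ) {K : Set E} (hK : IsCompact K)
    (hs : ∀ t, ∀ x ∉ K, ψ (t, x) = 0) (k : ℕ) :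
    ∃ M : ℝ, 0 ≤ M ∧ ∀ j ≤ k, ∀ t ∈ Icc (0 : ℝ) 1, ∀ x,
      ‖iteratedFDeriv ℝ j (fun y => ψ (t, y)) x‖ ≤ M := by
  have hb : ∀ j : ℕ, ∃ C : ℝ, ∀ p ∈ Icc (0 : ℝ) 1 ×ˢ K, ‖iteratedFDeriv ℝ j ψ p‖ ≤ C := fun j =>
    (isCompact_Icc.prod hK).exists_bound_of_continuousOn
      (hψ.continuous_iteratedFDeriv (by exact_mod_cast le_top)).continuousOn
  choose C hC using hb
  have h0 : 0 ≤ ∑ j ∈ Finset.range (k + 1), |C j| := Finset.sum_nonneg fun _ _ => abs_nonneg _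
  refine ⟨∑ j ∈ Finset.range (k + 1), |C j|, h0, fun j hj t ht x => ?_⟩
  by_cases hx : x ∈ K
  · refine (slice_Sum hψ t x j).trans ((hC j (t, x) ⟨ht, hx⟩).trans ((le_abs_self _).trans ?_))
    exact Finset.single_le_sum (f := fun j => |C j|) (fun _ _ => abs_nonneg _)
      (Finset.mem_range.2 (Nat.lt_succ_of_le hj))
  · have he : (fun y => ψ (t, y)) =ᶠ[𝓝 x] fun _ => (0 : V) := by
      filter_upwards [hK.isClosed.isOpen_compl.mem_nhds hx] with y hy using hs t y hy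
    rw [(he.iteratedFDeriv ℝ j).self_of_nhds, iteratedFDeriv_fun_zero]
    simpa using h0

theorem smooth_sum {E V : Type} [NormedAddCommGroup E] [NormedSpace ℝ E] [NormedAddCommGroup V]
    [NormedSpace ℝ V] [CompleteSpace V] (φ : ℕ → ℝ × E → V) (hφ : ∀ k, ContDiff ℝ ∞ (φ k))
    {K : Set E} (hK : IsCompact K) (hs : ∀ k t, ∀ x ∉ K, φ k (t, x) = 0) (δ : ℕ → ℝ)
    (hδ : ∀ k, 0 < δ k) : ∃ t : ℕ → ℝ, (∀ k, 0 < t k ∧ t k ≤ δ k) ∧
      ContDiff ℝ ∞ fun x => ∑' k, t k • φ k (t k, x) := by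
  choose M hM0 hM using fun k => bound_Sum (hφ k) hK (hs k) k
  have ht : ∀ k, ∃ t : ℝ, 0 < t ∧ t ≤ δ k ∧ t ≤ 1 ∧ t * M k ≤ (1 / 2) ^ k := by
    intro k
    have hp : 0 < M k + 1 := by linarith [hM0 k]
    have hq : (0 : ℝ) < (1 / 2) ^ k := by positivity
    have hpos : 0 < min (δ k) (min 1 ((1 / 2) ^ k / (M k + 1))) :=
      lt_min (hδ k) (lt_min one_pos (div_pos hq hp))
    refine ⟨_, hpos, min_le_left _ _, (min_le_right _ _).trans (min_le_left _ _), ?_⟩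
    have h1 : min (δ k) (min 1 ((1 / 2) ^ k / (M k + 1))) ≤ (1 / 2) ^ k / (M k + 1) :=
      (min_le_right _ _).trans (min_le_right _ _)
    rw [le_div_iff₀ hp] at h1
    nlinarith
  choose t ht0 htδ ht1 htM using ht
  have hsl : ∀ k, ContDiff ℝ ∞ fun x => φ k (t k, x) := fun k =>
    (hφ k).comp (contDiff_const.prodMk contDiff_id)
  refine ⟨t, fun k => ⟨ht0 k, htδ k⟩, ?_⟩
  refine contDiff_tsum_of_eventually (N := ⊤) (v := fun _ k => (1 / 2 : ℝ) ^ k)
    (fun k => (hsl k).const_smul (t k)) (fun _ _ => summable_geometric_two) fun j _ => ?_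
  rw [Nat.cofinite_eq_atTop]
  filter_upwards [eventually_ge_atTop j] with k hk x
  rw [iteratedFDeriv_const_smul_apply' ((hsl k).contDiffAt.of_le (by exact_mod_cast le_top)),
    norm_smul, Real.norm_of_nonneg (ht0 k).le]
  exact (mul_le_mul_of_nonneg_left (hM k j hk (t k) ⟨(ht0 k).le, ht1 k⟩ x) (ht0 k).le).trans
    (htM k)

end Pool.Agent.MP_402458_gt.Sf

end

section

/-! The metric with all bumps. -/

set_option maxSynthPendingDepth 3

open Set Filter Topology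
open scoped ContDiff

namespace Pool.Agent.MP_402458_gt.Sf

theorem Bm_nonneg {m s : ℝ} (hp : Par (ep m) s) (x : P2) : 0 ≤ Bm m s x := by
  have := one_le_Fb hp (rot m x)
  unfold Bm
  nlinarith

lemma coord_Tot (m : ℝ) (x : P2) :
    x.1 * SS m = lX m x - m * lY m x ∧ x.2 * SS m = m * lX m x + lY m x := by
  have h1 := SS_sq m
  have h2 := (SS_pos m).ne'
  rw [lX_apply, lY_apply]
  constructor
  · field_simp
    rw [h1]
    ring
  · field_simp
    rw [h1]
    ring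

theorem Bm_supp {m s : ℝ} (m0 : 0 < m) (m1 : m ≤ 1 / 2) (hp : Par (ep m) s) {x : P2}
    (hx : Bm m s x ≠ 0) : x ∈ Cone m ∧ 1 < lX m x ∧ lX m x < 2 ∧ 1 < nr x ∧ x.1 < 3 := by
  have hF : Fb (ep m) s (rot m x) ≠ 1 := fun h => hx (by rw [Bm, h]; ring)
  obtain ⟨a1, a2, hb⟩ := Fb_supp hp hF
  rw [rot_fst] at a1 a2 hb
  rw [rot_snd, ep] at hb
  obtain ⟨e1, e2⟩ := coord_Tot m x
  have hS := one_le_SS m
  have hsq := rot_sq m x
  generalize lX m x = a at *
  generalize lY m x = b at *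
  have hma : 0 < m * a := mul_pos m0 (by linarith)
  have hb' : |b| ≤ m * a / 8 := by
    refine abs_le_of_sq_le_sq ?_ (by positivity)
    nlinarith [sq_nonneg (m * a)]
  obtain ⟨b1, b2⟩ := abs_le.1 hb'
  have hmm : m * (m * a) ≤ a / 4 := by
    have : m * m ≤ 1 / 4 := by nlinarith
    nlinarith
  have c1 : m * b ≤ a / 32 := by nlinarith
  have c2 : -(a / 32) ≤ m * b := by nlinarith
  have hX : 0 < x.1 := by
    by_contra hc
    have : x.1 * SS m ≤ 0 := mul_nonpos_of_nonpos_of_nonneg (not_lt.1 hc) (by linarith)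
    linarith
  have hS0 : 0 < SS m := by linarith
  refine ⟨⟨hX, ?_, ?_⟩, a1, a2, ?_, ?_⟩
  · refine le_of_mul_le_mul_right ?_ hS0
    rw [mul_assoc _ x.1, e1, e2]
    nlinarith
  · refine le_of_mul_le_mul_right ?_ hS0
    rw [mul_assoc _ x.1, e1, e2]
    nlinarith
  · refine Real.lt_sqrt_of_sq_lt ?_
    nlinarith [sq_nonneg b]
  · nlinarith

/-- the size of the bump as a bounded smooth function of a parameter -/
noncomputable def sz_Tot (t : ℝ) : ℝ := t / (1 + t ^ 2)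

lemma sz_abs_Tot (t : ℝ) : |sz_Tot t| ≤ 1 / 2 := by
  have h0 : 0 < 1 + t ^ 2 := by positivity
  rw [sz_Tot, abs_le, le_div_iff₀ h0, div_le_iff₀ h0]
  constructor
  · nlinarith [sq_nonneg (t + 1)]
  · nlinarith [sq_nonneg (t - 1)]

lemma JJ_near_Tot (t ξ : ℝ) : ξ - 1 / 2 ≤ JJ (sz_Tot t) ξ ∧ JJ (sz_Tot t) ξ ≤ ξ + 1 / 2 := by
  obtain ⟨h1, h2⟩ := abs_le.1 (sz_abs_Tot t)
  have := H_nonneg (2 - ξ)
  have := H_le_one (2 - ξ)
  unfold JJ
  constructor <;> nlinarith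

/-- the reduced stretching factor -/
noncomputable def qq_Tot (m : ℝ) (z : ℝ × P2) : ℝ :=
  h (2 - lX m z.2) * ep m * be (sg (ep m) (sz_Tot z.1) (rot m z.2))

/-- the reduced coefficient -/
noncomputable def cf_Tot (m : ℝ) (z : ℝ × P2) : ℝ :=
  qq_Tot m z * (2 + sz_Tot z.1 * qq_Tot m z) / (1 + z.1 ^ 2)

lemma cf_mul_Tot (m t : ℝ) (x : P2) : t * cf_Tot m (t, x) = Bm m (sz_Tot t) x := by
  have e : Fb (ep m) (sz_Tot t) (rot m x) = 1 + sz_Tot t * qq_Tot m (t, x) := by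
    simp only [Fb, qq_Tot, rot_fst]
    ring
  have e2 : t * cf_Tot m (t, x) =
      sz_Tot t * (qq_Tot m (t, x) * (2 + sz_Tot t * qq_Tot m (t, x))) := by
    simp only [cf_Tot]
    rw [show sz_Tot t * (qq_Tot m (t, x) * (2 + sz_Tot t * qq_Tot m (t, x))) =
      t / (1 + t ^ 2) * (qq_Tot m (t, x) * (2 + sz_Tot t * qq_Tot m (t, x))) from rfl]
    ring
  rw [e2, Bm, e]
  ring

lemma sz_smooth_Tot : ContDiff ℝ ∞ sz_Tot := by
  unfold sz_Tot
  exact contDiff_id.div (by fun_prop) fun t => by positivity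

lemma be_smooth_Tot : ContDiff ℝ ∞ be := by
  unfold be
  fun_prop

lemma qq_smooth_Tot (m : ℝ) : ContDiff ℝ ∞ (qq_Tot m) := by
  have hX : ContDiff ℝ ∞ fun z : ℝ × P2 => lX m z.2 := (lX m).contDiff.comp contDiff_snd
  have hY : ContDiff ℝ ∞ fun z : ℝ × P2 => lY m z.2 := (lY m).contDiff.comp contDiff_snd
  have hs : ContDiff ℝ ∞ fun z : ℝ × P2 => sz_Tot z.1 := sz_smooth_Tot.comp contDiff_fst
  refine contDiff_iff_contDiffAt.2 fun z => ?_
  rcases lt_or_ge (lX m z.2) 1 with hz | hz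
  · refine (contDiffAt_const (c := (0 : ℝ))).congr_of_eventuallyEq ?_
    filter_upwards [hX.continuous.continuousAt.eventually_lt continuousAt_const hz] with y hy
    rw [qq_Tot, h_zero (Or.inr (by linarith))]
    ring
  · have hJ : ContDiff ℝ ∞ fun z : ℝ × P2 => JJ (sz_Tot z.1) (lX m z.2) :=
      hX.sub (hs.mul (H_contDiff.comp (contDiff_const.sub hX)))
    have hJ0 : JJ (sz_Tot z.1) (lX m z.2) ≠ 0 := by
      have := (JJ_near_Tot z.1 (lX m z.2)).1
      exact ne_of_gt (by linarith)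
    have h1 : ContDiffAt ℝ ∞ (fun z : ℝ × P2 => lY m z.2 / JJ (sz_Tot z.1) (lX m z.2)) z :=
      hY.contDiffAt.div hJ.contDiffAt hJ0
    have h2 : ContDiffAt ℝ ∞
        (fun z : ℝ × P2 => √(1 + (lY m z.2 / JJ (sz_Tot z.1) (lX m z.2)) ^ 2)) z :=
      (contDiffAt_const.add (h1.pow 2)).sqrt (by positivity)
    have h3 : ContDiffAt ℝ ∞ (fun z : ℝ × P2 => sg (ep m) (sz_Tot z.1) (rot m z.2)) z :=
      contDiffAt_const.mul (h2.sub contDiffAt_const)
    exact ((h_contDiff.comp (contDiff_const.sub hX)).contDiffAt.mul contDiffAt_const).mul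
      (be_smooth_Tot.contDiffAt.comp z h3)

lemma cf_smooth_Tot (m : ℝ) : ContDiff ℝ ∞ (cf_Tot m) :=
  ((qq_smooth_Tot m).mul (contDiff_const.add
    ((sz_smooth_Tot.comp contDiff_fst).mul (qq_smooth_Tot m)))).div
    (contDiff_const.add (contDiff_fst.pow 2)) fun z => by positivity

lemma qq_supp_Tot {m : ℝ} (m0 : 0 < m) (m1 : m ≤ 1 / 2) (t : ℝ) {x : P2}
    (hx : x ∉ Metric.closedBall (0 : P2) 5) : qq_Tot m (t, x) = 0 := by
  by_contra hq
  apply hx
  have ha : h (2 - lX m x) ≠ 0 := fun h0 => hq (by simp [qq_Tot, h0])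
  have hb : be (sg (ep m) (sz_Tot t) (rot m x)) ≠ 0 := fun h0 => hq (by simp [qq_Tot, h0])
  have a1 : 1 < lX m x := by
    by_contra hc
    exact ha (h_zero (Or.inr (by linarith)))
  have a2 : lX m x < 2 := by
    by_contra hc
    exact ha (h_zero (Or.inl (by linarith)))
  have b1 : sg (ep m) (sz_Tot t) (rot m x) < 2 := by
    by_contra hc
    exact hb (by rw [be, H_zero (by linarith), mul_zero])
  have e0 : 0 < ep m := by unfold ep; positivity
  have e1 : ep m ≤ 1 / 400 := by unfold ep; nlinarith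
  obtain ⟨j1, j2⟩ := JJ_near_Tot t (lX m x)
  rw [sg, rot_fst, rot_snd, div_mul_eq_mul_div, div_lt_iff₀ e0] at b1
  have hsq := rot_sq m x
  generalize JJ (sz_Tot t) (lX m x) = J at *
  generalize lX m x = a at *
  generalize lY m x = b at *
  have hJ : 0 < J := by linarith
  have r1 : √(1 + (b / J) ^ 2) < 2 := by
    by_contra hc
    nlinarith
  have r2 : 1 + (b / J) ^ 2 < 2 ^ 2 := (Real.sqrt_lt' two_pos).1 r1
  have r3 : b ^ 2 < 3 * J ^ 2 := by
    rw [div_pow] at r2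
    exact (div_lt_iff₀ (pow_pos hJ 2)).1 (by linarith)
  have r4 : x.1 ^ 2 + x.2 ^ 2 ≤ 5 ^ 2 := by nlinarith
  rw [mem_closedBall_zero_iff, Prod.norm_def, max_le_iff, Real.norm_eq_abs, Real.norm_eq_abs]
  constructor
  · exact abs_le_of_sq_le_sq (by nlinarith [sq_nonneg x.2]) (by norm_num)
  · exact abs_le_of_sq_le_sq (by nlinarith [sq_nonneg x.1]) (by norm_num)

lemma slope_Tot (k : ℕ) : (0 : ℝ) < (1 / 2) ^ (k + 1) ∧ ((1 : ℝ) / 2) ^ (k + 1) ≤ 1 / 2 := by
  refine ⟨by positivity, ?_⟩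
  have : ((1 : ℝ) / 2) ^ k ≤ 1 := pow_le_one₀ (by norm_num) (by norm_num)
  rw [pow_succ]
  linarith

lemma cone_lt_Tot {j k : ℕ} (hjk : j < k) {x : P2} (hj : x ∈ Cone ((1 / 2) ^ (j + 1)))
    (hk : x ∈ Cone ((1 / 2) ^ (k + 1))) : False := by
  have h1 : ((1 : ℝ) / 2) ^ (k + 1) ≤ (1 / 2) ^ (j + 1 + 1) :=
    pow_le_pow_of_le_one (by norm_num) (by norm_num) (by omega)
  rw [pow_succ _ (j + 1)] at h1
  obtain ⟨h0, h2, -⟩ := hj
  obtain ⟨-, -, h3⟩ := hk
  have h4 := mul_pos (slope_Tot j).1 h0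
  have h5 := mul_le_mul_of_nonneg_right h1 h0.le
  nlinarith

lemma cone_eq_Tot {j k : ℕ} {x : P2} (hj : x ∈ Cone ((1 / 2) ^ (j + 1)))
    (hk : x ∈ Cone ((1 / 2) ^ (k + 1))) : j = k := by
  rcases lt_trichotomy j k with h | h | h
  · exact (cone_lt_Tot h hj hk).elim
  · exact h
  · exact (cone_lt_Tot h hk hj).elim

theorem exists_metric : ∃ (g : Met P2) (s : ℕ → ℝ), Base g ∧
    (∀ k, Ray g ((1 / 2) ^ (k + 1)) (s k)) ∧ Tendsto s atTop (𝓝 0) := by
  obtain ⟨M, M0, hM⟩ := h_bdd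
  let m : ℕ → ℝ := fun k => (1 / 2) ^ (k + 1)
  let F : ℕ → P2 →L[ℝ] P2 →L[ℝ] ℝ := fun k => (lX (m k)).smulRight (lX (m k))
  have hF : ∀ k v w, F k v w = lX (m k) v * lX (m k) w := fun k v w => by simp [F]
  obtain ⟨t, ht, hsm⟩ := smooth_sum (fun k z => cf_Tot (m k) z • F k)
    (fun k => (cf_smooth_Tot (m k)).smul contDiff_const) (isCompact_closedBall (0 : P2) 5)
    (fun k t x hx => by
      simp only [cf_Tot, qq_supp_Tot (slope_Tot k).1 (slope_Tot k).2 t hx, m, zero_mul, zero_div,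
        zero_smul])
    (fun k => min (1 / M) (1 / ((k : ℝ) + 1))) (fun k => by positivity)
  simp only [smul_smul, cf_mul_Tot] at hsm
  let s : ℕ → ℝ := fun k => sz_Tot (t k)
  have s0 : ∀ k, 0 < s k := fun k => div_pos (ht k).1 (by positivity)
  have s1 : ∀ k, s k ≤ t k := fun k =>
    div_le_self (ht k).1.le (by nlinarith [sq_nonneg (t k)])
  have par : ∀ k, Par (ep (m k)) (s k) := fun k => by
    have a0 : 0 < m k := (slope_Tot k).1
    have a1 : m k ≤ 1 / 2 := (slope_Tot k).2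
    refine ⟨by unfold ep; positivity, by unfold ep; nlinarith, s0 k,
      (abs_le.1 (sz_abs_Tot _)).2, fun u => ?_⟩
    have b1 : s k ≤ 1 / M := (s1 k).trans ((ht k).2.trans (min_le_left _ _))
    calc s k * h u ≤ 1 / M * M := mul_le_mul b1 (hM u) (h_nonneg u) (by positivity)
      _ = 1 := by field_simp
  have supp : ∀ k x, Bm (m k) (s k) x ≠ 0 →
      x ∈ Cone (m k) ∧ 1 < lX (m k) x ∧ lX (m k) x < 2 ∧ 1 < nr x ∧ x.1 < 3 := fun k x hx =>
    Bm_supp (slope_Tot k).1 (slope_Tot k).2 (par k) hx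
  let g : Met P2 := fun x => g0 x + ∑' k, Bm (m k) (s k) x • F k
  have single : ∀ k x, (∀ j, j ≠ k → Bm (m j) (s j) x = 0) →
      g x = g0 x + Bm (m k) (s k) x • F k := fun k x hx => by
    simp only [g]
    rw [tsum_eq_single k fun j hj => by rw [hx j hj, zero_smul]]
  have incone : ∀ k x, x ∈ Cone (m k) → g x = g0 x + Bm (m k) (s k) x • F k := fun k x hx =>
    single k x fun j hj => by
      by_contra hc
      exact hj (cone_eq_Tot (supp j x hc).1 hx)
  have ex : ∀ x, ∃ k, g x = g0 x + Bm (m k) (s k) x • F k := fun x => by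
    by_cases hx : ∃ k, Bm (m k) (s k) x ≠ 0
    · obtain ⟨k, hk⟩ := hx
      exact ⟨k, incone k x (supp k x hk).1⟩
    · exact ⟨0, single 0 x fun j _ => by_contra fun hc => hx ⟨j, hc⟩⟩
  have app : ∀ k x, g x = g0 x + Bm (m k) (s k) x • F k → ∀ v w,
      g x v w = g0 x v w + Bm (m k) (s k) x * (lX (m k) v * lX (m k) w) := fun k x hx v w => by
    rw [hx, ← hF]
    rfl
  have low : ∀ x v, g0 x v v ≤ g x v v := fun x v => by
    obtain ⟨k, hk⟩ := ex x
    rw [app k x hk]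
    exact le_add_of_nonneg_right (mul_nonneg (Bm_nonneg (par k) x) (mul_self_nonneg _))
  refine ⟨g, s, ⟨⟨g0_nice.sm.add hsm, fun x v w => ?_, ?_⟩, low, fun x hx => ?_⟩,
    fun k => ⟨(slope_Tot k).1, (slope_Tot k).2, par k, fun x v => ?_,
      fun x hx => app k x (incone k x hx)⟩, ?_⟩
  · obtain ⟨k, hk⟩ := ex x
    rw [app k x hk, app k x hk, g0_nice.sy x v w, mul_comm (lX (m k) v)]
  · obtain ⟨C, C0, hC⟩ := g0_nice.co
    exact ⟨C, C0, fun x v => (hC x v).trans (mul_le_mul_of_nonneg_left (low x v) C0.le)⟩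
  · have hz : ∀ j, Bm (m j) (s j) x = 0 := fun j => by
      by_contra hc
      obtain ⟨⟨c1, c2, -⟩, -, -, c3, c4⟩ := supp j x hc
      have c5 : 0 < m j * x.1 := mul_pos (slope_Tot j).1 c1
      rcases hx with hx | hx | hx | hx <;> linarith
    rw [single 0 x fun j _ => hz j, hz 0, zero_smul, add_zero]
  · change g0 x v v + Bm (m k) (s k) x * lX (m k) v ^ 2 ≤ g x v v
    by_cases hx : Bm (m k) (s k) x = 0
    · rw [hx, zero_mul, add_zero]
      exact low x v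
    · rw [app k x (incone k x (supp k x hx).1), sq]
  · refine squeeze_zero (fun k => (s0 k).le)
      (fun k => (s1 k).trans ((ht k).2.trans (min_le_right _ _))) ?_
    exact tendsto_one_div_add_atTop_nhds_zero_nat

end Pool.Agent.MP_402458_gt.Sf

end

section

/-! Shorter curves beyond the foci. -/

set_option maxSynthPendingDepth 3

open Set Filter Topology
open scoped ContDiff

namespace Pool.Agent.MP_402458_gt.Sf

/-- the point with coordinates `a`, `b` along and across the ray -/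
noncomputable def Pt_Comp (m a b : ℝ) : P2 := ((a - m * b) / SS m, (m * a + b) / SS m)

lemma rot_Comp (m a b : ℝ) : rot m (Pt_Comp m a b) = (a, b) := rot_inv m a b

lemma lX_Comp (m a b : ℝ) : lX m (Pt_Comp m a b) = a := by rw [← rot_fst, rot_Comp]

lemma lY_Comp (m a b : ℝ) : lY m (Pt_Comp m a b) = b := by rw [← rot_snd, rot_Comp]

lemma cone_Comp {m a b : ℝ} (m0 : 0 < m) (m1 : m ≤ 1 / 2) (ha : 0 < a) (hb : 0 ≤ b)
    (hb' : b ≤ m * a / 10) : Pt_Comp m a b ∈ Cone m := by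
  have hS := SS_pos m
  have h1 : m * m ≤ 1 / 4 := by nlinarith
  have h2 : m * b ≤ a / 40 := by nlinarith
  have h3 : m * m * b ≤ b / 4 := by nlinarith
  have h4 : 0 ≤ m * m * b := by positivity
  have h5 : 0 < m * a := by positivity
  refine ⟨div_pos (by linarith) hS, ?_, ?_⟩
  · show 4 / 5 * m * ((a - m * b) / SS m) ≤ (m * a + b) / SS m
    rw [← mul_div_assoc]
    exact div_le_div_of_nonneg_right (by nlinarith) hS.le
  · show (m * a + b) / SS m ≤ 6 / 5 * m * ((a - m * b) / SS m)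
    rw [← mul_div_assoc]
    exact div_le_div_of_nonneg_right (by nlinarith) hS.le

lemma fst_Comp {m a b : ℝ} (m0 : 0 < m) (ha : 0 ≤ a) (hb : 0 ≤ b) : (Pt_Comp m a b).1 ≤ a := by
  have hS := one_le_SS m
  show (a - m * b) / SS m ≤ a
  rw [div_le_iff₀ (SS_pos m)]
  nlinarith [mul_nonneg m0.le hb]

variable {g : Met P2} {m s : ℝ}

lemma g_Comp (hr : Ray g m s) {x : P2} (hx : x ∈ Cone m) (h2 : x.1 ≤ 2) (v : P2) :
    g x v v = v.1 ^ 2 + v.2 ^ 2 + Bm m s x * lX m v ^ 2 := by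
  rw [hr.eqc x hx, g0_flat (Or.inl (by linarith)) (Or.inl h2), mk3_apply]
  ring

lemma Bm_Comp (hr : Ray g m s) {x : P2} (hx : lX m x ≤ 1 ∨ 2 ≤ lX m x) : Bm m s x = 0 := by
  by_contra hne
  obtain ⟨-, h1, h2, -⟩ := Bm_supp hr.m0 hr.m1 hr.par hne
  rcases hx with hx | hx <;> linarith

lemma one_Comp (hb : Base g) (hr : Ray g m s) {μ : ℝ} (h0 : 0 ≤ μ) (h1 : μ ≤ m / 10) :
    riemDist g pp (Pt_Comp m 2 μ) ≤ 20 - nr (2, μ) := by
  have m0 := hr.m0
  have m1 := hr.m1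
  have hS := SS_pos m
  have hd : 1 < 2 - m * μ := by nlinarith
  have hd0 : 0 < 2 - m * μ := by linarith
  obtain ⟨X, hX⟩ : ∃ X, X = (2 - m * μ) / SS m := ⟨_, rfl⟩
  obtain ⟨k, hk⟩ : ∃ k, k = (m * 2 + μ) / (2 - m * μ) := ⟨_, rfl⟩
  have X0 : 0 < X := hX ▸ div_pos hd0 hS
  have X2 : X ≤ 2 := hX ▸ fst_Comp (a := 2) m0 (by norm_num) h0
  have k0 : 0 ≤ k := hk ▸ div_nonneg (by positivity) hd0.le
  have k1 : k ≤ 1 := hk ▸ (div_le_one hd0).2 (by nlinarith)
  have hk1 : |k| ≤ 1 := by rwa [abs_of_nonneg k0]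
  have hc : ∀ Z, Z ≤ 3 → cm k Z = Pt_Comp m (2 * (Z / X)) (μ * (Z / X)) := fun Z hZ => by
    rw [cm_left k hZ, hX, hk]
    ext
    · simp only [Pt_Comp]
      field_simp
    · simp only [Pt_Comp]
      field_simp
  have hcX : cm k X = Pt_Comp m 2 μ := by
    rw [hc X (by linarith), div_self X0.ne', mul_one, mul_one]
  have := fan_dist hb hk1 (X := X) (by linarith) fun Z hZ _ v => by
    rcases le_total 3 Z with h3 | h3
    · rw [hb.eq0 _ (Or.inr (Or.inr (Or.inl h3)))]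
    · have hq : 1 ≤ Z / X := (one_le_div X0).2 hZ
      have hcone : cm k Z ∈ Cone m := by
        rw [hc Z h3]
        exact cone_Comp m0 m1 (by linarith) (by positivity) (by nlinarith)
      rw [hr.eqc _ hcone, Bm_Comp hr (Or.inr (by rw [hc Z h3, lX_Comp]; linarith)), zero_mul,
        add_zero]
  rw [← D0_cm k X0.le (by linarith), D0_left (show (cm k X).1 ≤ 3 by show X ≤ 3; linarith), hcX,
    ← nr_rot m, rot_Comp] at this
  exact this

lemma three_Comp (hb : Base g) (hr : Ray g m s) {y a : ℝ} (h0 : 0 ≤ y) (h1 : y ≤ m / 10)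
    (a0 : 0 < a) (a1 : a ≤ 1) :
    riemDist g (Pt_Comp m 1 y) (Pt_Comp m a 0) ≤ √((1 - a) ^ 2 + y ^ 2) := by
  have m0 := hr.m0
  have m1 := hr.m1
  have hS := SS_pos m
  have := flat_dist hb (Pt_Comp m 1 y) (Pt_Comp m a 0) fun t t0 t1 v => by
    have e : Pt_Comp m 1 y + t • (Pt_Comp m a 0 - Pt_Comp m 1 y) =
        Pt_Comp m (1 - t + t * a) (y * (1 - t)) := by
      ext
      · simp only [Pt_Comp, Prod.fst_add, Prod.smul_fst, Prod.fst_sub, smul_eq_mul]
        field_simp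
        ring
      · simp only [Pt_Comp, Prod.snd_add, Prod.smul_snd, Prod.snd_sub, smul_eq_mul]
        field_simp
        ring
    have p0 : 0 ≤ t * a := by positivity
    have p1 : 0 < 1 - t + t * a := by nlinarith
    have p2 : 1 - t + t * a ≤ 1 := by nlinarith
    have p3 : 0 ≤ y * (1 - t) := mul_nonneg h0 (by linarith)
    have p4 : y * (1 - t) ≤ m * (1 - t + t * a) / 10 := by
      have : 0 ≤ m * (t * a) := by positivity
      nlinarith
    rw [e, g_Comp hr (cone_Comp m0 m1 p1 p3 p4) ((fst_Comp m0 p1.le p3).trans (by linarith)),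
      Bm_Comp hr (Or.inl (by rw [lX_Comp]; exact p2)), zero_mul, add_zero]
  rw [← nr_rot m, map_sub, rot_Comp, rot_Comp] at this
  refine this.trans (le_of_eq ?_)
  simp only [nr, Prod.fst_sub, Prod.snd_sub]
  congr 1
  ring

/-- the logarithmic derivative of the comparison curve -/
noncomputable def ff_Comp (ε s u : ℝ) : ℝ := (1 + h (2 - u) * (ε * s)) / max (JJ s u) (1 / 4)

/-- the comparison curve -/
noncomputable def KK_Comp (ε s ξ : ℝ) : ℝ := Real.exp (∫ u in (2 : ℝ)..ξ, ff_Comp ε s u)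

lemma ff_cont_Comp (ε s : ℝ) : Continuous (ff_Comp ε s) := by
  unfold ff_Comp JJ
  refine Continuous.div (by fun_prop) (by fun_prop) fun u => ?_
  exact (lt_of_lt_of_le (by norm_num) (le_max_right _ _)).ne'

lemma KK_deriv_Comp (ε s ξ : ℝ) :
    HasDerivAt (KK_Comp ε s) (KK_Comp ε s ξ * ff_Comp ε s ξ) ξ :=
  ((ff_cont_Comp ε s).integral_hasStrictDerivAt 2 ξ).hasDerivAt.exp

lemma KK_cont_Comp (ε s : ℝ) : Continuous (KK_Comp ε s) :=
  continuous_iff_continuousAt.2 fun ξ => (KK_deriv_Comp ε s ξ).continuousAt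

lemma KK_pos_Comp (ε s ξ : ℝ) : 0 < KK_Comp ε s ξ := Real.exp_pos _

lemma KK_two_Comp (ε s : ℝ) : KK_Comp ε s 2 = 1 := by simp [KK_Comp]

lemma KK_le_Comp {ε s : ℝ} (hp : Par ε s) {ξ : ℝ} (hξ : ξ ≤ 2) : KK_Comp ε s ξ ≤ 1 := by
  refine Real.exp_le_one_iff.2 ?_
  rw [intervalIntegral.integral_symm, neg_nonpos]
  refine intervalIntegral.integral_nonneg hξ fun u _ => div_nonneg ?_ ?_
  · have := h_nonneg (2 - u)
    have := hp.e0
    have := hp.s0
    positivity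
  · exact le_trans (by norm_num) (le_max_right _ _)

lemma ff_eq_Comp {ε s : ℝ} (hp : Par ε s) {u : ℝ} (hu : 1 ≤ u) (y : ℝ) :
    y * ff_Comp ε s u = (1 + h (2 - u) * (ε * s)) * y / JJ s u := by
  have := (JJ_le hp.s0.le u).1
  have := hp.s1
  rw [ff_Comp, max_eq_left (by linarith)]
  ring

lemma Pt_deriv_Comp (m : ℝ) {a b : ℝ → ℝ} {a' b' t : ℝ} (ha : HasDerivAt a a' t)
    (hb : HasDerivAt b b' t) :
    HasDerivAt (fun t => Pt_Comp m (a t) (b t)) (Pt_Comp m a' b') t :=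
  ((ha.sub (hb.const_mul m)).div_const _).prodMk (((ha.const_mul m).add hb).div_const _)

lemma two_Comp (hb : Base g) (hr : Ray g m s) : ∃ C δ : ℝ, 0 < C ∧ 0 < δ ∧ ∀ μ, 0 ≤ μ →
    μ ≤ m / 10 → μ ≤ δ →
      riemDist g (Pt_Comp m 2 μ) (Pt_Comp m 1 (μ * KK_Comp (ep m) s 1)) ≤
        Ds (ep m) s (2, μ) - Ds (ep m) s (1, μ * KK_Comp (ep m) s 1) + C * μ ^ 4 := by
  have hp := hr.par
  have m0 := hr.m0
  obtain ⟨C, δ, hδ, hC⟩ := Ds_comp hp
  refine ⟨|C| + 1, δ, by positivity, hδ, fun μ h0 h1 h2 => ?_⟩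
  obtain ⟨y, hy⟩ : ∃ y : ℝ → ℝ, y = fun t => μ * KK_Comp (ep m) s (2 - t) := ⟨_, rfl⟩
  obtain ⟨z, hz⟩ : ∃ z : ℝ → ℝ, z = fun t => y t * ff_Comp (ep m) s (2 - t) := ⟨_, rfl⟩
  have da : ∀ t : ℝ, HasDerivAt (fun t : ℝ => 2 - t) (-1) t := fun t =>
    (hasDerivAt_id t).const_sub 2
  have dy : ∀ t, HasDerivAt y (-z t) t := fun t => by
    have := ((KK_deriv_Comp (ep m) s (2 - t)).comp t (da t)).const_mul μ
    rw [hz, hy]
    exact this.congr_deriv (by ring)
  have cy : Continuous y := continuous_iff_continuousAt.2 fun t => (dy t).continuousAt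
  have cz : Continuous z := by
    rw [hz]
    exact cy.mul ((ff_cont_Comp _ _).comp (by fun_prop))
  have dc : ∀ t, HasDerivAt (fun t => Pt_Comp m (2 - t) (y t)) (Pt_Comp m (-1) (-z t)) t :=
    fun t => Pt_deriv_Comp m (da t) (dy t)
  have cv : Continuous fun t => Pt_Comp m (-1) (-z t) := by
    unfold Pt_Comp
    fun_prop
  have cc : Continuous fun t => Pt_Comp m (2 - t) (y t) :=
    continuous_iff_continuousAt.2 fun t => (dc t).continuousAt
  have y0 : ∀ t, 0 ≤ y t := fun t => hy ▸ mul_nonneg h0 (KK_pos_Comp _ _ _).le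
  have y1 : ∀ t, 0 ≤ t → y t ≤ μ := fun t ht =>
    hy ▸ mul_le_of_le_one_right h0 (KK_le_Comp hp (by linarith))
  have hd := hb.nice.dist_le dc cv zero_le_one
  have cφ : Continuous fun t => √(g (Pt_Comp m (2 - t) (y t)) (Pt_Comp m (-1) (-z t))
      (Pt_Comp m (-1) (-z t))) :=
    (((hb.nice.sm.continuous.comp cc).clm_apply cv).clm_apply cv).sqrt
  have cG : Continuous fun t => -Ds (ep m) s (2 - t, y t) + (|C| + 1) * μ ^ 4 * t :=
    ((Ds_cont _ _).comp (by fun_prop)).neg.add (by fun_prop)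
  have hi := intervalIntegral.integral_le_sub_of_hasDeriv_right_of_le zero_le_one cG.continuousOn
    (g' := fun t => Dsx (ep m) s (2 - t, y t) + Dsy s (2 - t, y t) * z t + (|C| + 1) * μ ^ 4)
    (fun t ht => by
      have hne : ((2 - t, y t) : P2) ≠ (s, 0) := fun e => by
        have := congrArg Prod.fst e
        simp only at this
        linarith [hp.s1, ht.2]
      have d1 := ((Ds_smooth hp hne).2.comp_hasDerivAt t ((da t).prodMk (dy t))).neg
      have d2 := d1.add ((hasDerivAt_id t).const_mul ((|C| + 1) * μ ^ 4))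
      refine (d2.congr_deriv ?_).hasDerivWithinAt
      simp
      ring)
    cφ.continuousOn.integrableOn_Icc (fun t ht => by
      have t0 := ht.1
      have t1 := ht.2
      have hcone : Pt_Comp m (2 - t) (y t) ∈ Cone m :=
        cone_Comp m0 hr.m1 (by linarith) (y0 t) (by nlinarith [y1 t t0.le])
      have e : z t = (1 + h (2 - (2 - t)) * (ep m * s)) * y t / JJ s (2 - t) := by
        rw [hz]
        exact ff_eq_Comp hp (by linarith) _
      have hh := hC (2 - t, y t) (by show 1 ≤ 2 - t; linarith) (by show 2 - t ≤ 2; linarith)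
        (by show |y t| ≤ δ; rw [abs_of_nonneg (y0 t)]; linarith [y1 t t0.le])
      simp only at hh
      rw [← e] at hh
      rw [g_Comp hr hcone ((fst_Comp m0 (by linarith) (y0 t)).trans (by linarith)), ← rot_sq m,
        lX_Comp, lY_Comp, Bm, rot_Comp]
      have q : y t ^ 4 ≤ μ ^ 4 := pow_le_pow_left₀ (y0 t) (y1 t t0.le) 4
      have q2 : C * y t ^ 4 ≤ (|C| + 1) * μ ^ 4 :=
        mul_le_mul (by linarith [le_abs_self C]) q (pow_nonneg (y0 t) 4) (by positivity)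
      refine le_trans (le_of_eq ?_) (hh.trans (by linarith))
      congr 1
      ring)
  have e0 : y 0 = μ := by rw [hy]; simp [KK_two_Comp]
  have e1 : y 1 = μ * KK_Comp (ep m) s 1 := by rw [hy]; norm_num
  have e2 : (2 : ℝ) - 1 = 1 := by norm_num
  simp only [sub_zero, e0, e1, e2] at hd hi
  linarith

lemma gap_Comp {β τ y : ℝ} (b0 : 0 < β) (t0 : 0 < τ) (b1 : β + τ ≤ 1) (y0 : 0 ≤ y) (y1 : y ≤ 1) :
    √((β + τ) ^ 2 + y ^ 2) ≤ √(β ^ 2 + y ^ 2) + τ - τ * y ^ 2 / 12 := by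
  obtain ⟨B, hB⟩ : ∃ B, B = √(β ^ 2 + y ^ 2) := ⟨_, rfl⟩
  have B2 : B ^ 2 = β ^ 2 + y ^ 2 := hB ▸ Real.sq_sqrt (by positivity)
  have B0 : β ≤ B := hB ▸ Real.le_sqrt_of_sq_le (by nlinarith)
  have yy : y ^ 2 ≤ 1 := by nlinarith
  have B1 : B ≤ 2 := by nlinarith
  have h3 : y ^ 2 ≤ 3 * (B - β) := by nlinarith
  obtain ⟨η, hη⟩ : ∃ η, η = τ * y ^ 2 / 12 := ⟨_, rfl⟩
  have η0 : 0 ≤ η := hη ▸ by positivity
  have η1 : η ≤ τ := by rw [hη]; nlinarith
  have η2 : 4 * η ≤ τ * (B - β) := by rw [hη]; nlinarith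
  rw [← hB, ← hη]
  refine Real.sqrt_le_iff.2 ⟨by linarith, ?_⟩
  have : η * (B + τ) ≤ η * 3 := mul_le_mul_of_nonneg_left (by linarith) η0
  nlinarith [sq_nonneg η]

theorem comp_ray {g : Met P2} {m s : ℝ} (hb : Base g) (hr : Ray g m s) {τ : ℝ} (h0 : 0 < τ)
    (h1 : τ < s) : riemDist g pp (cm m ((s - τ) / SS m)) < 20 - (1 - ep m) * s + τ := by
  have hp := hr.par
  have m0 := hr.m0
  have m1 := hr.m1
  have s1 := hp.s1
  have hS := one_le_SS m
  obtain ⟨C, δ, hC, hδ, h2⟩ := two_Comp hb hr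
  obtain ⟨k, hk⟩ : ∃ k, k = KK_Comp (ep m) s 1 := ⟨_, rfl⟩
  have k0 : 0 < k := hk ▸ KK_pos_Comp _ _ _
  have k1 : k ≤ 1 := hk ▸ KK_le_Comp hp (by norm_num)
  obtain ⟨μ, μ0, μ1, μ2, μ3⟩ : ∃ μ, 0 < μ ∧ μ ≤ m / 10 ∧ μ ≤ δ ∧ μ ≤ τ * k ^ 2 / (24 * C) :=
    ⟨min (m / 10) (min δ (τ * k ^ 2 / (24 * C))), by positivity, min_le_left _ _,
      (min_le_right _ _).trans (min_le_left _ _), (min_le_right _ _).trans (min_le_right _ _)⟩
  have y0 : 0 ≤ μ * k := by positivity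
  have y1 : μ * k ≤ μ := mul_le_of_le_one_right μ0.le k1
  have a1 := one_Comp hb hr μ0.le μ1
  have a2 := h2 μ μ0.le μ1 μ2
  have a3 := three_Comp hb hr y0 (y1.trans μ1) (sub_pos.2 h1) (by linarith)
  rw [← hk, Ds_far _ _ (y := (2, μ)) le_rfl, Ds_in _ _ (y := (1, μ * k)) le_rfl] at a2
  have e : cm m ((s - τ) / SS m) = Pt_Comp m (s - τ) 0 := by
    rw [cm_left m ((div_le_self (by linarith) hS).trans (by linarith))]
    simp [Pt_Comp, mul_div_assoc]
  have e2 : nr ((1, μ * k) - (s, 0)) = √((1 - s) ^ 2 + (μ * k) ^ 2) := by simp [nr]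
  have a4 := gap_Comp (β := 1 - s) (by linarith) h0 (by linarith) y0 (by linarith)
  rw [show 1 - (s - τ) = 1 - s + τ by ring] at a3
  have a5 : C * μ ^ 4 < τ * (μ * k) ^ 2 / 12 := by
    rw [le_div_iff₀ (by positivity)] at μ3
    have q1 : μ ^ 2 ≤ μ := by nlinarith
    have q2 : C * μ ^ 2 ≤ τ * k ^ 2 / 24 := by nlinarith
    have q3 : 0 < τ * k ^ 2 := by positivity
    have q4 : 0 < μ ^ 2 := by positivity
    nlinarith [mul_lt_mul_of_pos_right (show C * μ ^ 2 < τ * k ^ 2 / 12 by linarith) q4]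
  have t1 := hb.nice.dist_triangle pp (Pt_Comp m 2 μ) (Pt_Comp m (s - τ) 0)
  have t2 := hb.nice.dist_triangle (Pt_Comp m 2 μ) (Pt_Comp m 1 (μ * k)) (Pt_Comp m (s - τ) 0)
  rw [e]
  rw [e2] at a2
  linarith

theorem comp_zero {g : Met P2} (hb : Base g) {τ : ℝ} (h0 : 0 < τ) (h1 : τ < 1 / 2) :
    riemDist g pp (-τ, 0) < 20 + τ := by
  have a1 := fan_dist hb (m := -1 / 2) (by rw [abs_le]; constructor <;> norm_num) (X := 1 / 4)
    (by norm_num) fun Z hZ h7 v => by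
      have : 0 ≤ bb Z := by
        rcases h7.eq_or_lt with h | h
        · rw [bb_right (by linarith)]
          linarith
        · exact (bb_pos (by linarith) h).le
      rw [hb.eq0 _ (Or.inl (by show -1 / 2 * bb Z ≤ 0; linarith))]
  rw [cm_left _ (by norm_num), t0_left _ (by norm_num)] at a1
  have a2 := flat_dist hb (1 / 4, -1 / 2 * (1 / 4)) (-τ, 0) fun t t0 t1 v => by
    have e1 : (((1 / 4, -1 / 2 * (1 / 4)) : P2) + t • ((-τ, 0) - (1 / 4, -1 / 2 * (1 / 4)))).1 ≤ 2 := by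
      simp only [Prod.fst_add, Prod.smul_fst, Prod.fst_sub, smul_eq_mul]
      nlinarith
    rw [hb.eq0 _ (Or.inl (by
      simp only [Prod.snd_add, Prod.smul_snd, Prod.snd_sub, smul_eq_mul]
      linarith)), g0_flat (Or.inl (by linarith)) (Or.inl e1), mk3_apply]
    ring
  have S2 := SS_sq (-1 / 2)
  have S0 := SS_pos (-1 / 2)
  have S1 : 1 < SS (-1 / 2) := by nlinarith
  have a3 : nr ((-τ, 0) - (1 / 4, -1 / 2 * (1 / 4))) < τ + SS (-1 / 2) * (1 / 4) := by
    refine (Real.sqrt_lt' (by positivity)).2 ?_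
    simp only [Prod.fst_sub, Prod.snd_sub]
    nlinarith
  have t1 := hb.nice.dist_triangle pp (1 / 4, -1 / 2 * (1 / 4)) (-τ, 0)
  linarith

end Pool.Agent.MP_402458_gt.Sf

end

section

/-! The example on a surface. -/

set_option maxSynthPendingDepth 3

open Set Filter Topology
open scoped ContDiff

namespace Pool.Agent.MP_402458_gt.Sf

variable {g : Met P2} {m s : ℝ}

/-- the tangent cut points -/
noncomputable def WW (m s : ℝ) : P2 := (20 - (1 - ep m) * s) • -(SS m)⁻¹ • cd m 7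

/-- the cut points -/
noncomputable def QQ (m s : ℝ) : P2 := cm m (s / SS m)

lemma SS_zero : SS 0 = 1 := by simp [SS]

lemma fan_ends {Γ : ℝ → P2}
    (hc : ∀ X, Γ (20 - t0 m X) = cm m X ∧ deriv Γ (20 - t0 m X) = -(t0d m X)⁻¹ • cd m X) :
    Γ 0 = pp ∧ deriv Γ 0 = -(SS m)⁻¹ • cd m 7 ∧ Γ 20 = 0 := by
  have h7 := hc 7
  have h0 := (hc 0).1
  rw [t0_right m (by norm_num), cm_seven, t0d_out m (Or.inr (by norm_num))] at h7
  rw [t0_left m (by norm_num), cm_left m (by norm_num)] at h0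
  simp only [sub_self, mul_zero, add_zero, sub_zero] at h7 h0
  exact ⟨h7.1, h7.2, h0⟩

lemma dist_zero (hb : Base g) : riemDist g pp 0 = 20 := by
  obtain ⟨Γ, hΓ, hc⟩ := fan_geo hb (m := 0) le_rfl (by norm_num)
  obtain ⟨e0, -, e2⟩ := fan_ends hc
  have h1 := hΓ.dist_le hb.nice (show (0 : ℝ) ≤ 20 by norm_num)
  have h2 := (cal_D0 hb).le_dist hb.nice pp 0
  rw [D0_right (by norm_num [pp]), D0_left (by norm_num), sub_self] at h2
  rw [e0, e2] at h1
  have : nr 0 = 0 := by simp [nr]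
  linarith

lemma zero_cut (hb : Base g) :
    WW 0 0 ∈ tangentSeparatingSet g pp ∧ expMap g pp (WW 0 0) = QQ 0 0 := by
  obtain ⟨Γ, hΓ, hc⟩ := fan_geo hb (m := 0) le_rfl (by norm_num)
  obtain ⟨Λ, hΛ, hd⟩ := fan_geo hb (m := -1 / 2) (by norm_num) (by norm_num)
  obtain ⟨e0, e1, e2⟩ := fan_ends hc
  obtain ⟨f0, -, f2⟩ := fan_ends hd
  have hW : WW 0 0 = (20 : ℝ) • deriv Γ 0 := by rw [WW, e1, mul_zero, sub_zero]
  have hx : expMap g pp (WW 0 0) = 0 := by rw [hW, ← e0, hb.nice.exp_eq hΓ.1, e2]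
  have hcut := cut_of hb.nice hΓ (L := 20) (by norm_num) (show (0 : ℝ) < 1 / 2 by norm_num)
    (by rw [e0, e2, dist_zero hb]) (fun τ h0 h1 => by
      have := (hc (-τ)).1
      rw [t0_left 0 (by linarith), cm_left 0 (by linarith), SS_zero, one_mul, sub_neg_eq_add,
        zero_mul] at this
      rw [e0, this]
      exact comp_zero hb h0 h1)
  rw [e0, ← hW] at hcut
  refine ⟨⟨hcut, ?_⟩, by rw [hx, QQ, zero_div, cm_left 0 (by norm_num), mul_zero]; rfl⟩
  rw [hx]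
  refine ⟨Γ, Λ, 20, ⟨hΓ.1, hΓ.2, e0, by norm_num, by rw [e2, dist_zero hb]⟩,
    ⟨hΛ.1, hΛ.2, f0, by norm_num, by rw [f2, dist_zero hb]⟩, e2, f2, fun h => ?_⟩
  have s1 := SS_pos (-1 / 2)
  have s2 := SS_le (m := -1 / 2) (by rw [abs_le]; constructor <;> norm_num)
  have a1 := (hc (SS (-1 / 2))).1
  have a2 := (hd 1).1
  rw [t0_left 0 (by linarith), cm_left 0 (by linarith), SS_zero, one_mul] at a1
  rw [t0_left _ (by norm_num), cm_left _ (by norm_num), mul_one] at a2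
  have := h (x := 20 - SS (-1 / 2)) ⟨by linarith, by linarith⟩
  rw [a1, a2] at this
  have := congrArg Prod.snd this
  norm_num at this

lemma ray_cut (hb : Base g) (hr : Ray g m s) :
    WW m s ∈ tangentCutLocus g pp \ tangentSeparatingSet g pp ∧
      expMap g pp (WW m s) = QQ m s := by
  obtain ⟨Γ, hΓ, hc⟩ := ray_geo hb hr
  have s1 := one_le_SS m
  have s0 := hr.par.s0
  have s2 := hr.par.s1
  have p0 := hr.par.e0
  have h7 := hc 7
  rw [tk, tkd, t0_right m (by norm_num), cm_seven, t0d_out m (Or.inr (by norm_num)),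
    H_zero (by linarith), h_zero (Or.inl (by linarith))] at h7
  simp only [sub_self, mul_zero, add_zero, sub_zero] at h7
  obtain ⟨e0, e1⟩ := h7
  have e2 : ∀ τ, 0 ≤ τ → Γ (20 - (1 - ep m) * s + τ) = cm m ((s - τ) / SS m) := by
    intro τ hτ
    have hX : (s - τ) / SS m ≤ 3 := by
      rw [div_le_iff₀ (SS_pos m)]
      linarith
    rw [← (hc _).1, tk, t0_left m hX, mul_div_cancel₀ _ (SS_pos m).ne', H_one (by linarith)]
    congr 1
    ring
  have e3 : Γ (20 - (1 - ep m) * s) = QQ m s := by simpa [QQ] using e2 0 le_rfl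
  have hL : 0 ≤ 20 - (1 - ep m) * s := by nlinarith
  have hd : riemDist g pp (QQ m s) = 20 - (1 - ep m) * s := by
    have h1 := hΓ.dist_le hb.nice hL
    have h2 := (cal_Dk hb hr).le_dist hb.nice pp (QQ m s)
    rw [e0, e3] at h1
    rw [Dk_pp, QQ, Dk_q hr] at h2
    rw [QQ] at h1 ⊢
    linarith
  have hW : WW m s = (20 - (1 - ep m) * s) • deriv Γ 0 := by rw [WW, e1]
  have hx : expMap g pp (WW m s) = QQ m s := by rw [hW, ← e0, hb.nice.exp_eq hΓ.1, e3]
  have hcut := cut_of hb.nice hΓ hL s0 (by rw [e0, e3, hd]) (fun τ h0 h1 => by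
    rw [e0, e2 τ h0.le]
    exact comp_ray hb hr h0 h1)
  rw [e0, ← hW] at hcut
  refine ⟨⟨hcut, fun h => ?_⟩, hx⟩
  have h2 := h.2
  rw [hx] at h2
  exact not_sep (seg_unique hb hr hΓ hc hd) h2

lemma WQ_cont : (Continuous fun z : ℝ × ℝ => WW z.1 z.2) ∧
    Continuous fun z : ℝ × ℝ => QQ z.1 z.2 := by
  have cS : Continuous fun z : ℝ × ℝ => (SS z.1)⁻¹ :=
    Continuous.inv₀ (by unfold SS; fun_prop) fun z => (SS_pos _).ne'
  have cb : Continuous bb := continuous_iff_continuousAt.2 fun X => (bb_deriv X).continuousAt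
  have c1 : Continuous fun z : ℝ × ℝ => z.2 / SS z.1 := by
    simp only [div_eq_mul_inv]
    exact continuous_snd.mul cS
  have c2 : Continuous fun z : ℝ × ℝ => 20 - (1 - ep z.1) * z.2 := by
    unfold ep
    fun_prop
  exact ⟨c2.smul (cS.neg.smul (continuous_const.prodMk (continuous_fst.mul continuous_const))),
    c1.prodMk (continuous_fst.mul (cb.comp c1))⟩

theorem main2 : ∃ g : Met P2, Nice g ∧ Bad g pp := by
  obtain ⟨g, s, hb, hr, hs⟩ := exists_metric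
  have hm : Tendsto (fun k : ℕ => (((1 / 2 : ℝ) ^ (k + 1), s k) : ℝ × ℝ)) atTop (𝓝 (0, 0)) :=
    ((tendsto_pow_atTop_nhds_zero_of_lt_one (by norm_num) (by norm_num)).comp
      (tendsto_add_atTop_nat 1)).prodMk_nhds hs
  have h1 : Tendsto (fun k : ℕ => WW ((1 / 2) ^ (k + 1)) (s k)) atTop (𝓝 (WW 0 0)) := by
    simpa only [Function.comp_def] using (WQ_cont.1.tendsto (0, 0)).comp hm
  have h2 : Tendsto (fun k : ℕ => QQ ((1 / 2) ^ (k + 1)) (s k)) atTop (𝓝 (QQ 0 0)) := by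
    simpa only [Function.comp_def] using (WQ_cont.2.tendsto (0, 0)).comp hm
  refine ⟨g, hb.nice, WW 0 0, (zero_cut hb).1, fun k => WW ((1 / 2) ^ (k + 1)) (s k),
    fun k => (ray_cut hb (hr k)).1, h1, ?_⟩
  rw [(zero_cut hb).2]
  exact h2.congr fun k => (ray_cut hb (hr k)).2.symm

end Pool.Agent.MP_402458_gt.Sf

end
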