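import Pool.Agent.Mg.F402458a.G63badd
import Pool.Agent.Mg.F402458a.G5ecee0
import Pool.Agent.Mg.F402458a.G96063f
import Pool.Agent.Mg.F402458a.Gf531a6

section

/-! A polynomial metric on three-space: definition, geodesics, comparison. -/

set_option maxSynthPendingDepth 3

open Set Filter Topology Real
open scoped ContDiff

namespace Pool.Agent.MP_402458_gt.Sf

/-- three-space -/
abbrev P3 : Type := ℝ × ℝ × ℝ

/-- coordinates -/
noncomputable def c1 : P3 →L[ℝ] ℝ := ContinuousLinearMap.fst ℝ ℝ (ℝ × ℝ)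

/-- coordinates -/
noncomputable def c2 : P3 →L[ℝ] ℝ := fX.comp (ContinuousLinearMap.snd ℝ ℝ (ℝ × ℝ))

/-- coordinates -/
noncomputable def c3 : P3 →L[ℝ] ℝ := fY.comp (ContinuousLinearMap.snd ℝ ℝ (ℝ × ℝ))

/-- the angular coefficient -/
def fB (s : ℝ) : ℝ := 10 - 30 * s + 40 * s ^ 2 - 25 * s ^ 3 + 6 * s ^ 4

/-- the radial coefficient -/
def fC (s : ℝ) : ℝ := 11 - 30 * s + 25 * s ^ 2 - 6 * s ^ 3

/-- the square of the distance from the axis -/
def sq3 (x : P3) : ℝ := x.2.1 ^ 2 + x.2.2 ^ 2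

/-- the radial pairing -/
def zv (x v : P3) : ℝ := x.2.1 * v.2.1 + x.2.2 * v.2.2

/-- the metric -/
noncomputable def g3 (x : P3) : P3 →L[ℝ] P3 →L[ℝ] ℝ :=
  fA ((sq3 x - 1) / 2) • c1.smulRight c1 + (fB (sq3 x) + fC (sq3 x) * x.2.1 ^ 2) • c2.smulRight c2 +
    (fC (sq3 x) * (x.2.1 * x.2.2)) • (c2.smulRight c3 + c3.smulRight c2) +
    (fB (sq3 x) + fC (sq3 x) * x.2.2 ^ 2) • c3.smulRight c3

lemma g3_apply (x v w : P3) : g3 x v w = fA ((sq3 x - 1) / 2) * (v.1 * w.1) +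
    fB (sq3 x) * (v.2.1 * w.2.1 + v.2.2 * w.2.2) + fC (sq3 x) * (zv x v * zv x w) := by
  simp [g3, c1, c2, c3, zv]
  ring

lemma g3_contDiff {n : WithTop ℕ∞} : ContDiff ℝ n g3 := by
  unfold g3 fA fB fC sq3
  fun_prop

lemma form_An3 {a b s V Z : ℝ} (hV : 0 ≤ V) (hZ0 : 0 ≤ Z) (hZ : Z ≤ s * V) {c : ℝ} (ha : c ≤ a)
    (hb : c ≤ a + b * s) : c * V ≤ a * V + b * Z := by
  rcases le_total 0 b with h | h
  · nlinarith [mul_nonneg h hZ0, mul_nonneg (sub_nonneg.2 ha) hV]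
  · nlinarith [mul_nonneg (neg_nonneg.2 h) (sub_nonneg.2 hZ), mul_nonneg (sub_nonneg.2 hb) hV]

lemma zv_le (x v : P3) : zv x v ^ 2 ≤ sq3 x * (v.2.1 ^ 2 + v.2.2 ^ 2) := by
  unfold zv sq3
  nlinarith [sq_nonneg (x.2.1 * v.2.2 - x.2.2 * v.2.1)]

lemma fB_ge (s : ℝ) : 1 / 2 ≤ fB s := by
  unfold fB
  nlinarith [sq_nonneg (s ^ 2 - 2 * s + 1), sq_nonneg (s - 4 / 3), sq_nonneg (s ^ 2 - 5 / 2 * s + 3 / 2),
    sq_nonneg (s ^ 2 - 2 * s + 3 / 4)]

lemma g3_nice : Nice g3 := by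
  refine ⟨g3_contDiff, fun x v w => by rw [g3_apply, g3_apply]; ring, 2, two_pos, fun x v => ?_⟩
  have h1 := fA_ge ((sq3 x - 1) / 2)
  have h2 := form_An3 (a := fB (sq3 x)) (b := fC (sq3 x)) (c := 1 / 2)
    (add_nonneg (sq_nonneg v.2.1) (sq_nonneg v.2.2)) (sq_nonneg (zv x v)) (zv_le x v) (fB_ge _)
    (by unfold fB fC; nlinarith [sq_nonneg (sq3 x - 1), sq_nonneg (sq3 x - 19 / 20)])
  have h3 : ‖v‖ ^ 2 ≤ v.1 ^ 2 + (v.2.1 ^ 2 + v.2.2 ^ 2) := by
    rw [Prod.norm_def, Prod.norm_def, Real.norm_eq_abs, Real.norm_eq_abs, Real.norm_eq_abs,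
      ← sq_abs v.1, ← sq_abs v.2.1, ← sq_abs v.2.2]
    have := sq_nonneg |v.1|
    have := sq_nonneg |v.2.1|
    have := sq_nonneg |v.2.2|
    rcases max_choice |v.1| (max |v.2.1| |v.2.2|) with h | h
    · rw [h]; linarith
    · rw [h]
      rcases max_choice |v.2.1| |v.2.2| with h' | h' <;> rw [h'] <;> linarith
  rw [g3_apply]
  nlinarith [mul_nonneg (sub_nonneg.2 h1) (sq_nonneg v.1), sq_nonneg v.1]

lemma g3_fderiv {x : P3} (hx : sq3 x = 1) (u v w : P3) : fderiv ℝ g3 x u v w =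
    -2 * zv x u * (v.2.1 * w.2.1 + v.2.2 * w.2.2) + 4 * zv x u * (zv x v * zv x w) := by
  have hd : HasFDerivAt g3 (fderiv ℝ g3 x) (x + (0 : ℝ) • u) := by
    simpa using (g3_contDiff (n := 1)).differentiable one_ne_zero x |>.hasFDerivAt
  have hl : HasDerivAt (fun t : ℝ => x + t • u) u 0 := by
    simpa using ((hasDerivAt_id (0 : ℝ)).smul_const u).const_add x
  have h0 : HasDerivAt (fun t : ℝ => g3 (x + t • u)) (fderiv ℝ g3 x u) 0 :=
    HasFDerivAt.comp_hasDerivAt (l := g3) (f := fun t : ℝ => x + t • u) (0 : ℝ) hd hl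
  have h1 : HasDerivAt (fun t : ℝ => g3 (x + t • u) v w) (fderiv ℝ g3 x u v w) 0 := by
    have k1 := h0.clm_apply (hasDerivAt_const (0 : ℝ) v)
    have k2 := k1.clm_apply (hasDerivAt_const (0 : ℝ) w)
    simpa only [map_zero, add_zero] using k2
  have a2 : HasDerivAt (fun t : ℝ => x.2.1 + t * u.2.1) u.2.1 0 := by
    simpa using ((hasDerivAt_id (0 : ℝ)).mul_const u.2.1).const_add x.2.1
  have a3 : HasDerivAt (fun t : ℝ => x.2.2 + t * u.2.2) u.2.2 0 := by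
    simpa using ((hasDerivAt_id (0 : ℝ)).mul_const u.2.2).const_add x.2.2
  have hs : HasDerivAt (fun t : ℝ => sq3 (x + t • u)) (2 * zv x u) 0 :=
    ((a2.pow 2).add (a3.pow 2)).congr_deriv (by simp [zv]; ring)
  have hz : ∀ y : P3, HasDerivAt (fun t : ℝ => zv (x + t • u) y) (zv u y) 0 := fun y =>
    (a2.mul_const y.2.1).add (a3.mul_const y.2.2)
  have hA := (hasDerivAt_fA _).comp (0 : ℝ) ((hs.sub_const 1).div_const 2)
  have hB : HasDerivAt (fun t : ℝ => fB (sq3 (x + t • u))) (-2 * zv x u) 0 :=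
    (((((hs.const_mul 30).const_sub 10).add ((hs.pow 2).const_mul 40)).sub
      ((hs.pow 3).const_mul 25)).add ((hs.pow 4).const_mul 6)).congr_deriv (by simp [hx]; ring)
  have hC : HasDerivAt (fun t : ℝ => fC (sq3 (x + t • u))) (4 * zv x u) 0 :=
    ((((hs.const_mul 30).const_sub 11).add ((hs.pow 2).const_mul 25)).sub
      ((hs.pow 3).const_mul 6)).congr_deriv (by simp [hx]; ring)
  have h2 := ((hA.mul_const (v.1 * w.1)).add
    (hB.mul_const (v.2.1 * w.2.1 + v.2.2 * w.2.2))).add (hC.mul ((hz v).mul (hz w)))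
  simp only [g3_apply] at h1
  rw [h1.unique h2]
  simp [hx, fA', fC]
  norm_num

/-- helices -/
noncomputable def hl (a c t : ℝ) : P3 := (a * t, cos (c * t), sin (c * t))

/-- their velocity -/
noncomputable def hl' (a c t : ℝ) : P3 := (a, -(c * sin (c * t)), c * cos (c * t))

lemma hl_deriv (a c t : ℝ) : HasDerivAt (hl a c) (hl' a c t) t := by
  have hc : HasDerivAt (fun s => c * s) c t := by simpa using (hasDerivAt_id t).const_mul c
  refine HasDerivAt.prodMk (by simpa using (hasDerivAt_id t).const_mul a)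
    ((hc.cos.congr_deriv (by ring)).prodMk (hc.sin.congr_deriv (by ring)))

lemma deriv_hl (a c : ℝ) : deriv (hl a c) = hl' a c := funext fun t => (hl_deriv a c t).deriv

lemma hl_sq (a c t : ℝ) : sq3 (hl a c t) = 1 := cos_sq_add_sin_sq _

lemma hl_geo (a c : ℝ) : IsGeodesic g3 (hl a c) := by
  refine ⟨by unfold hl; fun_prop, fun t w => ?_⟩
  have hc : HasDerivAt (fun s => c * s) c t := by simpa using (hasDerivAt_id t).const_mul c
  have h2 : HasDerivAt (hl' a c) (0, -(c * (cos (c * t) * c)), c * (-sin (c * t) * c)) t :=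
    (hasDerivAt_const t a).prodMk ((hc.sin.const_mul c).neg.prodMk (hc.cos.const_mul c))
  have hs := cos_sq_add_sin_sq (c * t)
  rw [deriv_hl, h2.deriv, g3_fderiv (hl_sq a c t), g3_fderiv (hl_sq a c t), g3_apply, hl_sq]
  simp only [zv, hl, hl', fA, fB, fC]
  linear_combination (c ^ 2 * (cos (c * t) * w.2.1 + sin (c * t) * w.2.2)) * hs

lemma hl_speed (a c t : ℝ) : g3 (hl a c t) (hl' a c t) (hl' a c t) = a ^ 2 + c ^ 2 := by
  have hs := cos_sq_add_sin_sq (c * t)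
  rw [g3_apply, hl_sq]
  simp only [hl', fA, fB, fC]
  linear_combination c ^ 2 * hs

/-- the comparison map -/
noncomputable def Ph (x : P3) : E4 :=
  !₂[x.1, (sq3 x - 1) / 2, (3 - sq3 x) / 2 * x.2.1, (3 - sq3 x) / 2 * x.2.2]

/-- its derivative -/
noncomputable def Ph' (x v : P3) : E4 :=
  !₂[v.1, zv x v, (3 - sq3 x) / 2 * v.2.1 - zv x v * x.2.1, (3 - sq3 x) / 2 * v.2.2 - zv x v * x.2.2]

/-- the part of the metric that dominates the second sphere -/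
def G2 (x v : P3) : ℝ := fB (sq3 x) * (v.2.1 ^ 2 + v.2.2 ^ 2) + (fC (sq3 x) - 1) * zv x v ^ 2

lemma g3_split (x v : P3) : g3 x v v = aa (Ph x) (Ph' x v) ^ 2 + G2 x v := by
  rw [aa_sq, g3_apply, G2]
  simp [Ph, Ph']
  ring

lemma q_pos {s : ℝ} (hs : 0 ≤ s) :
    0 < 16 + 400 * s + 298 * s ^ 2 - 654 * s ^ 3 + 336 * s ^ 4 - 73 * s ^ 5 + 6 * s ^ 6 := by
  rcases le_total s (1 / 5) with h | h
  · have h1 := mul_nonneg (sq_nonneg s) (show 0 ≤ 298 - 654 * s by linarith)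
    have h2 := mul_nonneg (pow_nonneg hs 4) (show 0 ≤ 336 - 73 * s by linarith)
    have h3 := pow_nonneg hs 6
    nlinarith
  · have h1 : 0 < (4 - s) ^ 2 + 16 * (1 + s * (3 - s) ^ 2 / 4) ^ 2 * (6 * s - 1) := by
      have : 0 < 6 * s - 1 := by linarith
      positivity
    have hs' : 0 < s := by linarith
    refine (mul_pos_iff_of_pos_left hs').1 (h1.trans_eq ?_)
    ring

lemma kb_G2 (x v : P3) : ∃ c : ℝ, 0 ≤ c ∧ (sq3 x ≠ 1 → 0 < c) ∧
    kb (Ph x) (Ph' x v) ^ 2 + c * (v.2.1 ^ 2 + v.2.2 ^ 2) ≤ G2 x v := by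
  have hs : 0 ≤ sq3 x := by unfold sq3; positivity
  have hq := q_pos hs
  have hz := zv_le x v
  have e1 : (Ph x) 2 ^ 2 + (Ph x) 3 ^ 2 = sq3 x * (3 - sq3 x) ^ 2 / 4 := by
    simp only [Ph]
    simp [sq3]
    ring
  have e2 : (Ph' x v) 2 ^ 2 + (Ph' x v) 3 ^ 2 = (3 - sq3 x) ^ 2 / 4 * (v.2.1 ^ 2 + v.2.2 ^ 2) +
      (2 * sq3 x - 3) * zv x v ^ 2 := by
    simp only [Ph']
    simp [sq3, zv]
    ring
  rw [kb_sq, e1, e2, G2]
  generalize sq3 x = s at *
  set W := (1 + s * (3 - s) ^ 2 / 4) ^ 2 with hW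
  have hW1 : 1 ≤ W := one_le_pow₀ (le_add_of_nonneg_right (by positivity))
  have hW0 : 0 < W := by linarith
  have a1 : fB s - (3 - s) ^ 2 / W = (s - 1) ^ 4 * ((16 + 400 * s + 298 * s ^ 2 - 654 * s ^ 3 +
      336 * s ^ 4 - 73 * s ^ 5 + 6 * s ^ 6) / (16 * W)) := by
    field_simp
    rw [hW, fB]
    ring
  have a2 : fB s - (3 - s) ^ 2 / W + (fC s - 1 - 4 * (2 * s - 3) / W) * s =
      (s - 1) ^ 2 * ((10 * W - 9) / W) := by
    field_simp
    rw [fB, fC]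
    ring
  have b1 : 0 < (10 * W - 9) / W := div_pos (by linarith) hW0
  refine ⟨min (fB s - (3 - s) ^ 2 / W)
    (fB s - (3 - s) ^ 2 / W + (fC s - 1 - 4 * (2 * s - 3) / W) * s), ?_, fun h => ?_, ?_⟩
  · rw [a2, a1]
    positivity
  · have : s - 1 ≠ 0 := sub_ne_zero.2 h
    rw [a2, a1]
    positivity
  · have := form_An3 (add_nonneg (sq_nonneg v.2.1) (sq_nonneg v.2.2)) (sq_nonneg (zv x v)) hz
      (min_le_left (fB s - (3 - s) ^ 2 / W) _) (min_le_right _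
        (fB s - (3 - s) ^ 2 / W + (fC s - 1 - 4 * (2 * s - 3) / W) * s))
    have e : 4 / W * ((3 - s) ^ 2 / 4 * (v.2.1 ^ 2 + v.2.2 ^ 2) + (2 * s - 3) * zv x v ^ 2) =
        (3 - s) ^ 2 / W * (v.2.1 ^ 2 + v.2.2 ^ 2) + 4 * (2 * s - 3) / W * zv x v ^ 2 := by ring
    rw [e]
    linarith

lemma G2_nonneg (x v : P3) : 0 ≤ G2 x v := by
  obtain ⟨c, h0, -, h⟩ := kb_G2 x v
  exact le_trans (by positivity) h

lemma kb_le_G2 (x v : P3) : kb (Ph x) (Ph' x v) ≤ √(G2 x v) := by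
  obtain ⟨c, h0, -, h⟩ := kb_G2 x v
  exact Real.le_sqrt_of_sq_le (le_trans (le_add_of_nonneg_right (by positivity)) h)

lemma d1 {c : ℝ → P3} {v : P3} {t : ℝ} (hc : HasDerivAt c v t) :
    HasDerivAt (fun s => (c s).1) v.1 t := c1.hasFDerivAt.comp_hasDerivAt t hc

lemma d2 {c : ℝ → P3} {v : P3} {t : ℝ} (hc : HasDerivAt c v t) :
    HasDerivAt (fun s => (c s).2.1) v.2.1 t := c2.hasFDerivAt.comp_hasDerivAt t hc

lemma d3 {c : ℝ → P3} {v : P3} {t : ℝ} (hc : HasDerivAt c v t) :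
    HasDerivAt (fun s => (c s).2.2) v.2.2 t := c3.hasFDerivAt.comp_hasDerivAt t hc

lemma sq3_deriv {c : ℝ → P3} {v : P3} {t : ℝ} (hc : HasDerivAt c v t) :
    HasDerivAt (fun s => sq3 (c s)) (2 * zv (c t) v) t :=
  (((d2 hc).pow 2).add ((d3 hc).pow 2)).congr_deriv (by simp [zv]; ring)

lemma Ph_deriv {c : ℝ → P3} {v : P3} {t : ℝ} (hc : HasDerivAt c v t) :
    HasDerivAt (fun s => Ph (c s)) (Ph' (c t) v) t := by
  have hs := sq3_deriv hc
  rw [hasDerivAt_E4]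
  intro i
  fin_cases i
  · simpa [Ph, Ph'] using d1 hc
  · simp only [Ph, Ph']
    exact ((hs.sub_const 1).div_const 2).congr_deriv (by simp)
  · simp only [Ph, Ph']
    exact (((hs.const_sub 3).div_const 2).mul (d2 hc)).congr_deriv (by simp; ring)
  · simp only [Ph, Ph']
    exact (((hs.const_sub 3).div_const 2).mul (d3 hc)).congr_deriv (by simp; ring)

lemma Ph'_cont {c v : ℝ → P3} (hc : Continuous c) (hv : Continuous v) :
    Continuous fun t => Ph' (c t) (v t) := by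
  refine (PiLp.continuous_toLp 2 _).comp (continuous_pi fun i => ?_)
  fin_cases i <;> simp [sq3, zv] <;> fun_prop

end Pool.Agent.MP_402458_gt.Sf

end

section

/-! The polynomial example in dimension three. -/

set_option maxSynthPendingDepth 3

open Set Filter Topology Real
open scoped ContDiff

namespace Pool.Agent.MP_402458_gt.Sf

/-- the base point -/
def p3 : P3 := (0, 1, 0)

/-- the target points -/
noncomputable def q3 (a c : ℝ) : P3 := (a, cos c, sin c)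

lemma Ph_p3 : Ph p3 = p0 := by
  ext i
  fin_cases i <;> simp [Ph, p3, p0, sq3]
  norm_num

lemma Ph_q3 (a c : ℝ) : Ph (q3 a c) = qq a c := by
  have h : sq3 (q3 a c) = 1 := cos_sq_add_sin_sq c
  ext i
  fin_cases i <;> simp [Ph, h, qq] <;> simp [q3] <;> norm_num

lemma g3_split' (x v : P3) : g3 x v v = aa (Ph x) (Ph' x v) ^ 2 + √(G2 x v) ^ 2 := by
  rw [g3_split, Real.sq_sqrt (G2_nonneg x v)]

lemma pt3 (x v : P3) {θ : ℝ} (hθ : 0 ≤ θ) :
    π * ka (Ph x) (Ph' x v) + θ * kb (Ph x) (Ph' x v) ≤ √(π ^ 2 + θ ^ 2) * √(g3 x v v) :=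
  cs_bound hθ (ka_le _ _) (kb_le_G2 x v) (Real.sqrt_nonneg _)
    (by rw [Real.sq_sqrt (g3_nice.nonneg x v), g3_split'])

section curve

variable {c v : ℝ → P3} (hc : ∀ t, HasDerivAt c (v t) t) (hv : Continuous v)
include hc hv

lemma cont3 (θ : ℝ) : Continuous fun t =>
    π * ka (Ph (c t)) (Ph' (c t) (v t)) + θ * kb (Ph (c t)) (Ph' (c t) (v t)) := by
  have c0 : Continuous c := continuous_iff_continuousAt.2 fun t => (hc t).continuousAt
  exact (continuous_const.mul (continuous_ka (fun t => Ph_deriv (hc t)) (Ph'_cont c0 hv))).add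
    (continuous_const.mul (continuous_kb (fun t => Ph_deriv (hc t)) (Ph'_cont c0 hv)))

lemma speed3 : Continuous fun t => √(g3 (c t) (v t) (v t)) := by
  have c0 : Continuous c := continuous_iff_continuousAt.2 fun t => (hc t).continuousAt
  simp only [g3_apply, fA, fB, fC, sq3, zv]
  fun_prop

lemma low3 {T θ : ℝ} (hT : 0 ≤ T) (hθ : θ ∈ Icc 0 π) (h0 : c 0 = p3) (h1 : c T = q3 π θ) :
    π ^ 2 + θ ^ 2 ≤ ∫ t in (0 : ℝ)..T,
      (π * ka (Ph (c t)) (Ph' (c t) (v t)) + θ * kb (Ph (c t)) (Ph' (c t) (v t))) :=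
  lower_ab (c := fun t => Ph (c t)) (fun t => Ph_deriv (hc t))
    (Ph'_cont (continuous_iff_continuousAt.2 fun t => (hc t).continuousAt) hv) hT hθ
    (by rw [← Ph_p3, ← h0]) (by rw [← Ph_q3, ← h1])

end curve

lemma dist_low3 {θ : ℝ} (hθ : θ ∈ Icc 0 π) : √(π ^ 2 + θ ^ 2) ≤ riemDist g3 p3 (q3 π θ) := by
  apply le_csInf
  · exact ⟨_, fun t => p3 + t • (q3 π θ - p3), by fun_prop, by simp, by simp, rfl⟩
  rintro L ⟨c, hc1, h0, h1, rfl⟩
  have hc : ∀ t, HasDerivAt c (deriv c t) t := fun t =>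
    (hc1.differentiable (by simp) t).hasDerivAt
  have hv := hc1.continuous_deriv_one
  have h := low3 hc hv zero_le_one hθ h0 h1
  have h2 := intervalIntegral.integral_mono_on (μ := MeasureTheory.volume) zero_le_one
    ((cont3 hc hv θ).intervalIntegrable _ _)
    ((continuous_const.mul (speed3 hc hv)).intervalIntegrable _ _)
    (fun t _ => pt3 (c t) (deriv c t) hθ.1)
  simp only [Pi.mul_apply] at h2
  rw [intervalIntegral.integral_const_mul] at h2
  have h3 := ell_pos θ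
  have h4 := ell_sq θ
  apply le_of_mul_le_mul_left _ h3
  nlinarith

/-- competitors -/
noncomputable def cp (a c δ t : ℝ) : P3 :=
  (a * t, (1 + δ * sin (π * t)) * cos (c * t), (1 + δ * sin (π * t)) * sin (c * t))

/-- their velocity -/
noncomputable def cp' (a c δ t : ℝ) : P3 :=
  (a, δ * (π * cos (π * t)) * cos (c * t) - (1 + δ * sin (π * t)) * c * sin (c * t),
    δ * (π * cos (π * t)) * sin (c * t) + (1 + δ * sin (π * t)) * c * cos (c * t))

lemma cp_deriv (a c δ t : ℝ) : HasDerivAt (cp a c δ) (cp' a c δ t) t := by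
  have hc : HasDerivAt (fun s => c * s) c t := by simpa using (hasDerivAt_id t).const_mul c
  have hp : HasDerivAt (fun s => π * s) π t := by simpa using (hasDerivAt_id t).const_mul π
  have hr := (hp.sin.const_mul δ).const_add 1
  exact HasDerivAt.prodMk (by simpa using (hasDerivAt_id t).const_mul a)
    (((hr.mul hc.cos).congr_deriv (by ring)).prodMk ((hr.mul hc.sin).congr_deriv (by ring)))

lemma alg3 {δ r z P : ℝ} (a c : ℝ) (h1 : δ ≤ 1) (r0 : 0 ≤ r) (r1 : r ≤ δ) (z1 : z ^ 2 ≤ δ ^ 2 * P) :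
    fA (((1 + r) ^ 2 - 1) / 2) * (a * a) + fB ((1 + r) ^ 2) * (z ^ 2 + (1 + r) ^ 2 * c ^ 2) +
      fC ((1 + r) ^ 2) * ((1 + r) * z * ((1 + r) * z)) ≤
      a ^ 2 + c ^ 2 + (z ^ 2 - a ^ 2 * r ^ 2) + δ ^ 3 * (6 * a ^ 2 + 93 * P + 1863 * c ^ 2) := by
  have h0 : 0 ≤ δ := r0.trans r1
  have hr1 : r ≤ 1 := r1.trans h1
  have d4 : δ ^ 4 ≤ δ ^ 3 := pow_le_pow_of_le_one h0 h1 (by norm_num)
  have d3 : 0 ≤ δ ^ 3 := by positivity
  have s0 : 2 * r ≤ (1 + r) ^ 2 - 1 := by nlinarith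
  have s1 : (1 + r) ^ 2 - 1 ≤ 3 * δ := by nlinarith
  have e : (1 + r) * z * ((1 + r) * z) = (1 + r) ^ 2 * z ^ 2 := by ring
  rw [e]
  generalize (1 + r) ^ 2 = s at *
  have s4 : (s - 1) ^ 4 ≤ 81 * δ ^ 3 := by
    have := pow_le_pow_left₀ (by linarith) s1 4
    linarith [show (3 * δ) ^ 4 = 81 * δ ^ 4 by ring]
  have b1 : fA ((s - 1) / 2) ≤ 1 - r ^ 2 + 6 * δ ^ 3 := by
    have : r ^ 2 ≤ ((s - 1) / 2) ^ 2 := pow_le_pow_left₀ r0 (by linarith) 2
    unfold fA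
    linarith [show ((s - 1) / 2) ^ 4 = (s - 1) ^ 4 / 16 by ring]
  have b2 : fB s + fC s * s ≤ 1 + 93 * δ := by
    have : (s - 1) * (10 * s - 9) ≤ 3 * δ * 31 :=
      mul_le_mul s1 (by linarith) (by linarith) (by positivity)
    linarith [show fB s + fC s * s = 1 + (s - 1) * (10 * s - 9) by unfold fB fC; ring]
  have b3 : fB s * s ≤ 1 + 1863 * δ ^ 3 := by
    have : (s - 1) ^ 4 * (6 * s - 1) ≤ 81 * δ ^ 3 * 23 :=
      mul_le_mul s4 (by linarith) (by linarith) (by positivity)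
    linarith [show fB s * s = 1 + (s - 1) ^ 4 * (6 * s - 1) by unfold fB; ring]
  have m1 := mul_le_mul_of_nonneg_right b1 (sq_nonneg a)
  have m2 := mul_le_mul_of_nonneg_right b2 (sq_nonneg z)
  have m3 := mul_le_mul_of_nonneg_right b3 (sq_nonneg c)
  have m4 := mul_le_mul_of_nonneg_left z1 h0
  linarith

lemma cp_speed {a c δ t : ℝ} (h0 : 0 ≤ δ) (h1 : δ ≤ 1) (ht : t ∈ Icc (0 : ℝ) 1) :
    g3 (cp a c δ t) (cp' a c δ t) (cp' a c δ t) ≤ a ^ 2 + c ^ 2 + δ ^ 2 * (π ^ 2 - a ^ 2) / 2 +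
      δ ^ 3 * (6 * a ^ 2 + 93 * π ^ 2 + 1863 * c ^ 2) +
        δ ^ 2 * (π ^ 2 + a ^ 2) / 2 * cos (2 * π * t) := by
  have hs := cos_sq_add_sin_sq (c * t)
  have hs0 : 0 ≤ sin (π * t) := sin_nonneg_of_nonneg_of_le_pi (mul_nonneg pi_pos.le ht.1)
    (mul_le_of_le_one_right pi_pos.le ht.2)
  have e1 : sq3 (cp a c δ t) = (1 + δ * sin (π * t)) ^ 2 := by
    simp only [sq3, cp]
    linear_combination (1 + δ * sin (π * t)) ^ 2 * hs
  have e2 : zv (cp a c δ t) (cp' a c δ t) = (1 + δ * sin (π * t)) * (δ * (π * cos (π * t))) := by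
    simp only [zv, cp, cp']
    linear_combination (1 + δ * sin (π * t)) * (δ * (π * cos (π * t))) * hs
  have e3 : (cp' a c δ t).2.1 * (cp' a c δ t).2.1 + (cp' a c δ t).2.2 * (cp' a c δ t).2.2 =
      (δ * (π * cos (π * t))) ^ 2 + (1 + δ * sin (π * t)) ^ 2 * c ^ 2 := by
    simp only [cp']
    linear_combination ((δ * (π * cos (π * t))) ^ 2 + (1 + δ * sin (π * t)) ^ 2 * c ^ 2) * hs
  have e4 : (cp' a c δ t).1 = a := rfl
  have e5 : cos (2 * π * t) = 2 * cos (π * t) ^ 2 - 1 := by rw [mul_assoc, cos_two_mul]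
  have e6 := cos_sq_add_sin_sq (π * t)
  have r0 : 0 ≤ δ * sin (π * t) := mul_nonneg h0 hs0
  have r1 : δ * sin (π * t) ≤ δ := mul_le_of_le_one_right h0 (sin_le_one _)
  have z1 : (δ * (π * cos (π * t))) ^ 2 ≤ δ ^ 2 * π ^ 2 := by
    rw [mul_pow, mul_pow]
    exact mul_le_mul_of_nonneg_left (mul_le_of_le_one_right (sq_nonneg _) (cos_sq_le_one _))
      (sq_nonneg _)
  have e7 : δ ^ 2 * (π ^ 2 - a ^ 2) / 2 + δ ^ 2 * (π ^ 2 + a ^ 2) / 2 * cos (2 * π * t) =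
      (δ * (π * cos (π * t))) ^ 2 - a ^ 2 * (δ * sin (π * t)) ^ 2 := by
    rw [e5]
    linear_combination (δ ^ 2 * a ^ 2) * e6
  rw [g3_apply, e1, e2, e3, e4]
  linarith [alg3 a c h1 r0 r1 z1]

lemma dist_lt3 {a : ℝ} (ha : π < a) (c : ℝ) {l : ℝ} (hl : 0 < l) (hl2 : l ^ 2 = a ^ 2 + c ^ 2) :
    riemDist g3 p3 (q3 a c) < l := by
  have hp := pi_pos
  have h1 : π ^ 2 < a ^ 2 := by nlinarith
  set K := 6 * a ^ 2 + 93 * π ^ 2 + 1863 * c ^ 2 with hK
  have hK0 : 0 < K := by positivity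
  set δ := min 1 ((a ^ 2 - π ^ 2) / (4 * K)) with hδ
  have h0 : 0 < δ := lt_min one_pos (div_pos (by linarith) (by positivity))
  have hδK : δ * (4 * K) ≤ a ^ 2 - π ^ 2 := (le_div_iff₀ (by positivity)).1 (min_le_right _ _)
  have hv : Continuous (cp' a c δ) := by unfold cp'; fun_prop
  have h := g3_nice.dist_le (cp_deriv a c δ) hv zero_le_one
  have e0 : cp a c δ 0 = p3 := by simp [cp, p3]
  have e1 : cp a c δ 1 = q3 a c := by simp [cp, q3]
  rw [e0, e1] at h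
  have hmono : ∫ t in (0 : ℝ)..1, √(g3 (cp a c δ t) (cp' a c δ t) (cp' a c δ t)) ≤
      ∫ t in (0 : ℝ)..1, (l + (δ ^ 2 * (π ^ 2 - a ^ 2) / 2 + δ ^ 3 * K) / (2 * l)
        + δ ^ 2 * (π ^ 2 + a ^ 2) / 2 / (2 * l) * cos (2 * π * t)) := by
    refine intervalIntegral.integral_mono_on zero_le_one
      ((speed3 (cp_deriv a c δ) hv).intervalIntegrable _ _)
      (Continuous.intervalIntegrable (by fun_prop) _ _) (fun t ht => ?_)
    have h2 := cp_speed (a := a) (c := c) h0.le (min_le_left _ _) ht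
    have h3 := Real.sq_sqrt (g3_nice.nonneg (cp a c δ t) (cp' a c δ t))
    rw [← hK, ← hl2, ← h3] at h2
    generalize √(g3 (cp a c δ t) (cp' a c δ t) (cp' a c δ t)) = u at *
    have e : l + (δ ^ 2 * (π ^ 2 - a ^ 2) / 2 + δ ^ 3 * K) / (2 * l)
        + δ ^ 2 * (π ^ 2 + a ^ 2) / 2 / (2 * l) * cos (2 * π * t) =
        (2 * l ^ 2 + δ ^ 2 * (π ^ 2 - a ^ 2) / 2 + δ ^ 3 * K
          + δ ^ 2 * (π ^ 2 + a ^ 2) / 2 * cos (2 * π * t)) / (2 * l) := by
      field_simp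
      ring
    rw [e, le_div_iff₀ (by positivity)]
    nlinarith [sq_nonneg (u - l)]
  have hI : ∫ t in (0 : ℝ)..1, cos (2 * π * t) = 0 := by
    rw [intervalIntegral.integral_comp_mul_left (fun x => cos x) (by positivity)]
    simp
  rw [intervalIntegral.integral_add (Continuous.intervalIntegrable (by fun_prop) _ _)
    (Continuous.intervalIntegrable (by fun_prop) _ _), intervalIntegral.integral_const_mul, hI]
    at hmono
  simp only [intervalIntegral.integral_const, sub_zero, one_smul, mul_zero, add_zero] at hmono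
  have h4 : (δ ^ 2 * (π ^ 2 - a ^ 2) / 2 + δ ^ 3 * K) / (2 * l) < 0 := by
    refine div_neg_of_neg_of_pos ?_ (by positivity)
    have : δ ^ 2 * ((π ^ 2 - a ^ 2) / 2 + δ * K) < 0 :=
      mul_neg_of_pos_of_neg (by positivity) (by linarith)
    linarith
  linarith

lemma hl_zero (a c : ℝ) : hl a c 0 = p3 := by simp [hl, p3]

lemma hl_ug {a c : ℝ} (h : a ^ 2 + c ^ 2 = 1) : UG g3 (hl a c) :=
  ⟨hl_geo a c, fun t => by rw [deriv_hl, hl_speed, h]⟩

lemma unit3 (θ : ℝ) : (π / √(π ^ 2 + θ ^ 2)) ^ 2 + (θ / √(π ^ 2 + θ ^ 2)) ^ 2 = 1 := by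
  rw [div_pow, div_pow, ← add_div, ell_sq θ, div_self (by have := pi_pos; positivity)]

lemma hl_end (θ : ℝ) : hl (π / √(π ^ 2 + θ ^ 2)) (θ / √(π ^ 2 + θ ^ 2)) √(π ^ 2 + θ ^ 2) =
    q3 π θ := by
  have hl0 := (ell_pos θ).ne'
  simp only [hl, q3, div_mul_cancel₀ _ hl0]

lemma dist_eq3 {θ : ℝ} (hθ : θ ∈ Icc 0 π) : riemDist g3 p3 (q3 π θ) = √(π ^ 2 + θ ^ 2) := by
  refine le_antisymm ?_ (dist_low3 hθ)
  have := (hl_ug (unit3 θ)).dist_le g3_nice (ell_pos θ).le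
  rwa [hl_zero, hl_end, sub_zero] at this

lemma seg3 {θ : ℝ} (hθ : θ ∈ Ioo 0 π) (γ : ℝ → P3) (l : ℝ) (hγ : IsSegment g3 p3 γ l)
    (hq : γ l = q3 π θ) : γ = hl (π / √(π ^ 2 + θ ^ 2)) (θ / √(π ^ 2 + θ ^ 2)) := by
  obtain ⟨hgeo, hunit, h0, hl0, hd⟩ := hγ
  have hθ' : θ ∈ Icc 0 π := Ioo_subset_Icc_self hθ
  rw [hq, dist_eq3 hθ'] at hd
  have hlpos : 0 < l := hd ▸ ell_pos θ
  have hl2 : l ^ 2 = π ^ 2 + θ ^ 2 := hd ▸ ell_sq θ
  rw [hd]
  obtain ⟨hc, hv⟩ := geo_deriv hgeo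
  set v := deriv γ with hvdef
  have hlow := low3 hc hv hl0 hθ' h0 hq
  have hpt : ∀ t, π * ka (Ph (γ t)) (Ph' (γ t) (v t)) + θ * kb (Ph (γ t)) (Ph' (γ t) (v t)) ≤ l := by
    intro t
    have := pt3 (γ t) (v t) hθ'.1
    rwa [hunit t, hd, Real.sqrt_one, mul_one] at this
  have hall : ∀ t ∈ Icc 0 l, sq3 (γ t) = 1 := by
    intro t ht
    have e : π * ka (Ph (γ t)) (Ph' (γ t) (v t)) + θ * kb (Ph (γ t)) (Ph' (γ t) (v t)) = l := by
      by_contra hne
      have := intervalIntegral.integral_lt_integral_of_continuousOn_of_le_of_exists_lt hlpos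
        (cont3 hc hv θ).continuousOn (continuousOn_const (c := l)) (fun t _ => hpt t)
        ⟨t, ht, lt_of_le_of_ne (hpt t) hne⟩
      simp only [intervalIntegral.integral_const, sub_zero, smul_eq_mul] at this
      nlinarith
    have hu := hunit t
    rw [g3_split'] at hu
    have ha := mul_le_mul_of_nonneg_left (ka_le (Ph (γ t)) (Ph' (γ t) (v t))) pi_pos.le
    have hb := mul_le_mul_of_nonneg_left (kb_le_G2 (γ t) (v t)) hθ'.1
    obtain ⟨k, -, hk, hk2⟩ := kb_G2 (γ t) (v t)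
    have hG := Real.sq_sqrt (G2_nonneg (γ t) (v t))
    set A := aa (Ph (γ t)) (Ph' (γ t) (v t))
    set B := √(G2 (γ t) (v t)) with hBdef
    have hsq : (π - l * A) ^ 2 + (θ - l * B) ^ 2 ≤ 0 := by
      have : (π - l * A) ^ 2 + (θ - l * B) ^ 2 = 2 * l * (l - (π * A + θ * B)) := by
        linear_combination (-1 : ℝ) * hl2 + l ^ 2 * hu
      rw [this]
      exact mul_nonpos_of_nonneg_of_nonpos (by positivity) (by linarith)
    have hA : l * A = π := by nlinarith [sq_nonneg (π - l * A), sq_nonneg (θ - l * B)]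
    have hB : l * B = θ := by nlinarith [sq_nonneg (π - l * A), sq_nonneg (θ - l * B)]
    have hS : π * A + θ * B = l := by
      apply mul_left_cancel₀ hlpos.ne'
      linear_combination π * hA + θ * hB - hl2
    have hkb : kb (Ph (γ t)) (Ph' (γ t) (v t)) = B := mul_left_cancel₀ hθ.1.ne' (by linarith)
    by_contra hne
    have hk0 := hk hne
    rw [hkb, hG] at hk2
    have hz : (v t).2.1 ^ 2 + (v t).2.2 ^ 2 ≤ 0 := by
      by_contra hh
      have := mul_pos hk0 (not_le.1 hh)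
      linarith
    have z1 : (v t).2.1 = 0 := by nlinarith [sq_nonneg (v t).2.1, sq_nonneg (v t).2.2]
    have z2 : (v t).2.2 = 0 := by nlinarith [sq_nonneg (v t).2.1, sq_nonneg (v t).2.2]
    have : B = 0 := by simp [hBdef, G2, zv, z1, z2]
    rw [this, mul_zero] at hB
    exact hθ.1.ne hB
  have dz := deriv_zero_of_const hlpos (sq3_deriv (hc 0)) hall
  have dz' : (v 0).2.1 = 0 := by simpa [zv, h0, p3] using dz
  have hγ : γ = hl (v 0).1 (v 0).2.2 := by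
    refine g3_nice.geo_unique (t₀ := 0) hgeo (hl_geo _ _) (by rw [h0, hl_zero]) ?_
    rw [deriv_hl]
    refine Prod.ext rfl (Prod.ext ?_ ?_) <;> simp [hl', ← hvdef, dz']
  have hu := hl_speed (v 0).1 (v 0).2.2 0
  rw [← deriv_hl, ← hγ, ← hvdef, hunit 0] at hu
  have q0 : (v 0).1 * l = π := by
    have := congrArg (fun x : P3 => x.1) hq
    rwa [hγ] at this
  have q2 : sin ((v 0).2.2 * l) = sin θ := by
    have := congrArg (fun x : P3 => x.2.2) hq
    rwa [hγ] at this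
  have hB3 : ((v 0).2.2 * l) ^ 2 = θ ^ 2 := by
    linear_combination hl2 - l ^ 2 * hu - ((v 0).1 * l + π) * q0
  have r0 : (v 0).1 = π / l := by rw [eq_div_iff hlpos.ne', q0]
  have r3 : (v 0).2.2 = θ / l := by
    rw [eq_div_iff hlpos.ne']
    rcases sq_eq_sq_iff_eq_or_eq_neg.1 hB3 with h | h
    · exact h
    · exfalso
      rw [h, sin_neg] at q2
      have := sin_pos_of_pos_of_lt_pi hθ.1 hθ.2
      linarith
  rw [hγ, r0, r3]

lemma sep3 : q3 π π ∈ separatingSet g3 p3 := by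
  have hl0 := ell_pos π
  have hd := dist_eq3 (θ := π) ⟨pi_pos.le, le_rfl⟩
  have e1 := hl_end π
  have hu := unit3 π
  set l := √(π ^ 2 + π ^ 2)
  have e2 : hl (π / l) (-(π / l)) l = q3 π π := by simp [hl, q3, div_mul_cancel₀ _ hl0.ne']
  have u1 := hl_ug hu
  have u2 := hl_ug (a := π / l) (c := -(π / l)) (by rw [neg_sq, hu])
  refine ⟨_, _, l, ⟨u1.1, u1.2, hl_zero _ _, hl0.le, by rw [e1, hd]⟩,
    ⟨u2.1, u2.2, hl_zero _ _, hl0.le, by rw [e2, hd]⟩, e1, e2, fun h => ?_⟩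
  have h1 := congrArg (fun x : P3 => x.2.2) (h (x := l / 2) ⟨by positivity, by linarith⟩)
  have e3 : π / l * (l / 2) = π / 2 := by field_simp
  simp [hl, e3] at h1
  norm_num at h1

lemma exp3 (θ : ℝ) : expMap g3 p3 (π, 0, θ) = q3 π θ := by
  have := g3_nice.exp_eq (hl_geo π θ) 1
  rw [hl_zero, deriv_hl] at this
  simpa [hl', hl, q3] using this

lemma cut3 {θ : ℝ} (hθ : θ ∈ Icc 0 π) : ((π, 0, θ) : P3) ∈ tangentCutLocus g3 p3 := by
  have hl0 := ell_pos θ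
  have hu := unit3 θ
  have := cut_of g3_nice (hl_ug hu) hl0.le one_pos (by rw [hl_zero, hl_end, dist_eq3 hθ])
    (fun τ h0 _ => by
      rw [hl_zero]
      refine dist_lt3 ?_ _ (by linarith) ?_
      · rw [div_mul_eq_mul_div, lt_div_iff₀ hl0]
        nlinarith [pi_pos]
      · rw [mul_pow, mul_pow, ← add_mul, hu, one_mul])
  rw [hl_zero, deriv_hl] at this
  simpa [hl', mul_div_cancel₀ _ hl0.ne'] using this

theorem main3 : ∃ (g : Met P3) (p : P3), Nice g ∧ Bad g p ∧ ContDiff ℝ ω g := by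
  have ht : Tendsto (fun k : ℕ => π - 1 / ((k : ℝ) + 1)) atTop (𝓝 π) := by
    simpa using (tendsto_const_nhds (x := π)).sub tendsto_one_div_add_atTop_nhds_zero_nat
  have hm : ∀ k : ℕ, π - 1 / ((k : ℝ) + 1) ∈ Ioo 0 π := fun k => by
    have h1 : 0 < 1 / ((k : ℝ) + 1) := by positivity
    have h2 : 1 / ((k : ℝ) + 1) ≤ 1 := by
      rw [div_le_one (by positivity)]
      linarith [Nat.cast_nonneg (α := ℝ) k]
    exact ⟨by linarith [pi_gt_three], by linarith⟩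
  refine ⟨g3, p3, g3_nice, ⟨(π, 0, π), ⟨cut3 ⟨pi_pos.le, le_rfl⟩, exp3 π ▸ sep3⟩,
    fun k => (π, 0, π - 1 / ((k : ℝ) + 1)), fun k => ⟨cut3 (Ioo_subset_Icc_self (hm k)),
      fun h => not_sep (seg3 (hm k)) (exp3 _ ▸ h.2)⟩,
    tendsto_const_nhds.prodMk_nhds (tendsto_const_nhds.prodMk_nhds ht), ?_⟩, g3_contDiff⟩
  simp only [exp3]
  exact ((show Continuous (q3 π) by unfold q3; fun_prop).tendsto π).comp ht

end Pool.Agent.MP_402458_gt.Sf

end

section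

/-! The examples in all dimensions at least two. -/

set_option maxSynthPendingDepth 3

open Set Filter Topology
open scoped ContDiff

namespace Pool.Agent.MP_402458_gt.Sf

theorem main_all (n : ℕ) (hn : 2 ≤ n) :
    ∃ (g : Met (EuclideanSpace ℝ (Fin n))) (p : EuclideanSpace ℝ (Fin n)),
      Nice g ∧ Bad g p ∧ (3 ≤ n → ContDiff ℝ ω g) := by
  by_cases h3 : 3 ≤ n
  · obtain ⟨g, p, h1, h2, h⟩ := main3
    obtain ⟨g', p', a1, a2, a3⟩ := transfer h1 h2 n (by simpa using h3)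
    exact ⟨g', p', a1, a2, fun _ => a3 h⟩
  · obtain ⟨g, h1, h2⟩ := main2
    obtain ⟨g', p', a1, a2, -⟩ := transfer h1 h2 n (by simpa using hn)
    exact ⟨g', p', a1, a2, fun h => absurd h h3⟩

end Pool.Agent.MP_402458_gt.Sf

end
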